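import Mathlib

/-!
# The Delta system lemma
-/

namespace Pool.Agent.SSM

open Set

private theorem dsys_aux {ι α : Type*} [DecidableEq α] (n : ℕ) : ∀ {S : Set ι} (D : ι → Finset α),
    ¬ S.Countable → (∀ i ∈ S, (D i).card = n) →
    ∃ S' ⊆ S, ¬ S'.Countable ∧ ∃ R : Finset α, ∀ i ∈ S', ∀ j ∈ S', i ≠ j → D i ∩ D j = R := by
  induction n with
  | zero =>
    intro S D hS hD
    refine ⟨S, subset_rfl, hS, ∅, fun i hi j _ _ => ?_⟩
    rw [Finset.card_eq_zero.1 (hD i hi), Finset.empty_inter]
  | succ n ih =>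
    intro S D hS hD
    by_cases hx : ∃ x, ¬ {i ∈ S | x ∈ D i}.Countable
    · obtain ⟨x, hx⟩ := hx
      obtain ⟨S', hS', hc, R, hR⟩ := ih (S := {i ∈ S | x ∈ D i}) (fun i => (D i).erase x) hx (by
        intro i hi
        rw [Finset.card_erase_of_mem hi.2, hD i hi.1, Nat.add_sub_cancel])
      refine ⟨S', fun i hi => (hS' hi).1, hc, insert x R, ?_⟩
      intro i hi j hj hij
      rw [← hR i hi j hj hij]
      ext y
      have h1 := (hS' hi).2
      have h2 := (hS' hj).2
      simp only [Finset.mem_inter, Finset.mem_insert, Finset.mem_erase]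
      by_cases hy : y = x
      · subst hy
        simp [h1, h2]
      · simp [hy]
    · push Not at hx
      obtain ⟨M, hM⟩ := zorn_subset {M : Set ι | M ⊆ S ∧ ∀ i ∈ M, ∀ j ∈ M, i ≠ j →
        D i ∩ D j = ∅} (by
          intro c hc hch
          refine ⟨⋃₀ c, ⟨sUnion_subset fun s hs => (hc hs).1, ?_⟩, fun s hs =>
            subset_sUnion_of_mem hs⟩
          rintro i ⟨s, hs, his⟩ j ⟨t, ht, hjt⟩ hij
          rcases hch.total hs ht with h | h
          · exact (hc ht).2 i (h his) j hjt hij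
          · exact (hc hs).2 i his j (h hjt) hij)
      refine ⟨M, hM.prop.1, ?_, ∅, hM.prop.2⟩
      intro hMc
      have hU : (⋃ i ∈ M, (D i : Set α)).Countable :=
        hMc.biUnion fun i _ => (D i).countable_toSet
      have hV : (M ∪ ⋃ x ∈ (⋃ i ∈ M, (D i : Set α)), {i ∈ S | x ∈ D i}).Countable :=
        hMc.union (hU.biUnion fun x _ => hx x)
      obtain ⟨i, hi, hin⟩ : ∃ i ∈ S, i ∉ (M ∪ ⋃ x ∈ (⋃ i ∈ M, (D i : Set α)),
          {i ∈ S | x ∈ D i}) := by
        by_contra hcon
        push Not at hcon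
        exact hS (hV.mono hcon)
      have hiM : i ∉ M := fun h => hin (Or.inl h)
      have hdis : ∀ j ∈ M, D i ∩ D j = ∅ := by
        intro j hj
        rw [Finset.eq_empty_iff_forall_notMem]
        intro x hx'
        rw [Finset.mem_inter] at hx'
        apply hin
        right
        rw [mem_iUnion₂]
        refine ⟨x, ?_, hi, hx'.1⟩
        rw [mem_iUnion₂]
        exact ⟨j, hj, hx'.2⟩
      have h1 : insert i M ∈ {M : Set ι | M ⊆ S ∧ ∀ i ∈ M, ∀ j ∈ M, i ≠ j →
          D i ∩ D j = ∅} := by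
        refine ⟨insert_subset hi hM.prop.1, ?_⟩
        rintro a (rfl | ha) b (rfl | hb) hab
        · exact absurd rfl hab
        · exact hdis b hb
        · rw [Finset.inter_comm]; exact hdis a ha
        · exact hM.prop.2 a ha b hb hab
      have h2 := hM.le_of_ge h1 (subset_insert i M)
      exact hiM (h2 (mem_insert i M))

/-- an uncountable family of finite sets has an uncountable subfamily which is a Delta system -/
theorem exists_dsys {ι α : Type*} [DecidableEq α] {S : Set ι} (hS : ¬ S.Countable) (D : ι → Finset α) :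
    ∃ S' ⊆ S, ¬ S'.Countable ∧ ∃ R : Finset α, ∀ i ∈ S', ∀ j ∈ S', i ≠ j → D i ∩ D j = R := by
  obtain ⟨n, hn⟩ : ∃ n, ¬ {i ∈ S | (D i).card = n}.Countable := by
    by_contra hcon
    push Not at hcon
    apply hS
    refine (countable_iUnion hcon).mono ?_
    intro i hi
    rw [mem_iUnion]
    exact ⟨(D i).card, hi, rfl⟩
  obtain ⟨S', h1, h2, h3⟩ := dsys_aux n D hn (fun i hi => hi.2)
  exact ⟨S', fun i hi => (h1 hi).1, h2, h3⟩

end Pool.Agent.SSM
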