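import Mathlib
import Pool.Agent.Helper79.SscDefs

/-!
# Rational approximations of series of reals
-/

namespace Pool.Agent.SSM

open Set Filter Topology Pool.Agent.Helper79.Ssc

namespace Appxx

theorem conv_of_conv {a b : ℕ → ℝ} (h : ∀ n, |a n - b n| ≤ (1 / 2) ^ n) (ha : SeriesConv a) :
    SeriesConv b := by
  obtain ⟨l, hl⟩ := ha
  have hs : Summable fun n => a n - b n := by
    refine Summable.of_norm_bounded (summable_geometric_of_lt_one (by norm_num)
      (by norm_num : (1 / 2 : ℝ) < 1)) fun n => ?_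
    rw [Real.norm_eq_abs]
    exact h n
  have h1 := hs.hasSum.tendsto_sum_nat
  refine ⟨l - ∑' n, (a n - b n), ?_⟩
  have h2 := hl.sub h1
  refine h2.congr fun n => ?_
  rw [Finset.sum_sub_distrib]
  ring

theorem conv_iff {a b : ℕ → ℝ} (h : ∀ n, |a n - b n| ≤ (1 / 2) ^ n) :
    SeriesConv a ↔ SeriesConv b :=
  ⟨conv_of_conv h, conv_of_conv fun n => by rw [abs_sub_comm]; exact h n⟩

end Appxx

/-- rational approximations of a series of reals -/
theorem approx_series {s : ℕ → ℝ} {r : ℕ → ℚ} (h : ∀ n, |s n - r n| ≤ (1 / 2) ^ n) :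
    (SeriesConv s ↔ SeriesConv (fun n => (r n : ℝ))) ∧
      (SeriesConv (fun n => |s n|) ↔ SeriesConv (fun n => |(r n : ℝ)|)) ∧
      ∀ X : Set ℕ, X.Infinite → (SeriesConv (fun n => s (Nat.nth (fun i => i ∈ X) n)) ↔ SubConv X r) := by
  refine ⟨Appxx.conv_iff h, Appxx.conv_iff fun n => ?_, fun X hX => ?_⟩
  · exact (abs_abs_sub_abs_le_abs_sub _ _).trans (h n)
  · refine Appxx.conv_iff fun n => ?_
    refine (h _).trans ?_
    have hmono : StrictMono (Nat.nth fun i => i ∈ X) := Nat.nth_strictMono hX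
    exact pow_le_pow_of_le_one (by norm_num) (by norm_num) (hmono.le_apply)

end Pool.Agent.SSM
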