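import Pool.Agent.SSM.Sel

/-!
# Cohen functions are not dominated
-/

namespace Pool.Agent.SSM

open Set Cardinal

section
variable {A : Itd} {I Ω : Type} [LinearOrder Ω] [WellFoundedLT Ω]

/-- the forcing relation of a name of a partial function is monotone -/
def Mono (F : Pre A I Ω → ℕ → ℕ → Prop) : Prop :=
  ∀ q ∈ PP A I Ω, ∀ q' ∈ PP A I Ω, q'.LE q → ∀ m n, F q m n → F q' m n

/-- below `p` the name is a total function -/
def Tot (F : Pre A I Ω → ℕ → ℕ → Prop) (p : Pre A I Ω) : Prop :=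
  ∀ q ∈ PP A I Ω, q.LE p → ∀ m, ∃ q' ∈ PP A I Ω, q'.LE q ∧ ∃ n, F q' m n

/-- at most `ℵ₁` Cohen functions are dominated by the function named by `F` -/
theorem badD_small (hΩ : #Ω ≤ ℵ₁) (h1 : A.Tok 1) {F : Pre A I Ω → ℕ → ℕ → Prop} (hF : Mono F) :
    #{i : I | ∃ p ∈ PP A I Ω, ∃ N, Tot F p ∧ ∀ q ∈ PP A I Ω, q.LE p → ∀ n ≥ N, ∀ a b,
      (i, n, a) ∈ q.c → F q n b → a ≤ b} ≤ ℵ₁ := by
  by_contra hbig
  set S : Set I := {i : I | ∃ p ∈ PP A I Ω, ∃ N, Tot F p ∧ ∀ q ∈ PP A I Ω, q.LE p → ∀ n ≥ N, ∀ a b,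
      (i, n, a) ∈ q.c → F q n b → a ≤ b} with hS
  -- the extended bad conditions
  have key : ∀ i : I, ∃ (p : Pre A I Ω) (τ : List ℕ), i ∈ S → p ∈ PP A I Ω ∧
      (∀ n a, (i, n, a) ∈ p.c ↔ n < τ.length ∧ a = τ.getD n 0) ∧ Tot F p ∧
      ∀ q ∈ PP A I Ω, q.LE p → ∀ n ≥ τ.length, ∀ a b, (i, n, a) ∈ q.c → F q n b → a ≤ b := by
    intro i
    by_cases hi : i ∈ S
    · obtain ⟨p, hp, N, hT, hb⟩ := hi
      obtain ⟨q, hq, hqp, -, τ, hM, hτ⟩ := exists_cohen hp i N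
      refine ⟨q, τ, fun _ => ⟨hq, hτ, ?_, ?_⟩⟩
      · intro r hr hrq m
        exact hT r hr (Pre.LE.trans hrq hqp) m
      · intro r hr hrq n hn a b ha hF'
        exact hb r hr (Pre.LE.trans hrq hqp) n (le_trans hM hn) a b ha hF'
    · refine ⟨⟨∅, ∅, fun _ => [], fun _ _ _ => ∅, ?_, ?_, ?_⟩, [], fun h => absurd h hi⟩
      · intro i n a b ha
        simp at ha
      · intro β _
        exact ⟨rfl, fun _ _ => rfl⟩
      · intro β n hn
        simp at hn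
  choose P st hP using key
  obtain ⟨τ0, -, hcop⟩ := exists_copies hΩ (I' := S) hbig P (fun i hi => (hP i hi).1) st
    (fun i hi => (hP i hi).2.1)
  obtain ⟨ι, hι, q, hq, hlim⟩ := hcop (τ := Unit) (fun _ => {()}) (fun _ => by simpa using h1)
    (fun k _ => [k]) (1 / 2) (by norm_num)
  have hB : ∀ {k : ℕ} {B : Finset Unit}, (B.card : ℝ) ≤ 1 / 2 * (({()} : Finset Unit).card : ℝ) →
      () ∉ B := by
    intro k B hc hmem
    have h2 : 1 ≤ B.card := Finset.card_pos.2 ⟨(), hmem⟩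
    have h3 : (1 : ℝ) ≤ (B.card : ℝ) := by exact_mod_cast h2
    simp only [Finset.card_singleton, Nat.cast_one] at hc
    linarith
  obtain ⟨k0, -, q1, hq1, hq1q, B, -, hBc, hB1⟩ := hlim q hq (Pre.LE.refl q) 0
  have hle := (hB1 () (Finset.mem_singleton_self _) (hB (k := 0) hBc)).1
  obtain ⟨q2, hq2, hq21, b, hFb⟩ := (hP _ (hι k0 ()).1).2.2.1 q1 hq1 hle τ0.length
  obtain ⟨k, hk, q3, hq3, hq32, B', -, hBc', hB1'⟩ := hlim q2 hq2 (Pre.LE.trans hq21 hq1q) (b + 1)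
  obtain ⟨hle', hmem⟩ := hB1' () (Finset.mem_singleton_self _) (hB (k := 0) hBc')
  have hm := hmem 0 (by simp)
  have hm' : (ι k (), τ0.length, k) ∈ q3.c := by simpa using hm
  have hlen : (st (ι k ())).length ≤ τ0.length := by rw [(hι k ()).2]
  have := (hP _ (hι k ()).1).2.2.2 q3 hq3 hle' τ0.length hlen k b hm' (hF q2 hq2 q3 hq3 hq32 _ _ hFb)
  omega

end

end Pool.Agent.SSM
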