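import Mathlib
import Pool.Agent.Helper79.SscLower

/-!
# The conditionally convergent series coded by a function
-/

namespace Pool.Agent.SSM

open Set Filter Topology Pool.Agent.Helper79.Ssc

/-- the number of flags up to `n` -/
def flg (c : ℕ → ℕ) (n : ℕ) : ℕ := ((Finset.range (n + 1)).filter (fun m => 2 ≤ c m)).card

/-- the absolute value of the `n`-th initial sum -/
def eps (c : ℕ → ℕ) (n : ℕ) : ℚ := 1 / (flg c n + 1)

/-- the sign coded by a letter -/
def sgn (a : ℕ) : ℚ := if a % 2 = 0 then 1 else -1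

/-- difference of the characteristic function of `{n | x n = 1}` at `n` and `n + 1` -/
def eta (x : ℕ → ℕ) (n : ℕ) : ℚ := (if x n = 1 then 1 else 0) - (if x (n + 1) = 1 then 1 else 0)

/-- the series coded by `c`: its initial sums are `eps c n * sgn (c n)` -/
def ser (c : ℕ → ℕ) (n : ℕ) : ℚ := eps c n * sgn (c n) - (if n = 0 then 0 else eps c (n - 1) * sgn (c (n - 1)))

/-- `eps c n` depends only on the letters up to `n` -/
theorem flg_congr {c c' : ℕ → ℕ} {n : ℕ} (h : ∀ m ≤ n, c m = c' m) : flg c n = flg c' n := by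
  unfold flg
  congr 1
  apply Finset.filter_congr
  intro m hm
  rw [Finset.mem_range] at hm
  rw [h m (by omega)]

theorem eps_congr {c c' : ℕ → ℕ} {n : ℕ} (h : ∀ m ≤ n, c m = c' m) : eps c n = eps c' n := by
  unfold eps
  rw [flg_congr h]

theorem ser_congr {c c' : ℕ → ℕ} {n : ℕ} (h : ∀ m ≤ n, c m = c' m) : ser c n = ser c' n := by
  unfold ser
  rw [eps_congr h, h n le_rfl, eps_congr (n := n - 1) (fun m hm => h m (by omega)), h (n - 1) (by omega)]

theorem flg_mono (c : ℕ → ℕ) {n m : ℕ} (h : n ≤ m) : flg c n ≤ flg c m := by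
  unfold flg
  apply Finset.card_le_card
  apply Finset.filter_subset_filter
  intro a ha
  rw [Finset.mem_range] at ha ⊢
  omega

theorem eps_pos (c : ℕ → ℕ) (n : ℕ) : 0 < eps c n := by
  unfold eps
  positivity

theorem sgn_abs (a : ℕ) : |sgn a| = 1 := by
  unfold sgn
  split_ifs <;> simp

/-- the initial sums -/
theorem sum_ser (c : ℕ → ℕ) (n : ℕ) : ∑ i ∈ Finset.range (n + 1), ser c i = eps c n * sgn (c n) := by
  induction n with
  | zero => simp [ser]
  | succ n ih =>
    rw [Finset.sum_range_succ, ih]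
    simp [ser]

theorem eps_tendsto {c : ℕ → ℕ} (h1 : ∀ M, ∃ n, M ≤ flg c n) :
    Tendsto (fun n => ((eps c n * sgn (c n) : ℚ) : ℝ)) atTop (𝓝 0) := by
  have hflg : Tendsto (flg c) atTop atTop := by
    rw [tendsto_atTop]
    intro b
    obtain ⟨n, hn⟩ := h1 b
    filter_upwards [eventually_ge_atTop n] with m hm
    exact hn.trans (flg_mono c hm)
  have h2 : Tendsto (fun n => ((eps c n : ℚ) : ℝ)) atTop (𝓝 0) := by
    have := (tendsto_one_div_add_atTop_nhds_zero_nat (𝕜 := ℝ)).comp hflg
    refine this.congr (fun i => ?_)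
    simp [eps]
  refine squeeze_zero_norm (fun n => ?_) h2
  rw [Real.norm_eq_abs]
  push_cast
  rw [abs_mul]
  have h3 : |((sgn (c n) : ℚ) : ℝ)| = 1 := by
    rw [← Rat.cast_abs, sgn_abs, Rat.cast_one]
  rw [h3, mul_one, abs_of_pos (by exact_mod_cast eps_pos c n)]

theorem ser_cond {c : ℕ → ℕ} (h1 : ∀ M, ∃ n, M ≤ flg c n)
    (h2 : ∀ M : ℕ, ∃ n, (M : ℚ) ≤ ∑ i ∈ Finset.range n, |ser c i|) : CondConv (ser c) := by
  refine ⟨⟨0, ?_⟩, fun h => ?_⟩
  · rw [← tendsto_add_atTop_iff_nat 1]
    refine (eps_tendsto h1).congr (fun n => ?_)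
    rw [← sum_ser]
    push_cast
    rfl
  · obtain ⟨C, hC⟩ := SeriesConv.bdd h
    obtain ⟨M, hM⟩ := exists_nat_gt C
    obtain ⟨n, hn⟩ := h2 M
    have h3 := (le_abs_self _).trans (hC n)
    have h4 : (M : ℝ) ≤ ∑ i ∈ Finset.range n, |((ser c i : ℚ) : ℝ)| := by
      have h5 : ((M : ℚ) : ℝ) ≤ ((∑ i ∈ Finset.range n, |ser c i| : ℚ) : ℝ) := by exact_mod_cast hn
      push_cast at h5
      exact h5
    linarith

/-- if the subseries along `X` converges then the transition sums are small -/
theorem sub_small {c x : ℕ → ℕ} (h1 : ∀ M, ∃ n, M ≤ flg c n) (hX : {n | x n = 1}.Infinite)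
    (h : SubConv {n | x n = 1} (ser c)) :
    ∃ N, ∀ u v, N ≤ u → u ≤ v → |∑ n ∈ Finset.Ico u v, eps c n * sgn (c n) * eta x n| ≤ 1 := by
  classical
  obtain ⟨X, hXdef⟩ : ∃ X : Set ℕ, X = {n | x n = 1} := ⟨_, rfl⟩
  rw [← hXdef] at hX h
  obtain ⟨l, hl⟩ := h
  set A : ℕ → ℝ := fun n => ((eps c n * sgn (c n) : ℚ) : ℝ) with hA
  have hAt : Tendsto A atTop (𝓝 0) := eps_tendsto h1
  have hcount : Tendsto (fun t => Nat.count (fun i => i ∈ X) t) atTop atTop := by
    rw [tendsto_atTop]
    intro b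
    filter_upwards [eventually_ge_atTop (Nat.nth (fun i => i ∈ X) b)] with t ht
    have h5 := Nat.count_nth_of_infinite (p := fun i => i ∈ X) hX b
    rw [← h5]
    exact Nat.count_monotone _ ht
  have hl' := hl.comp hcount
  set T : ℕ → ℝ := fun t => if t ∈ X then (if t = 0 then 0 else A (t-1)) else 0 with hT
  have hTt : Tendsto T atTop (𝓝 0) := by
    rw [← tendsto_add_atTop_iff_nat 1]
    refine squeeze_zero_norm (a := fun n => |A n|) (fun n => ?_) ?_
    · simp only [hT]
      rw [Real.norm_eq_abs]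
      split_ifs with ha hb
      · simp
      · simp
      · simp
    · have := hAt.abs
      simpa using this
  set G : ℕ → ℝ := fun t => ∑ i ∈ Finset.range t, A i * ((if i ∈ X then 1 else 0) - (if i + 1 ∈ X then 1 else 0)) with hG
  have hGt : Tendsto G atTop (𝓝 (l - 0)) := by
    refine (hl'.sub hTt).congr (fun t => ?_)
    have h6 := abel X A t
    have h7 := sum_ind_eq_nth X (fun i => ((ser c i : ℚ) : ℝ)) t
    simp only [Function.comp]
    rw [← h7]
    have h8 : ∑ i ∈ Finset.range t, (if i ∈ X then ((ser c i : ℚ) : ℝ) else 0)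
        = ∑ i ∈ Finset.range t, (if i ∈ X then (A i - (if i = 0 then 0 else A (i-1))) else 0) := by
      apply Finset.sum_congr rfl
      intro i _
      split_ifs with ha hb
      · simp [ser, hA, hb]
      · simp [ser, hA, hb]
      · rfl
    rw [h8, h6]
    simp only [hG, hT]
    ring
  obtain ⟨N, hN⟩ := Metric.cauchySeq_iff.1 hGt.cauchySeq 1 one_pos
  refine ⟨N, fun u v hu huv => ?_⟩
  have h9 := hN v (hu.trans huv) u hu
  rw [Real.dist_eq] at h9
  have h10 : G v - G u = ((∑ n ∈ Finset.Ico u v, eps c n * sgn (c n) * eta x n : ℚ) : ℝ) := by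
    rw [Finset.sum_Ico_eq_sub _ huv]
    have h11 : ∀ t, G t = ((∑ n ∈ Finset.range t, eps c n * sgn (c n) * eta x n : ℚ) : ℝ) := by
      intro t
      simp only [hG]
      push_cast
      apply Finset.sum_congr rfl
      intro i _
      simp only [hA, eta, hXdef, Set.mem_setOf_eq]
      by_cases ha : x i = 1 <;> by_cases hb : x (i + 1) = 1 <;> simp [ha, hb]
    rw [h11, h11]
    push_cast
    ring
  rw [h10] at h9
  have h12 : ((|∑ n ∈ Finset.Ico u v, eps c n * sgn (c n) * eta x n| : ℚ) : ℝ) ≤ ((1 : ℚ) : ℝ) := by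
    rw [Rat.cast_abs, Rat.cast_one]
    exact h9.le
  exact_mod_cast h12

/-- long alternating blocks without flags make the series of absolute values large -/
theorem exists_alt (τ : List ℕ) (M : ℕ) : ∃ ρ : List ℕ, ∀ c : ℕ → ℕ,
    (∀ n, n < (τ ++ ρ).length → c n = (τ ++ ρ).getD n 0) →
    (M : ℚ) ≤ ∑ i ∈ Finset.range (τ ++ ρ).length, |ser c i| := by
  obtain ⟨L, hL⟩ : ∃ L, L = τ.length := ⟨_, rfl⟩
  obtain ⟨K, hK⟩ : ∃ K, K = M * (L + 1) := ⟨_, rfl⟩
  refine ⟨(List.range (K + 1)).map (fun j => j % 2), fun c hc => ?_⟩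
  have hlen : (τ ++ (List.range (K + 1)).map (fun j => j % 2)).length = L + (K + 1) := by
    simp [hL]
  have hcv : ∀ j ≤ K, c (L + j) = j % 2 := by
    intro j hj
    rw [hc _ (by rw [hlen]; omega)]
    rw [List.getD_append_right _ _ _ _ (by omega), hL, Nat.add_sub_cancel_left]
    rw [List.getD_eq_getElem _ _ (by simp; omega)]
    simp
  have hflg : ∀ n < L + (K + 1), flg c n ≤ L := by
    intro n hn
    unfold flg
    calc _ ≤ (Finset.range L).card := Finset.card_le_card (fun m hm => by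
            rw [Finset.mem_filter, Finset.mem_range] at hm
            rw [Finset.mem_range]
            by_contra hcon
            push Not at hcon
            obtain ⟨j, rfl⟩ := Nat.exists_eq_add_of_le hcon
            have := hcv j (by omega)
            omega)
      _ = L := by simp
  have heps : ∀ j < K, eps c (L + j + 1) = eps c (L + j) := by
    intro j hj
    unfold eps flg
    rw [Finset.range_add_one (n := L + j + 1), Finset.filter_insert, if_neg]
    have := hcv (j + 1) hj
    rw [← add_assoc] at this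
    omega
  have hser : ∀ j < K, 2 / ((L : ℚ) + 1) ≤ |ser c (L + j + 1)| := by
    intro j hj
    have h1 := hcv (j + 1) hj
    rw [← add_assoc] at h1
    have h2 := hcv j hj.le
    have h3 : ser c (L + j + 1) = eps c (L + j) * (sgn (c (L + j + 1)) - sgn (c (L + j))) := by
      unfold ser
      rw [if_neg (by omega), heps j hj, Nat.add_sub_cancel]
      ring
    have h4 : |sgn (c (L + j + 1)) - sgn (c (L + j))| = 2 := by
      rw [h1, h2]
      unfold sgn
      rcases Nat.mod_two_eq_zero_or_one j with h | h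
      · have h' : (j + 1) % 2 = 1 := by omega
        rw [h, h']
        norm_num
      · have h' : (j + 1) % 2 = 0 := by omega
        rw [h, h']
        norm_num
    rw [h3, abs_mul, h4, abs_of_pos (eps_pos _ _)]
    have h5 : (flg c (L + j) : ℚ) ≤ L := by exact_mod_cast hflg (L + j) (by omega)
    have h6 : 1 / ((L : ℚ) + 1) ≤ eps c (L + j) := by
      unfold eps
      apply one_div_le_one_div_of_le (by positivity)
      linarith
    calc 2 / ((L : ℚ) + 1) = 1 / ((L : ℚ) + 1) * 2 := by ring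
      _ ≤ _ := by linarith
  rw [hlen, show L + (K + 1) = (L + 1) + K by ring, Finset.sum_range_add]
  have h7 : ∑ j ∈ Finset.range K, 2 / ((L : ℚ) + 1) ≤ ∑ j ∈ Finset.range K, |ser c (L + 1 + j)| := by
    apply Finset.sum_le_sum
    intro j hj
    rw [show L + 1 + j = L + j + 1 by ring]
    exact hser j (Finset.mem_range.1 hj)
  have h8 : (0 : ℚ) ≤ ∑ i ∈ Finset.range (L + 1), |ser c i| := Finset.sum_nonneg (fun _ _ => abs_nonneg _)
  have h9 : ∑ j ∈ Finset.range K, 2 / ((L : ℚ) + 1) = 2 * M := by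
    rw [Finset.sum_const, Finset.card_range, nsmul_eq_mul, hK]
    push_cast
    have : (L : ℚ) + 1 ≠ 0 := by positivity
    field_simp
  have h10 : (0 : ℚ) ≤ M := Nat.cast_nonneg M
  linarith

end Pool.Agent.SSM
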