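import Pool.Agent.SSM.Base

/-!
# The two forcings
-/

namespace Pool.Agent.SSM

open Set

theorem heavyE (κ m l : ℕ) {τ : Type} (T : Finset τ) (v : τ → Finset ℕ)
    (h : ∀ t ∈ T, (v t).card < 2 ^ (m * (l + 1))) :
    ∃ H : Finset ℕ, H.card < 2 ^ ((m + 1 + κ) * (l + 1)) ∧ ∀ (σ : List ℕ) (a : ℕ) (u : Finset ℕ),
      σ.length = l → (∀ x ∈ H, x < a + 1 → x ∈ u) → a ∉ u →
      ∃ B ⊆ T, B.card * 2 ^ (σ.length + κ) ≤ T.card ∧ ∀ t ∈ T, t ∉ B → a ∉ v t := by
  classical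
  refine ⟨(T.biUnion v).filter (fun x => T.card < (T.filter (fun t => x ∈ v t)).card * 2 ^ (l + κ)),
    ?_, ?_⟩
  · set H := (T.biUnion v).filter
      (fun x => T.card < (T.filter (fun t => x ∈ v t)).card * 2 ^ (l + κ)) with hH
    have e1 : H.card * T.card ≤ ∑ x ∈ H, (T.filter (fun t => x ∈ v t)).card * 2 ^ (l + κ) := by
      rw [← smul_eq_mul, ← Finset.sum_const]
      refine Finset.sum_le_sum fun x hx => ?_
      exact (Finset.mem_filter.1 hx).2.le
    have e2 : ∑ x ∈ H, (T.filter (fun t => x ∈ v t)).card ≤ ∑ t ∈ T, (v t).card := by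
      have e := Finset.sum_card_bipartiteAbove_eq_sum_card_bipartiteBelow (s := H) (t := T)
        (fun x t => x ∈ v t)
      refine le_trans (le_of_eq e) (Finset.sum_le_sum fun t _ => Finset.card_le_card fun x hx => ?_)
      exact (Finset.mem_filter.1 hx).2
    have e3 : ∑ t ∈ T, (v t).card ≤ T.card * (2 ^ (m * (l + 1)) - 1) := by
      rw [← smul_eq_mul, ← Finset.sum_const]
      exact Finset.sum_le_sum fun t ht => Nat.le_sub_one_of_lt (h t ht)
    rcases T.eq_empty_or_nonempty with hT | hT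
    · have : H = ∅ := by
        rw [hH, hT]
        simp
      rw [this, Finset.card_empty]
      positivity
    · have hTc : 0 < T.card := hT.card_pos
      rw [← Finset.sum_mul] at e1
      have e4 : H.card * T.card ≤ T.card * (2 ^ (m * (l + 1)) - 1) * 2 ^ (l + κ) :=
        e1.trans (Nat.mul_le_mul_right _ (e2.trans e3))
      have e5 : H.card ≤ (2 ^ (m * (l + 1)) - 1) * 2 ^ (l + κ) := by
        refine Nat.le_of_mul_le_mul_left ?_ hTc
        calc T.card * H.card = H.card * T.card := mul_comm _ _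
          _ ≤ _ := e4
          _ = _ := by ring
      calc H.card ≤ (2 ^ (m * (l + 1)) - 1) * 2 ^ (l + κ) := e5
        _ < 2 ^ (m * (l + 1)) * 2 ^ (l + κ) := by
          refine Nat.mul_lt_mul_of_pos_right ?_ (by positivity)
          exact Nat.sub_lt (by positivity) Nat.one_pos
        _ = 2 ^ (m * (l + 1) + (l + κ)) := (pow_add _ _ _).symm
        _ ≤ 2 ^ ((m + 1 + κ) * (l + 1)) := by
          refine Nat.pow_le_pow_right (by norm_num) ?_
          nlinarith [Nat.zero_le (κ * l)]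
  · intro σ a u hσ hu ha
    refine ⟨T.filter (fun t => a ∈ v t), Finset.filter_subset _ _, ?_, ?_⟩
    · rw [hσ]
      by_contra hc
      push Not at hc
      refine ha (hu a (Finset.mem_filter.2 ⟨?_, hc⟩) (Nat.lt_succ_self a))
      have hne : (T.filter (fun t => a ∈ v t)).Nonempty := by
        rw [← Finset.card_pos]
        by_contra h0
        have h0' : (T.filter (fun t => a ∈ v t)).card = 0 := by omega
        rw [h0', Nat.zero_mul] at hc
        exact absurd hc (Nat.not_lt_zero _)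
      obtain ⟨t, ht⟩ := hne
      have ht' := Finset.mem_filter.1 ht
      exact Finset.mem_biUnion.2 ⟨t, ht'.1, ht'.2⟩
    · intro t ht htB hat
      exact htB (Finset.mem_filter.2 ⟨ht, hat⟩)

theorem unionE {m m' l : ℕ} {u u' : Finset ℕ} (h : u.card < 2 ^ (m * (l + 1)))
    (h' : u'.card < 2 ^ (m' * (l + 1))) : (u ∪ u').card < 2 ^ ((m + m') * (l + 1)) := by
  rw [add_mul, pow_add]
  have h1 := Finset.card_union_le u u'
  obtain ⟨A, hA⟩ : ∃ A, 2 ^ (m * (l + 1)) = A + 1 := ⟨_, (Nat.succ_pred_eq_of_pos (by positivity)).symm⟩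
  obtain ⟨B, hB⟩ : ∃ B, 2 ^ (m' * (l + 1)) = B + 1 := ⟨_, (Nat.succ_pred_eq_of_pos (by positivity)).symm⟩
  rw [hA] at h ⊢
  rw [hB] at h' ⊢
  nlinarith [Nat.zero_le (A * B)]

/-- forcing with finite sequences and slaloms of small width to be avoided: adds a function which is
eventually different from all functions of the ground model -/
def itdE : Itd where
  Adm _ a u := a ∉ u
  pos σ _ := σ.length
  Leg m l u := u.card < 2 ^ (m * (l + 1))
  nb _ a := a + 1
  cb m l := 2 ^ (m * (l + 1))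
  Tok _ := True
  anti h h' := fun ha => h (h' ha)
  leg_empty m l := by simp
  leg_sub h h' := lt_of_le_of_lt (Finset.card_le_card h') h
  leg_mono h h' := lt_of_lt_of_le h' (Nat.pow_le_pow_right (by norm_num) (Nat.mul_le_mul_right _ h))
  leg_union := unionE
  leg_card h := le_of_lt h
  ext σ m := ⟨σ.length, fun u _ => by
    obtain ⟨a, ha⟩ := Infinite.exists_notMem_finset u
    exact ⟨a, rfl, ha⟩⟩
  heavy κ m l {τ} T v _ h := heavyE κ m l T v h

/-- the position of a letter -/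
def kk (a : ℕ) : ℕ := a.unpair.1

/-- the finite set of a letter -/
def SS (a : ℕ) : Finset ℕ := ((Encodable.decode (α := Finset ℕ) a.unpair.2)).getD ∅

theorem exists_kS (k : ℕ) (S : Finset ℕ) : ∃ a, kk a = k ∧ SS a = S := by
  refine ⟨Nat.pair k (Encodable.encode S), by simp [kk], by simp [SS]⟩

theorem extQ (h b : ℕ → ℕ) (hh : ∀ n, ∃ K, ∀ k ≥ K, n ≤ h k) (σ : List ℕ) (m : ℕ) :
    ∃ l, ∀ u : Finset ℕ, (u.card ≤ m ∧ ∀ x ∈ u, x < b l) →
      ∃ a, kk a = l ∧ ((∀ a' ∈ σ, kk a' < kk a) ∧ (SS a).card ≤ h (kk a) ∧ u ⊆ SS a) := by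
  obtain ⟨K, hK⟩ := hh m
  refine ⟨max K ((σ.map kk).sum + 1), fun u hu => ?_⟩
  obtain ⟨a, ha1, ha2⟩ := exists_kS (max K ((σ.map kk).sum + 1)) u
  refine ⟨a, ha1, fun a' ha' => ?_, ?_, ?_⟩
  · rw [ha1]
    refine lt_of_lt_of_le (Nat.lt_succ_of_le ?_) (le_max_right _ _)
    exact List.le_sum_of_mem (List.mem_map_of_mem ha')
  · rw [ha1, ha2]
    exact hu.1.trans (hK _ (le_max_left _ _))
  · rw [ha2]

theorem heavyQ (h b : ℕ → ℕ) (κ m l : ℕ) {τ : Type} (T : Finset τ) (v : τ → Finset ℕ) (hT : T.card ≤ 1)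
    (hv : ∀ t ∈ T, (v t).card ≤ m ∧ ∀ x ∈ v t, x < b l) :
    ∃ H : Finset ℕ, (H.card ≤ m + 1 + κ ∧ ∀ x ∈ H, x < b l) ∧ ∀ (σ : List ℕ) (a : ℕ) (u : Finset ℕ),
      kk a = l → (∀ x ∈ H, x < b l → x ∈ u) →
      ((∀ a' ∈ σ, kk a' < kk a) ∧ (SS a).card ≤ h (kk a) ∧ u ⊆ SS a) →
      ∃ B ⊆ T, B.card * 2 ^ (σ.length + κ) ≤ T.card ∧
        ∀ t ∈ T, t ∉ B → ((∀ a' ∈ σ, kk a' < kk a) ∧ (SS a).card ≤ h (kk a) ∧ v t ⊆ SS a) := by
  classical
  have hb : ∀ x ∈ T.biUnion v, x < b l := fun x hx => by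
    obtain ⟨t, ht, hxt⟩ := Finset.mem_biUnion.1 hx
    exact (hv t ht).2 x hxt
  refine ⟨T.biUnion v, ⟨?_, hb⟩, fun σ a u _ hu ha => ⟨∅, Finset.empty_subset _, ?_, ?_⟩⟩
  · calc (T.biUnion v).card ≤ ∑ t ∈ T, (v t).card := Finset.card_biUnion_le
      _ ≤ ∑ _t ∈ T, m := Finset.sum_le_sum fun t ht => (hv t ht).1
      _ = T.card * m := by rw [Finset.sum_const, smul_eq_mul]
      _ ≤ 1 * m := Nat.mul_le_mul_right _ hT
      _ ≤ m + 1 + κ := by omega
  · simp
  · intro t ht _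
    refine ⟨ha.1, ha.2.1, fun x hx => ha.2.2 (hu x (Finset.mem_biUnion.2 ⟨t, ht, hx⟩) ?_)⟩
    exact (hv t ht).2 x hx

/-- forcing with finite partial slaloms with infinite domain: adds a slalom `(K, S)` with
`|S k| ≤ h k` which captures all functions of the ground model below `b` -/
def itdQ (h b : ℕ → ℕ) (hh : ∀ n, ∃ K, ∀ k ≥ K, n ≤ h k) : Itd where
  Adm σ a u := (∀ a' ∈ σ, kk a' < kk a) ∧ (SS a).card ≤ h (kk a) ∧ u ⊆ SS a
  pos _ a := kk a
  Leg m l u := u.card ≤ m ∧ ∀ x ∈ u, x < b l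
  nb l _ := b l
  cb m _ := m
  Tok n := n ≤ 1
  anti h h' := ⟨h.1, h.2.1, h'.trans h.2.2⟩
  leg_empty m l := by simp
  leg_sub h h' := ⟨(Finset.card_le_card h').trans h.1, fun x hx => h.2 x (h' hx)⟩
  leg_mono h h' := ⟨h'.1.trans h, h'.2⟩
  leg_union h h' := ⟨(Finset.card_union_le _ _).trans (Nat.add_le_add h.1 h'.1), fun x hx => by
    rcases Finset.mem_union.1 hx with h1 | h1
    · exact h.2 x h1
    · exact h'.2 x h1⟩
  leg_card h := h.1
  ext σ m := extQ h b hh σ m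
  heavy κ m l {τ} T v hT hv := heavyQ h b κ m l T v hT hv

end Pool.Agent.SSM
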