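import Pool.Agent.SSM.BadD
import Pool.Agent.SSM.Inst
import Pool.Agent.SSM.CoreL

/-!
# Series coded by Cohen functions have divergent subseries
-/

namespace Pool.Agent.SSM

open Set Cardinal

theorem eta_eq_zero {x : ℕ → ℕ} {n : ℕ} : eta x n = 0 ↔ (x n = 1 ↔ x (n + 1) = 1) := by
  unfold eta
  by_cases h1 : x n = 1 <;> by_cases h2 : x (n + 1) = 1 <;> simp [h1, h2]

theorem eta_cases (x : ℕ → ℕ) (n : ℕ) : eta x n = 0 ∨ eta x n = 1 ∨ eta x n = -1 := by
  unfold eta
  by_cases h1 : x n = 1 <;> by_cases h2 : x (n + 1) = 1 <;> simp [h1, h2]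

theorem exists_trans {x : ℕ → ℕ} {u v : ℕ} (huv : u ≤ v) (h : ¬ (x u = 1 ↔ x v = 1)) :
    ∃ n, u ≤ n ∧ n < v ∧ eta x n ≠ 0 := by
  by_contra hcon
  push Not at hcon
  apply h
  have h1 : ∀ k, u + k ≤ v → (x u = 1 ↔ x (u + k) = 1) := by
    intro k
    induction k with
    | zero => intro _; rfl
    | succ k ih =>
      intro hk
      rw [ih (by omega)]
      exact eta_eq_zero.1 (hcon (u + k) (by omega) (by omega))
  have h2 := h1 (v - u) (by omega)
  rwa [Nat.add_sub_cancel' huv] at h2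

/-- the positions of the transitions -/
noncomputable def trs (x : ℕ → ℕ) (u v : ℕ) : Finset ℕ := by
  classical exact (Finset.Ico u v).filter (fun n => eta x n ≠ 0)

theorem mem_trs {x : ℕ → ℕ} {u v n : ℕ} : n ∈ trs x u v ↔ u ≤ n ∧ n < v ∧ eta x n ≠ 0 := by
  unfold trs
  rw [Finset.mem_filter, Finset.mem_Ico, and_assoc]

theorem exists_trs_eq {x : ℕ → ℕ} {u v C : ℕ} (h : C ≤ (trs x u v).card) :
    ∃ v' ≤ v, (trs x u v').card = C := by
  induction v with
  | zero =>
    refine ⟨0, le_rfl, ?_⟩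
    have : trs x u 0 = ∅ := by
      ext n
      rw [mem_trs]
      simp
    rw [this, Finset.card_empty] at h ⊢
    omega
  | succ v ih =>
    rcases Nat.eq_or_lt_of_le h with h1 | h1
    · exact ⟨v + 1, le_rfl, h1.symm⟩
    · have h2 : (trs x u (v + 1)).card ≤ (trs x u v).card + 1 := by
        have : trs x u (v + 1) ⊆ insert v (trs x u v) := by
          intro n hn
          rw [mem_trs] at hn
          rw [Finset.mem_insert, mem_trs]
          by_cases hnv : n = v
          · exact Or.inl hnv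
          · exact Or.inr ⟨hn.1, by omega, hn.2.2⟩
        exact (Finset.card_le_card this).trans (Finset.card_insert_le _ _)
      obtain ⟨v', hv', h3⟩ := ih (by omega)
      exact ⟨v', by omega, h3⟩

theorem good_bits (x : ℕ → ℕ) {n0 v J k : ℕ} (hk : v ≤ n0 + k)
    (hC : (trs x n0 v).card = J + 2) (B : Finset (Finset ℕ))
    (hB : (B.card : ℝ) ≤ (1 / 2) ^ (J + 3) * ((Finset.range k).powerset).card) :
    ∃ t ∈ (Finset.range k).powerset, t ∉ B ∧
      ∀ n, n0 ≤ n → n < v → eta x n ≠ 0 → (n - n0 ∈ t ↔ eta x n = -1) := by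
  classical
  set Tr := trs x n0 v with hTr
  set D := Tr.image (fun n => n - n0) with hD
  set Pm := (Tr.filter (fun n => eta x n = -1)).image (fun n => n - n0) with hPm
  have hinj : Set.InjOn (fun n => n - n0) (Tr : Set ℕ) := by
    intro a ha b hb hab
    rw [Finset.mem_coe, hTr, mem_trs] at ha hb
    simp only at hab
    omega
  have hDcard : D.card = J + 2 := by
    rw [hD, Finset.card_image_of_injOn hinj, hC]
  have hDk : D ⊆ Finset.range k := by
    intro d hd
    rw [hD, Finset.mem_image] at hd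
    obtain ⟨n, hn, rfl⟩ := hd
    rw [hTr, mem_trs] at hn
    rw [Finset.mem_range]
    omega
  have hPD : Pm ⊆ D := Finset.image_subset_image (Finset.filter_subset _ _)
  set G := (Finset.range k \ D).powerset.image (fun s => s ∪ Pm) with hG
  have hGcard : G.card = 2 ^ (k - (J + 2)) := by
    rw [hG, Finset.card_image_of_injOn, Finset.card_powerset, Finset.card_sdiff_of_subset hDk, hDcard,
      Finset.card_range]
    intro a ha b hb hab
    rw [Finset.mem_coe, Finset.mem_powerset] at ha hb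
    simp only at hab
    ext y
    constructor
    · intro hy
      have h1 : y ∈ b ∪ Pm := by rw [← hab]; exact Finset.mem_union_left _ hy
      rcases Finset.mem_union.1 h1 with h2 | h2
      · exact h2
      · exact absurd (hPD h2) (Finset.mem_sdiff.1 (ha hy)).2
    · intro hy
      have h1 : y ∈ a ∪ Pm := by rw [hab]; exact Finset.mem_union_left _ hy
      rcases Finset.mem_union.1 h1 with h2 | h2
      · exact h2
      · exact absurd (hPD h2) (Finset.mem_sdiff.1 (hb hy)).2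
  have hGB : ¬ G ⊆ B := by
    intro hsub
    have h1 := Finset.card_le_card hsub
    rw [hGcard] at h1
    have hJk : J + 2 ≤ k := by
      rw [← hDcard]
      simpa using Finset.card_le_card hDk
    have h2 : ((2 : ℝ) ^ (k - (J + 2))) ≤ (1 / 2) ^ (J + 3) * 2 ^ k := by
      have h3 : (((2 ^ (k - (J + 2)) : ℕ)) : ℝ) ≤ (B.card : ℝ) := by exact_mod_cast h1
      push_cast at h3
      refine h3.trans (hB.trans ?_)
      rw [Finset.card_powerset, Finset.card_range]
      push_cast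
      exact le_rfl
    have h4 : (2 : ℝ) ^ k = 2 ^ (k - (J + 2)) * 2 ^ (J + 2) := by
      rw [← pow_add, Nat.sub_add_cancel hJk]
    have h5 : (0 : ℝ) < 2 ^ (k - (J + 2)) := by positivity
    have h6 : ((1 : ℝ) / 2) ^ (J + 3) * 2 ^ (J + 2) = 1 / 2 := by
      rw [pow_succ, mul_assoc, mul_comm (1 / 2 : ℝ), ← mul_assoc, ← mul_pow]
      norm_num
    rw [h4] at h2
    nlinarith
  rw [Finset.not_subset] at hGB
  obtain ⟨t, ht, htB⟩ := hGB
  rw [hG, Finset.mem_image] at ht
  obtain ⟨s, hs, rfl⟩ := ht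
  rw [Finset.mem_powerset] at hs
  refine ⟨s ∪ Pm, ?_, htB, ?_⟩
  · rw [Finset.mem_powerset]
    exact Finset.union_subset (hs.trans Finset.sdiff_subset) (hPD.trans hDk)
  · intro n hn1 hn2 hn3
    have hnT : n ∈ Tr := by rw [hTr, mem_trs]; exact ⟨hn1, hn2, hn3⟩
    constructor
    · intro h
      rcases Finset.mem_union.1 h with h1 | h1
      · exfalso
        exact (Finset.mem_sdiff.1 (hs h1)).2 (Finset.mem_image.2 ⟨n, hnT, rfl⟩)
      · rw [hPm, Finset.mem_image] at h1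
        obtain ⟨n', hn', h2⟩ := h1
        rw [Finset.mem_filter] at hn'
        have h3 : n' = n := hinj (Finset.mem_coe.2 hn'.1) (Finset.mem_coe.2 hnT) h2
        rw [← h3]
        exact hn'.2
    · intro h
      apply Finset.mem_union_right
      rw [hPm, Finset.mem_image]
      exact ⟨n, Finset.mem_filter.2 ⟨hnT, h⟩, rfl⟩

/-- the sum over the transitions is large for good bits -/
theorem sum_good {x c : ℕ → ℕ} {n0 v J : ℕ} (hC : (trs x n0 v).card = J + 2)
    (heps : ∀ n, n0 ≤ n → n < v → flg c n = J)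
    (hc : ∀ n, n0 ≤ n → n < v → (c n = 0 ∨ c n = 1) ∧ (eta x n ≠ 0 → (c n = 1 ↔ eta x n = -1))) :
    1 < |∑ n ∈ Finset.Ico n0 v, eps c n * sgn (c n) * eta x n| := by
  classical
  have h1 : ∑ n ∈ Finset.Ico n0 v, eps c n * sgn (c n) * eta x n =
      ∑ n ∈ trs x n0 v, (1 / ((J : ℚ) + 1)) := by
    unfold trs
    rw [Finset.sum_filter]
    apply Finset.sum_congr rfl
    intro n hn
    rw [Finset.mem_Ico] at hn
    have h2 := heps n hn.1 hn.2
    obtain ⟨h3, h4⟩ := hc n hn.1 hn.2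
    by_cases h5 : eta x n = 0
    · simp [h5]
    · rw [if_pos h5]
      have h6 := h4 h5
      have h7 : eps c n = 1 / ((J : ℚ) + 1) := by unfold eps; rw [h2]
      rw [h7]
      rcases eta_cases x n with h8 | h8 | h8
      · exact absurd h8 h5
      · have h9 : c n = 0 := by
          rcases h3 with h9 | h9
          · exact h9
          · have := h6.1 h9
            rw [h8] at this
            norm_num at this
        rw [h9, h8]
        simp [sgn]
      · have h9 : c n = 1 := h6.2 h8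
        rw [h9, h8]
        simp [sgn]
  rw [h1, Finset.sum_const, hC, nsmul_eq_mul]
  have h2 : (0 : ℚ) < (J : ℚ) + 1 := by positivity
  rw [mul_one_div, abs_of_pos (by positivity), lt_div_iff₀ h2]
  push_cast
  linarith

section
variable {I Ω : Type} [LinearOrder Ω] [WellFoundedLT Ω]

/-- the condition `p` with the bound `N` forces that the series coded by the `i`-th Cohen function has small
transition sums -/
def BE (F : Pre itdE I Ω → ℕ → ℕ → Prop) (i : I) (p : Pre itdE I Ω) (N : ℕ) : Prop :=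
  Tot F p ∧
      (∀ q ∈ PP itdE I Ω, q.LE p → ∀ m n n', F q m n → F q m n' → n = n') ∧
      (∀ q ∈ PP itdE I Ω, q.LE p → ∀ M, ∃ q' ∈ PP itdE I Ω, q'.LE q ∧ ∃ n ≥ M, F q' n 1) ∧
      (∀ q ∈ PP itdE I Ω, q.LE p → ∀ M, ∃ q' ∈ PP itdE I Ω, q'.LE q ∧ ∃ n ≥ M, ∃ b, b ≠ 1 ∧ F q' n b) ∧
      ∀ q ∈ PP itdE I Ω, q.LE p → ∀ u v, N ≤ u → u ≤ v → ∀ x c : ℕ → ℕ, (∀ n ≤ v, F q n (x n)) →
        (∀ n < v, (i, n, c n) ∈ q.c) →
        |∑ n ∈ Finset.Ico u v, eps c n * sgn (c n) * eta x n| ≤ 1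

theorem BE.mono {F : Pre itdE I Ω → ℕ → ℕ → Prop} {i : I} {p p' : Pre itdE I Ω} {N N' : ℕ}
    (h : BE F i p N) (hp : p'.LE p) (hN : N ≤ N') : BE F i p' N' := by
  obtain ⟨h1, h2, h3, h4, h5⟩ := h
  refine ⟨fun q hq hqp => h1 q hq (hqp.trans hp), fun q hq hqp => h2 q hq (hqp.trans hp),
    fun q hq hqp => h3 q hq (hqp.trans hp), fun q hq hqp => h4 q hq (hqp.trans hp),
    fun q hq hqp u v hu => h5 q hq (hqp.trans hp) u v (hN.trans hu)⟩

theorem exists_tot {F : Pre itdE I Ω → ℕ → ℕ → Prop} (hF : Mono F) {p : Pre itdE I Ω} (hT : Tot F p)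
    (n : ℕ) : ∀ q ∈ PP itdE I Ω, q.LE p → ∃ q' ∈ PP itdE I Ω, q'.LE q ∧
      ∃ x : ℕ → ℕ, ∀ m ≤ n, F q' m (x m) := by
  induction n with
  | zero =>
    intro q hq hqp
    obtain ⟨q', hq', hq'q, b, hb⟩ := hT q hq hqp 0
    refine ⟨q', hq', hq'q, fun _ => b, fun m hm => ?_⟩
    rw [Nat.le_zero.1 hm]
    exact hb
  | succ n ih =>
    intro q hq hqp
    obtain ⟨q1, hq1, hq1q, x, hx⟩ := ih q hq hqp
    obtain ⟨q', hq', hq'q, b, hb⟩ := hT q1 hq1 (hq1q.trans hqp) (n + 1)
    refine ⟨q', hq', hq'q.trans hq1q, fun m => if m = n + 1 then b else x m, fun m hm => ?_⟩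
    by_cases h : m = n + 1
    · simp only [h, if_true]
      exact hb
    · simp only [if_neg h]
      exact hF q1 hq1 q' hq' hq'q m _ (hx m (by omega))

theorem BE.exists_trs {F : Pre itdE I Ω → ℕ → ℕ → Prop} (hF : Mono F) {i : I} {p : Pre itdE I Ω} {N : ℕ}
    (h : BE F i p N) (n0 C : ℕ) : ∀ q ∈ PP itdE I Ω, q.LE p → ∃ q' ∈ PP itdE I Ω, q'.LE q ∧
      ∃ v0 ≥ n0, ∃ x : ℕ → ℕ, (∀ m ≤ v0, F q' m (x m)) ∧ C ≤ (trs x n0 v0).card := by
  obtain ⟨h1, h2, h3, h4, -⟩ := h
  induction C with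
  | zero =>
    intro q hq hqp
    obtain ⟨q', hq', hq'q, x, hx⟩ := exists_tot hF h1 n0 q hq hqp
    exact ⟨q', hq', hq'q, n0, le_rfl, x, hx, Nat.zero_le _⟩
  | succ C ih =>
    intro q hq hqp
    obtain ⟨q1, hq1, hq1q, v0, hv0, x, hx, hC⟩ := ih q hq hqp
    have hq1p := hq1q.trans hqp
    -- a later value of the other kind
    obtain ⟨q2, hq2, hq21, n, hn, b, hb, hFb⟩ : ∃ q2 ∈ PP itdE I Ω, q2.LE q1 ∧ ∃ n ≥ v0 + 1, ∃ b,
        ¬ (x v0 = 1 ↔ b = 1) ∧ F q2 n b := by
      by_cases hx1 : x v0 = 1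
      · obtain ⟨q2, hq2, hq21, n, hn, b, hb, hFb⟩ := h4 q1 hq1 hq1p (v0 + 1)
        exact ⟨q2, hq2, hq21, n, hn, b, fun h => hb (h.1 hx1), hFb⟩
      · obtain ⟨q2, hq2, hq21, n, hn, hFb⟩ := h3 q1 hq1 hq1p (v0 + 1)
        exact ⟨q2, hq2, hq21, n, hn, 1, fun h => hx1 (h.2 rfl), hFb⟩
    obtain ⟨q3, hq3, hq32, x', hx'⟩ := exists_tot hF h1 n q2 hq2 (hq21.trans hq1p)
    have hq31 := hq32.trans hq21
    have hq3p := hq31.trans hq1p
    have heq : ∀ m ≤ v0, x' m = x m := fun m hm =>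
      h2 q3 hq3 hq3p m _ _ (hx' m (by omega)) (hF q1 hq1 q3 hq3 hq31 m _ (hx m hm))
    have heqn : x' n = b := h2 q3 hq3 hq3p n _ _ (hx' n le_rfl) (hF q2 hq2 q3 hq3 hq32 n _ hFb)
    obtain ⟨m, hm1, hm2, hm3⟩ := exists_trans (x := x') (u := v0) (v := n) (by omega)
      (by rw [heq v0 le_rfl, heqn]; exact hb)
    refine ⟨q3, hq3, hq31.trans hq1q, n, by omega, x', hx', ?_⟩
    have hsub : insert m (trs x n0 v0) ⊆ trs x' n0 n := by
      intro a ha
      rcases Finset.mem_insert.1 ha with ha | ha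
      · rw [ha, mem_trs]
        exact ⟨by omega, hm2, hm3⟩
      · rw [mem_trs] at ha ⊢
        refine ⟨ha.1, by omega, ?_⟩
        have : eta x' a = eta x a := by
          unfold eta
          rw [heq a (by omega), heq (a + 1) (by omega)]
        rw [this]
        exact ha.2.2
    have hnot : m ∉ trs x n0 v0 := by
      rw [mem_trs]
      omega
    have := Finset.card_le_card hsub
    rw [Finset.card_insert_of_notMem hnot] at this
    omega

/-- For at most `ℵ₁` indices `i` the subseries of the series coded by the `i`-th Cohen function along the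
infinite coinfinite set named by `F` can be forced to converge. -/
theorem badE_small (hΩ : #Ω ≤ ℵ₁) {F : Pre itdE I Ω → ℕ → ℕ → Prop} (hF : Mono F) :
    #{i : I | ∃ p ∈ PP itdE I Ω, ∃ N, Tot F p ∧
      (∀ q ∈ PP itdE I Ω, q.LE p → ∀ m n n', F q m n → F q m n' → n = n') ∧
      (∀ q ∈ PP itdE I Ω, q.LE p → ∀ M, ∃ q' ∈ PP itdE I Ω, q'.LE q ∧ ∃ n ≥ M, F q' n 1) ∧
      (∀ q ∈ PP itdE I Ω, q.LE p → ∀ M, ∃ q' ∈ PP itdE I Ω, q'.LE q ∧ ∃ n ≥ M, ∃ b, b ≠ 1 ∧ F q' n b) ∧
      ∀ q ∈ PP itdE I Ω, q.LE p → ∀ u v, N ≤ u → u ≤ v → ∀ x c : ℕ → ℕ, (∀ n ≤ v, F q n (x n)) →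
        (∀ n < v, (i, n, c n) ∈ q.c) →
        |∑ n ∈ Finset.Ico u v, eps c n * sgn (c n) * eta x n| ≤ 1} ≤ ℵ₁ := by
  change #{i : I | ∃ p ∈ PP itdE I Ω, ∃ N, BE F i p N} ≤ ℵ₁
  by_contra hcard
  obtain ⟨Bd, hBd⟩ : ∃ Bd : Set I, Bd = {i : I | ∃ p ∈ PP itdE I Ω, ∃ N, BE F i p N} := ⟨_, rfl⟩
  rw [← hBd] at hcard
  have hch : ∀ i ∈ Bd, ∃ P : Pre itdE I Ω, ∃ st : List ℕ, P ∈ PP itdE I Ω ∧
      (∀ n a, (i, n, a) ∈ P.c ↔ n < st.length ∧ a = st.getD n 0) ∧ BE F i P st.length := by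
    intro i hi
    rw [hBd] at hi
    obtain ⟨p, hp, N, hN⟩ := hi
    obtain ⟨q, hq, hqp, -, τ, hτ, hτ'⟩ := exists_cohen hp i N
    exact ⟨q, τ, hq, hτ', hN.mono hqp hτ⟩
  haveI : Nonempty (Pre itdE I Ω) := by
    have hne : Bd.Nonempty := by
      rw [Set.nonempty_iff_ne_empty]
      intro h
      apply hcard
      rw [h]
      simp
    obtain ⟨i0, hi0⟩ := hne
    obtain ⟨P, -⟩ := hch i0 hi0
    exact ⟨P⟩
  choose! P st hP hst hbad using hch
  obtain ⟨τ0, -, hcop⟩ := exists_copies hΩ hcard P hP st hst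
  obtain ⟨J, hJ⟩ : ∃ J, J = ((Finset.range τ0.length).filter (fun m => 2 ≤ τ0.getD m 0)).card := ⟨_, rfl⟩
  obtain ⟨w, hw⟩ : ∃ w : ℕ → Finset ℕ → List ℕ, w = fun k t =>
    (List.range k).map (fun j => if j ∈ t then 1 else 0) := ⟨_, rfl⟩
  have hwlen : ∀ k t, (w k t).length = k := by
    intro k t
    rw [hw]
    simp
  have hwget : ∀ k t j, j < k → (w k t).getD j 0 = if j ∈ t then 1 else 0 := by
    intro k t j hj
    rw [List.getD_eq_getElem _ _ (by rw [hwlen]; exact hj)]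
    simp [hw]
  obtain ⟨ι, hι, q, hq, hcopy⟩ := hcop (fun k => (Finset.range k).powerset) (fun _ => trivial) w
    ((1 / 2) ^ (J + 3)) (by positivity)
  -- first application
  obtain ⟨k0, -, q1, hq1, hq1q, B1, hB1, hB1c, hB1t⟩ := hcopy q hq (Pre.LE.refl q) 0
  obtain ⟨t0, ht0, ht0B⟩ : ∃ t ∈ (Finset.range k0).powerset, t ∉ B1 := by
    by_contra hcon
    push Not at hcon
    have h1 : (Finset.range k0).powerset ⊆ B1 := hcon
    have h2 : (((Finset.range k0).powerset).card : ℝ) ≤ B1.card := by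
      exact_mod_cast Finset.card_le_card h1
    have h3 : (0 : ℝ) < ((Finset.range k0).powerset).card := by
      rw [Finset.card_powerset]
      positivity
    have h4 : ((1 : ℝ) / 2) ^ (J + 3) < 1 := pow_lt_one₀ (by norm_num) (by norm_num) (by omega)
    nlinarith
  have hq1P := (hB1t t0 ht0 ht0B).1
  have hbad0 := (hbad _ (hι k0 t0).1).mono hq1P le_rfl
  -- decide many transitions
  obtain ⟨q2, hq2, hq21, v0, hv0, x, hx, hCx⟩ := hbad0.exists_trs hF τ0.length (J + 2) q1 hq1 (Pre.LE.refl q1)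
  obtain ⟨v, hv, hCv⟩ := exists_trs_eq hCx
  -- second application
  obtain ⟨k, hk, q3, hq3, hq32, B, hB, hBc, hBt⟩ := hcopy q2 hq2 (hq21.trans hq1q) v0
  obtain ⟨t, ht, htB, htx⟩ := good_bits x (k := k) (by omega) hCv B hBc
  obtain ⟨hq3P, hq3c⟩ := hBt t ht htB
  have hbadt := hbad _ (hι k t).1
  have hstt := (hι k t).2
  have hlen : (st (ι k t)).length = τ0.length := by rw [hstt]
  have hvlen : τ0.length ≤ v := by
    by_contra hcon
    have : trs x τ0.length v = ∅ := by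
      ext n
      rw [mem_trs]
      simp only [Finset.notMem_empty, iff_false]
      omega
    rw [this, Finset.card_empty] at hCv
    omega
  obtain ⟨c, hc⟩ : ∃ c : ℕ → ℕ, c = fun n => (τ0 ++ w k t).getD n 0 := ⟨_, rfl⟩
  have hc1 : ∀ n < τ0.length, c n = τ0.getD n 0 := by
    intro n hn
    rw [hc]
    exact List.getD_append _ _ _ _ hn
  have hc2 : ∀ j < k, c (τ0.length + j) = if j ∈ t then 1 else 0 := by
    intro j hj
    rw [hc]
    simp only
    rw [List.getD_append_right _ _ _ _ (by omega), Nat.add_sub_cancel_left, hwget k t j hj]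
  have hlast := hbadt.2.2.2.2 q3 hq3 hq3P τ0.length v (by omega) hvlen x c
    (fun n hn => hF q2 hq2 q3 hq3 hq32 n _ (hx n (by omega))) (fun n hn => ?_)
  · refine absurd hlast (not_le.2 (sum_good hCv (fun n hn1 hn2 => ?_) (fun n hn1 hn2 => ?_)))
    · rw [hJ]
      unfold flg
      congr 1
      ext m
      rw [Finset.mem_filter, Finset.mem_filter, Finset.mem_range, Finset.mem_range]
      constructor
      · rintro ⟨h1, h2⟩
        by_cases h3 : m < τ0.length
        · exact ⟨h3, by rw [← hc1 m h3]; exact h2⟩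
        · exfalso
          have h4 := hc2 (m - τ0.length) (by omega)
          rw [Nat.add_sub_cancel' (by omega)] at h4
          rw [h4] at h2
          split_ifs at h2 <;> omega
      · rintro ⟨h1, h2⟩
        exact ⟨by omega, by rw [hc1 m h1]; exact h2⟩
    · have h4 := hc2 (n - τ0.length) (by omega)
      rw [Nat.add_sub_cancel' (by omega)] at h4
      refine ⟨?_, fun h5 => ?_⟩
      · rw [h4]
        split_ifs <;> simp
      · rw [← htx n hn1 hn2 h5, h4]
        split_ifs with h6 <;> simp [h6]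
  · by_cases h3 : n < τ0.length
    · rw [hc1 n h3]
      apply hq3P.c
      rw [hst _ (hι k t).1, hstt]
      exact ⟨h3, rfl⟩
    · have h4 := hc2 (n - τ0.length) (by omega)
      have h5 := hq3c (n - τ0.length) (by rw [hwlen]; omega)
      rw [Nat.add_sub_cancel' (by omega)] at h4 h5
      rw [hwget k t _ (by omega)] at h5
      rw [h4]
      exact h5

end

end Pool.Agent.SSM
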