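import Mathlib

/-!
# Finite support iterations of slalom type forcings over many Cohen functions, seen from Lean types

A condition consists of a finite partial function on `I × ℕ` (Cohen part) and, for finitely many `β`, of a
stem (a list of letters) and a promise (a name for a function from positions to finite sets). Names are
functions on the space of points, a point being a family of Cohen functions together with a sequence of
sequences of letters.
-/

namespace Pool.Agent.SSM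

open Set

/-- the first `n` letters of the sequence `g` -/
def ini (g : ℕ → ℕ) (n : ℕ) : List ℕ := (List.range n).map g

/-- The data of a slalom type forcing: `Adm σ a u` says that the letter `a` may be appended to the stem
`σ` if the promise at the position `pos σ a` is `u`; `Leg m l u` says that `u` is a legal value of a
promise of index `m` at the position `l`. -/
structure Itd where
  Adm : List ℕ → ℕ → Finset ℕ → Prop
  pos : List ℕ → ℕ → ℕ
  Leg : ℕ → ℕ → Finset ℕ → Prop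
  nb : ℕ → ℕ → ℕ
  cb : ℕ → ℕ → ℕ
  Tok : ℕ → Prop
  anti : ∀ {σ a u u'}, Adm σ a u → u' ⊆ u → Adm σ a u'
  leg_empty : ∀ m l, Leg m l ∅
  leg_sub : ∀ {m l u u'}, Leg m l u → u' ⊆ u → Leg m l u'
  leg_mono : ∀ {m m' l u}, m ≤ m' → Leg m l u → Leg m' l u
  leg_union : ∀ {m m' l u u'}, Leg m l u → Leg m' l u' → Leg (m + m') l (u ∪ u')
  leg_card : ∀ {m l u}, Leg m l u → u.card ≤ cb m l
  ext : ∀ σ m, ∃ l, ∀ u, Leg m l u → ∃ a, pos σ a = l ∧ Adm σ a u
  heavy : ∀ (κ m l : ℕ) {τ : Type} (T : Finset τ) (v : τ → Finset ℕ), Tok T.card →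
    (∀ t ∈ T, Leg m l (v t)) → ∃ H, Leg (m + 1 + κ) l H ∧ ∀ σ a u, pos σ a = l →
      (∀ x ∈ H, x < nb l a → x ∈ u) → Adm σ a u →
      ∃ B ⊆ T, B.card * 2 ^ (σ.length + κ) ≤ T.card ∧ ∀ t ∈ T, t ∉ B → Adm σ a (v t)

/-- points -/
abbrev Pnt (I Ω : Type) := (I → ℕ → ℕ) × (Ω → ℕ → ℕ)

/-- names for promises -/
abbrev Pro (I Ω : Type) := Pnt I Ω → ℕ → Finset ℕ

/-- conditions, whose promises are arbitrary functions on points -/
@[ext] structure Pre (A : Itd) (I Ω : Type) where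
  c : Finset (I × ℕ × ℕ)
  s : Finset Ω
  σ : Ω → List ℕ
  φ : Ω → Pro I Ω
  fn : ∀ i n a b, (i, n, a) ∈ c → (i, n, b) ∈ c → a = b
  out : ∀ β, β ∉ s → σ β = [] ∧ ∀ z l, φ β z l = ∅
  leg : ∀ β n, n < (σ β).length → A.Adm ((σ β).take n) ((σ β).getD n 0) ∅

section
variable {A : Itd} {I Ω : Type}

/-- the point satisfies the Cohen part -/
def Pre.satC (p : Pre A I Ω) (z : Pnt I Ω) : Prop := ∀ i n a, (i, n, a) ∈ p.c → z.1 i n = a

/-- the point satisfies the condition at the coordinate `γ` -/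
def Pre.satAt (p : Pre A I Ω) (γ : Ω) (z : Pnt I Ω) : Prop :=
  ini (z.2 γ) (p.σ γ).length = p.σ γ ∧ ∀ n, (p.σ γ).length ≤ n →
    A.Adm (ini (z.2 γ) n) (z.2 γ n) (p.φ γ z (A.pos (ini (z.2 γ) n) (z.2 γ n)))

/-- the point satisfies the condition -/
def Pre.sat (p : Pre A I Ω) (z : Pnt I Ω) : Prop := p.satC z ∧ ∀ γ, p.satAt γ z

variable [LinearOrder Ω]

/-- the point satisfies the condition below `β` -/
def Pre.satB (p : Pre A I Ω) (β : Ω) (z : Pnt I Ω) : Prop := p.satC z ∧ ∀ γ < β, p.satAt γ z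

/-- `q` is stronger than `p` -/
structure Pre.LE (q p : Pre A I Ω) : Prop where
  c : p.c ⊆ q.c
  s : p.s ⊆ q.s
  σ : ∀ β, p.σ β <+: q.σ β
  φ : ∀ β z l, p.φ β z l ⊆ q.φ β z l
  new : ∀ β z, q.satB β z → ∀ n, (p.σ β).length ≤ n → n < (q.σ β).length →
    A.Adm ((q.σ β).take n) ((q.σ β).getD n 0)
      (p.φ β z (A.pos ((q.σ β).take n) ((q.σ β).getD n 0)))

/-- the name depends only on the point below `β` -/
def Dep (φ : Pro I Ω) (β : Ω) : Prop :=
  ∀ z z' : Pnt I Ω, z.1 = z'.1 → (∀ γ < β, z.2 γ = z'.2 γ) → φ z = φ z'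

variable [WellFoundedLT Ω]

variable (A I) in
/-- the names of promises at the coordinate `β` -/
noncomputable def Nm (β : Ω) : Set (Pro I Ω) :=
  (wellFounded_lt (α := Ω)).fix (C := fun _ => Set (Pro I Ω)) (fun β ih =>
    {φ | Dep φ β ∧ (∃ m, ∀ z l, A.Leg m l (φ z l)) ∧
      ∀ l (p : Pre A I Ω), (∀ γ ∈ p.s, ∃ h : γ < β, p.φ γ ∈ ih γ h) →
        ∃ q : Pre A I Ω, q.LE p ∧ (∀ γ ∈ q.s, ∃ h : γ < β, q.φ γ ∈ ih γ h) ∧
          ∀ z z', q.satB β z → q.satB β z' → φ z l = φ z' l}) β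

/-- the condition only has coordinates below `β` -/
def Pre.Low (β : Ω) (p : Pre A I Ω) : Prop := ∀ γ ∈ p.s, γ < β

variable (A I Ω) in
/-- the conditions -/
def PP : Set (Pre A I Ω) := {p | ∀ γ ∈ p.s, p.φ γ ∈ Nm A I γ}

theorem mem_Nm {β : Ω} {φ : Pro I Ω} : φ ∈ Nm A I β ↔ Dep φ β ∧ (∃ m, ∀ z l, A.Leg m l (φ z l)) ∧
    ∀ l, ∀ p ∈ PP A I Ω, p.Low β → ∃ q ∈ PP A I Ω, q.Low β ∧ q.LE p ∧
      ∀ z z', q.satB β z → q.satB β z' → φ z l = φ z' l := by
  unfold Nm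
  rw [WellFounded.fix_eq]
  simp only [mem_setOf_eq]
  refine and_congr_right fun _ => and_congr_right fun _ => forall_congr' fun l => ?_
  constructor
  · intro h p hp hl
    obtain ⟨q, h1, h2, h3⟩ := h p (fun γ hγ => ⟨hl γ hγ, hp γ hγ⟩)
    exact ⟨q, fun γ hγ => (h2 γ hγ).2, fun γ hγ => (h2 γ hγ).1, h1, h3⟩
  · intro h p hp
    obtain ⟨q, h1, h2, h3, h4⟩ := h p (fun γ hγ => (hp γ hγ).2) (fun γ hγ => (hp γ hγ).1)
    exact ⟨q, h3, fun γ hγ => ⟨h2 γ hγ, h1 γ hγ⟩, h4⟩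

end

end Pool.Agent.SSM
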