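import Pool.Agent.SSM.Sep
import Pool.Agent.SSM.Dsys

/-!
# Compatibility and the countable chain condition
-/

namespace Pool.Agent.SSM

open Set

section
variable {A : Itd} {I Ω : Type} [LinearOrder Ω] [WellFoundedLT Ω]

/-- conditions with compatible Cohen parts and the same stems on the common support are compatible -/
theorem exists_union {p q : Pre A I Ω} (hp : p ∈ PP A I Ω) (hq : q ∈ PP A I Ω)
    (hc : ∀ i n a b, (i, n, a) ∈ p.c → (i, n, b) ∈ q.c → a = b)
    (hs : ∀ β ∈ p.s, β ∈ q.s → p.σ β = q.σ β) :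
    ∃ r ∈ PP A I Ω, r.LE p ∧ r.LE q ∧ (∀ x, x ∈ r.c ↔ x ∈ p.c ∨ x ∈ q.c) ∧
      (∀ x, x ∈ r.s ↔ x ∈ p.s ∨ x ∈ q.s) ∧ (∀ β ∈ p.s, r.σ β = p.σ β) ∧ (∀ β ∈ q.s, r.σ β = q.σ β) ∧
      ∀ β z l, r.φ β z l = p.φ β z l ∪ q.φ β z l := by
  classical
  let r : Pre A I Ω :=
    { c := p.c ∪ q.c
      s := p.s ∪ q.s
      σ := fun β => if β ∈ p.s then p.σ β else q.σ β
      φ := fun β z l => p.φ β z l ∪ q.φ β z l
      fn := by
        intro i n a b ha hb
        rw [Finset.mem_union] at ha hb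
        rcases ha with ha | ha <;> rcases hb with hb | hb
        · exact p.fn i n a b ha hb
        · exact hc i n a b ha hb
        · exact (hc i n b a hb ha).symm
        · exact q.fn i n a b ha hb
      out := by
        intro β hβ
        rw [Finset.mem_union, not_or] at hβ
        refine ⟨?_, fun z l => ?_⟩
        · rw [if_neg hβ.1]
          exact (q.out β hβ.2).1
        · rw [(p.out β hβ.1).2, (q.out β hβ.2).2, Finset.union_empty]
      leg := by
        intro β n hn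
        by_cases h : β ∈ p.s
        · rw [if_pos h] at hn ⊢
          exact p.leg β n hn
        · rw [if_neg h] at hn ⊢
          exact q.leg β n hn }
  have h1 : ∀ β ∈ p.s, r.σ β = p.σ β := fun β h => if_pos h
  have h2 : ∀ β, β ∉ p.s → r.σ β = q.σ β := fun β h => if_neg h
  have h3 : ∀ β ∈ q.s, r.σ β = q.σ β := by
    intro β hβ
    by_cases h : β ∈ p.s
    · rw [h1 β h]
      exact hs β h hβ
    · exact h2 β h
  have hφ : ∀ β z l, r.φ β z l = p.φ β z l ∪ q.φ β z l := fun _ _ _ => rfl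
  refine ⟨r, ?_, ?_, ?_, fun x => Finset.mem_union, fun x => Finset.mem_union, h1, h3, hφ⟩
  · intro γ _
    exact Nm_union (PP.name hp γ) (PP.name hq γ)
  · refine ⟨Finset.subset_union_left, Finset.subset_union_left, fun β => ?_, fun β z l => ?_, ?_⟩
    · by_cases h : β ∈ p.s
      · rw [h1 β h]
      · rw [(p.out β h).1]
        exact List.nil_prefix
    · rw [hφ]
      exact Finset.subset_union_left
    · intro β z _ n hn hn'
      by_cases h : β ∈ p.s
      · rw [h1 β h] at hn'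
        omega
      · rw [(p.out β h).2]
        exact r.leg β n hn'
  · refine ⟨Finset.subset_union_right, Finset.subset_union_right, fun β => ?_, fun β z l => ?_, ?_⟩
    · by_cases h : β ∈ q.s
      · rw [h3 β h]
      · rw [(q.out β h).1]
        exact List.nil_prefix
    · rw [hφ]
      exact Finset.subset_union_right
    · intro β z _ n hn hn'
      by_cases h : β ∈ q.s
      · rw [h3 β h] at hn'
        omega
      · rw [(q.out β h).2]
        exact r.leg β n hn'

/-- antichains are countable -/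
theorem ccc {S : Set (Pre A I Ω)} (hS : S ⊆ PP A I Ω)
    (h : ∀ p ∈ S, ∀ q ∈ S, p ≠ q → ¬ ∃ r ∈ PP A I Ω, r.LE p ∧ r.LE q) : S.Countable := by
  classical
  by_contra hcon
  obtain ⟨S', hS', hunc, R, hR⟩ := exists_dsys (α := Ω ⊕ I) hcon (fun p : Pre A I Ω =>
    p.s.image Sum.inl ∪ p.c.image (fun t => Sum.inr t.1))
  let f : Pre A I Ω → (R → List ℕ × Finset (ℕ × ℕ)) := fun p x =>
    Sum.elim (fun β => (p.σ β, ∅))
      (fun i => ([], (p.c.filter (fun t => t.1 = i)).image (fun t => t.2))) x.1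
  have hinj : ¬ InjOn f S' := fun hi =>
    hunc (countable_of_injective_of_countable_image hi (to_countable _))
  rw [InjOn] at hinj
  push Not at hinj
  obtain ⟨p, hp, q, hq, hf, hpq⟩ := hinj
  have hroot := hR p hp q hq hpq
  apply h p (hS' hp) q (hS' hq) hpq
  obtain ⟨r, hr, h1, h2, -⟩ := exists_union (hS (hS' hp)) (hS (hS' hq)) (p := p) (q := q)
    (by
      intro i n a b ha hb
      have hi : (Sum.inr i : Ω ⊕ I) ∈ R := by
        rw [← hroot, Finset.mem_inter]
        exact ⟨Finset.mem_union_right _ (Finset.mem_image.2 ⟨_, ha, rfl⟩),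
          Finset.mem_union_right _ (Finset.mem_image.2 ⟨_, hb, rfl⟩)⟩
      have h3 := congrFun hf ⟨Sum.inr i, hi⟩
      have h4 : (p.c.filter (fun t => t.1 = i)).image (fun t => t.2) =
          (q.c.filter (fun t => t.1 = i)).image (fun t => t.2) := congrArg Prod.snd h3
      have h5 : (n, a) ∈ (p.c.filter (fun t => t.1 = i)).image (fun t => t.2) :=
        Finset.mem_image.2 ⟨(i, n, a), Finset.mem_filter.2 ⟨ha, rfl⟩, rfl⟩
      rw [h4, Finset.mem_image] at h5
      obtain ⟨⟨j, m, c⟩, h6, h7⟩ := h5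
      rw [Finset.mem_filter] at h6
      obtain ⟨h8, h9⟩ := h6
      simp only at h7 h9
      rw [h9, h7] at h8
      exact q.fn i n a b h8 hb)
    (by
      intro β hβ hβ'
      have hi : (Sum.inl β : Ω ⊕ I) ∈ R := by
        rw [← hroot, Finset.mem_inter]
        exact ⟨Finset.mem_union_left _ (Finset.mem_image.2 ⟨_, hβ, rfl⟩),
          Finset.mem_union_left _ (Finset.mem_image.2 ⟨_, hβ', rfl⟩)⟩
      have h3 := congrFun hf ⟨Sum.inl β, hi⟩
      exact congrArg Prod.fst h3)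
  exact ⟨r, hr, h1, h2⟩

/-- every dense set of conditions contains a countable maximal antichain -/
theorem exists_antichain {W D : Set (Pre A I Ω)} (hW : W ⊆ PP A I Ω) (hDW : D ⊆ W)
    (hres : ∀ p ∈ W, ∀ q ∈ W, ∀ r ∈ PP A I Ω, r.LE p → r.LE q → ∃ r' ∈ W, r'.LE p ∧ r'.LE q)
    (hD : ∀ p ∈ W, ∃ q ∈ D, q.LE p) :
    ∃ E ⊆ D, E.Countable ∧ (∀ p ∈ E, ∀ q ∈ E, p ≠ q → ¬ ∃ r ∈ W, r.LE p ∧ r.LE q) ∧
      ∀ p ∈ W, ∃ q ∈ E, ∃ r ∈ W, r.LE p ∧ r.LE q := by
  obtain ⟨E, hE⟩ := zorn_subset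
    {E : Set (Pre A I Ω) | E ⊆ D ∧ ∀ p ∈ E, ∀ q ∈ E, p ≠ q → ¬ ∃ r ∈ W, r.LE p ∧ r.LE q} (by
      intro c hc hchain
      refine ⟨⋃₀ c, ⟨sUnion_subset fun s hs => (hc hs).1, ?_⟩, fun s hs => subset_sUnion_of_mem hs⟩
      rintro p ⟨s, hs, hp⟩ q ⟨t, ht, hq⟩ hne
      rcases hchain.total hs ht with hst | hst
      · exact (hc ht).2 p (hst hp) q hq hne
      · exact (hc hs).2 p hp q (hst hq) hne)
  obtain ⟨hED, hEa⟩ := hE.prop
  refine ⟨E, hED, ?_, hEa, ?_⟩
  · refine ccc (hED.trans (hDW.trans hW)) ?_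
    rintro p hp q hq hne ⟨r, hr, h1, h2⟩
    exact hEa p hp q hq hne (hres p (hDW (hED hp)) q (hDW (hED hq)) r hr h1 h2)
  · intro p hp
    obtain ⟨q, hq, hqp⟩ := hD p hp
    by_contra hcon
    push Not at hcon
    have hqE : q ∉ E := fun h => hcon q h q (hDW hq) hqp (Pre.LE.refl q)
    have hins : insert q E ∈
        {E : Set (Pre A I Ω) | E ⊆ D ∧ ∀ p ∈ E, ∀ q ∈ E, p ≠ q → ¬ ∃ r ∈ W, r.LE p ∧ r.LE q} := by
      refine ⟨insert_subset hq hED, ?_⟩
      rintro a ha b hb hne ⟨r, hr, h1, h2⟩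
      rcases ha with rfl | ha <;> rcases hb with rfl | hb
      · exact hne rfl
      · exact hcon b hb r hr (h1.trans hqp) h2
      · exact hcon a ha r hr (h2.trans hqp) h1
      · exact hEa a ha b hb hne ⟨r, hr, h1, h2⟩
    exact hqE (hE.le_of_ge hins (subset_insert q E) (mem_insert q E))

end

end Pool.Agent.SSM
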