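import Pool.Agent.SSM.Base

/-!
# The order of conditions
-/

namespace Pool.Agent.SSM

open Set

theorem ini_length (g : ℕ → ℕ) (n : ℕ) : (ini g n).length = n := by
  simp [ini]

theorem ini_take (g : ℕ → ℕ) {m n : ℕ} (h : m ≤ n) : (ini g n).take m = ini g m := by
  unfold ini
  rw [← List.map_take, List.take_range, min_eq_left h]

theorem ini_getD (g : ℕ → ℕ) {m n : ℕ} (h : m < n) : (ini g n).getD m 0 = g m := by
  simp [ini, List.getD_eq_getElem?_getD, h]

theorem ini_succ (g : ℕ → ℕ) (n : ℕ) : ini g (n + 1) = ini g n ++ [g n] := by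
  simp [ini, List.range_succ]

namespace Ordx

/-- the lists of the recursion in `exists_seq` -/
def LL (σ : List ℕ) (f : List ℕ → ℕ) : ℕ → List ℕ
  | 0 => []
  | n + 1 => LL σ f n ++ [if n < σ.length then σ.getD n 0 else f (LL σ f n)]

theorem take_of_prefix' {l l' : List ℕ} (h : l <+: l') : l'.take l.length = l := by
  obtain ⟨t, rfl⟩ := h
  simp

theorem take_take_of_prefix' {l l' : List ℕ} (h : l <+: l') {n : ℕ} (hn : n ≤ l.length) :
    l'.take n = l.take n := by
  obtain ⟨t, rfl⟩ := h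
  rw [List.take_append_of_le_length hn]

theorem getD_of_prefix' {l l' : List ℕ} (h : l <+: l') {n : ℕ} (hn : n < l.length) :
    l'.getD n 0 = l.getD n 0 := by
  obtain ⟨t, rfl⟩ := h
  rw [List.getD_eq_getElem?_getD, List.getD_eq_getElem?_getD, List.getElem?_append_left hn]

end Ordx

/-- every list is the initial segment of a sequence with prescribed continuation -/
theorem exists_seq (σ : List ℕ) (f : List ℕ → ℕ) :
    ∃ g : ℕ → ℕ, ini g σ.length = σ ∧ ∀ n, σ.length ≤ n → g n = f (ini g n) := by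
  set g : ℕ → ℕ := fun n => if n < σ.length then σ.getD n 0 else f (Ordx.LL σ f n) with hg
  have h1 : ∀ n, ini g n = Ordx.LL σ f n := by
    intro n
    induction n with
    | zero => rfl
    | succ n ih => rw [ini_succ, ih]; rfl
  refine ⟨g, ?_, fun n hn => ?_⟩
  · apply List.ext_getElem
    · rw [ini_length]
    · intro i h2 h3
      have h4 : (ini g σ.length)[i] = g i := by simp [ini]
      rw [h4, hg]
      simp [h3]
  · rw [h1, hg]
    simp [not_lt.2 hn]

section
variable {A : Itd} {I Ω : Type} [LinearOrder Ω]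

theorem Pre.LE.satC {p q : Pre A I Ω} (h : q.LE p) {z : Pnt I Ω} (hz : q.satC z) : p.satC z :=
  fun i n a ha => hz i n a (h.c ha)

/-- points satisfying the stronger condition satisfy the weaker one -/
theorem Pre.LE.satAt {p q : Pre A I Ω} (h : q.LE p) {γ : Ω} {z : Pnt I Ω} (hB : q.satB γ z)
    (hz : q.satAt γ z) : p.satAt γ z := by
  have hlen : (p.σ γ).length ≤ (q.σ γ).length := (h.σ γ).length_le
  refine ⟨?_, fun n hn => ?_⟩
  · have h1 := Ordx.take_of_prefix' (h.σ γ)
    rw [← hz.1, ini_take _ hlen] at h1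
    exact h1
  · rcases lt_or_ge n (q.σ γ).length with hlt | hge
    · have h1 := h.new γ z hB n hn hlt
      have h2 : (q.σ γ).take n = ini (z.2 γ) n := by
        rw [← hz.1, ini_take _ hlt.le]
      have h3 : (q.σ γ).getD n 0 = z.2 γ n := by
        rw [← hz.1, ini_getD _ hlt]
      rw [h2, h3] at h1
      exact h1
    · exact A.anti (hz.2 n hge) (h.φ γ z _)

theorem Pre.LE.satB {p q : Pre A I Ω} (h : q.LE p) {β : Ω} {z : Pnt I Ω} (hz : q.satB β z) :
    p.satB β z :=
  ⟨h.satC hz.1, fun γ hγ => h.satAt ⟨hz.1, fun δ hδ => hz.2 δ (hδ.trans hγ)⟩ (hz.2 γ hγ)⟩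

theorem Pre.LE.sat {p q : Pre A I Ω} (h : q.LE p) {z : Pnt I Ω} (hz : q.sat z) : p.sat z :=
  ⟨h.satC hz.1, fun γ => h.satAt ⟨hz.1, fun δ _ => hz.2 δ⟩ (hz.2 γ)⟩

theorem Pre.LE.refl (p : Pre A I Ω) : p.LE p where
  c := fun _ h => h
  s := fun _ h => h
  σ := fun β => List.prefix_refl _
  φ := fun β z l => fun _ h => h
  new := fun β z _ n h1 h2 => absurd h2 (not_lt.2 h1)

theorem Pre.LE.trans {p q r : Pre A I Ω} (h : r.LE q) (h' : q.LE p) : r.LE p where
  c := fun _ hx => h.c (h'.c hx)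
  s := fun _ hx => h.s (h'.s hx)
  σ := fun β => (h'.σ β).trans (h.σ β)
  φ := fun β z l => fun _ hx => h.φ β z l (h'.φ β z l hx)
  new := by
    intro β z hz n h1 h2
    rcases lt_or_ge n (q.σ β).length with hlt | hge
    · have h3 := h'.new β z (h.satB hz) n h1 hlt
      rw [← Ordx.take_take_of_prefix' (h.σ β) hlt.le, ← Ordx.getD_of_prefix' (h.σ β) hlt] at h3
      exact h3
    · exact A.anti (h.new β z hz n hge h2) (h'.φ β z _)

theorem Pre.LE.antisymm {p q : Pre A I Ω} (h : q.LE p) (h' : p.LE q) : p = q := by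
  refine Pre.ext ?_ ?_ ?_ ?_
  · exact Finset.Subset.antisymm h.c h'.c
  · exact Finset.Subset.antisymm h.s h'.s
  · funext β
    exact (h.σ β).eq_of_length_le (h'.σ β).length_le
  · funext β z l
    exact Finset.Subset.antisymm (h.φ β z l) (h'.φ β z l)

variable [WellFoundedLT Ω]

variable (A I Ω) in
/-- the type of conditions -/
def CT : Type := {p : Pre A I Ω // p ∈ PP A I Ω}

/-- stronger conditions are smaller -/
instance : PartialOrder (CT A I Ω) where
  le q p := q.1.LE p.1
  le_refl p := Pre.LE.refl p.1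
  le_trans _ _ _ h h' := Pre.LE.trans h h'
  le_antisymm _ _ h h' := Subtype.ext (Pre.LE.antisymm h' h)

theorem CT.le_iff {p q : CT A I Ω} : q ≤ p ↔ q.1.LE p.1 := Iff.rfl

end

end Pool.Agent.SSM
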