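import Pool.Agent.Helper79.SscUpper
import Pool.Agent.SSM.Inst
import Pool.Agent.SSM.Ord

/-!
# The set coded by a sequence of letters of the slalom forcing

The letter `a` stands for the pair `(kk a, SS a)`. For a set `S` of at most `hh k` codes we choose two points
of the `k`-th block at which all rounded initial sums coded by members of `S` agree. The set `Xof g` is the
union of the intervals between these points.
-/

namespace Pool.Agent.SSM

open Set Filter Topology Pool.Agent.Helper79.Ssc Pool.Agent.Helper79.Ssc.Upper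

/-- the width of the slaloms -/
def hh (k : ℕ) : ℕ := k + 1

/-- the bound of the codes -/
def bb (k : ℕ) : ℕ := bnd hh k

theorem hh_large (n : ℕ) : ∃ K, ∀ k ≥ K, n ≤ hh k := ⟨n, fun k hk => le_trans hk (Nat.le_succ k)⟩

/-- the forcing for `ss_c` -/
abbrev itdU : Itd := itdQ hh bb hh_large

open Classical in
/-- the interval of the `k`-th block given by the set `S` of codes -/
noncomputable def prs (k : ℕ) (S : Finset ℕ) : ℕ × ℕ :=
  (J hh k + (exists_pair hh k (if S.card ≤ hh k then S else ∅) (by split_ifs with h; exact h; simp)).choose,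
    J hh k + (exists_pair hh k (if S.card ≤ hh k then S else ∅)
      (by split_ifs with h; exact h; simp)).choose_spec.choose)

theorem prs_lt (k : ℕ) (S : Finset ℕ) :
    J hh k ≤ (prs k S).1 ∧ (prs k S).1 < (prs k S).2 ∧ (prs k S).2 < J hh (k + 1) := by
  classical
  have hc : (if S.card ≤ hh k then S else ∅).card ≤ hh k := by
    split_ifs with h
    · exact h
    · simp
  have h1 := (exists_pair hh k (if S.card ≤ hh k then S else ∅) hc).choose_spec.choose_spec.1
  have h2 := (exists_pair hh k (if S.card ≤ hh k then S else ∅) hc).choose_spec.choose.2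
  rw [Fin.lt_def] at h1
  refine ⟨Nat.le_add_right _ _, Nat.add_lt_add_left h1 _, ?_⟩
  rw [J_succ]
  exact Nat.add_lt_add_left h2 _

private theorem prs_eq {k : ℕ} {S : Finset ℕ} (hS : S.card ≤ hh k) :
    ∃ p q : Fin (L hh k), prs k S = (J hh k + p, J hh k + q) ∧
      ∀ f : Fin (L hh k) → Fin (W k), (finFunctionFinEquiv f : ℕ) ∈ S → f p = f q := by
  classical
  have hc : (if S.card ≤ hh k then S else ∅).card ≤ hh k := by
    rw [if_pos hS]
    exact hS
  refine ⟨(exists_pair hh k (if S.card ≤ hh k then S else ∅) hc).choose,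
    (exists_pair hh k (if S.card ≤ hh k then S else ∅) hc).choose_spec.choose, rfl, ?_⟩
  intro f hf
  exact (exists_pair hh k (if S.card ≤ hh k then S else ∅) hc).choose_spec.choose_spec.2 f
    (by rw [if_pos hS]; exact hf)

/-- the code of the rounded initial sums in the `k`-th block -/
noncomputable def cod (s : ℕ → ℚ) (k : ℕ) : ℕ :=
  (finFunctionFinEquiv (fun t : Fin (L hh k) =>
    rnd k (∑ i ∈ Finset.Ico (J hh k) (J hh k + t), (s i : ℝ))) : ℕ)

theorem cod_lt (s : ℕ → ℚ) (k : ℕ) : cod s k < bb k := Fin.is_lt _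

theorem cod_congr {s s' : ℕ → ℚ} {k : ℕ} (h : ∀ i < J hh (k + 1), s i = s' i) : cod s k = cod s' k := by
  have e : (fun t : Fin (L hh k) => rnd k (∑ i ∈ Finset.Ico (J hh k) (J hh k + t), (s i : ℝ))) =
      (fun t : Fin (L hh k) => rnd k (∑ i ∈ Finset.Ico (J hh k) (J hh k + t), (s' i : ℝ))) := by
    funext t
    congr 1
    refine Finset.sum_congr rfl fun i hi => ?_
    rw [Finset.mem_Ico] at hi
    have ht := t.2
    rw [h i (by rw [J_succ]; omega)]
  unfold cod
  rw [e]

/-- the point `i` belongs to the set given by the letters of `τ` -/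
def InX (τ : List ℕ) (i : ℕ) : Prop :=
  ∃ n < τ.length, (prs (kk (τ.getD n 0)) (SS (τ.getD n 0))).1 ≤ i ∧ i < (prs (kk (τ.getD n 0)) (SS (τ.getD n 0))).2

/-- the set given by the sequence `g` of letters -/
def Xof (g : ℕ → ℕ) : Set ℕ := {i | ∃ n, (prs (kk (g n)) (SS (g n))).1 ≤ i ∧ i < (prs (kk (g n)) (SS (g n))).2}

theorem mem_Xof_iff {g : ℕ → ℕ} (hg : StrictMono (fun n => kk (g n))) {i N : ℕ} (h : i < N) :
    i ∈ Xof g ↔ InX (ini g N) i := by
  constructor
  · rintro ⟨n, h1, h2⟩
    have h3 : n ≤ kk (g n) := hg.id_le n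
    have h4 : kk (g n) ≤ J hh (kk (g n)) := (J_strictMono hh).id_le _
    have h5 := (prs_lt (kk (g n)) (SS (g n))).1
    have hn : n < N := by omega
    refine ⟨n, by rw [ini_length]; exact hn, ?_⟩
    rw [ini_getD g hn]
    exact ⟨h1, h2⟩
  · rintro ⟨n, hn, h1⟩
    rw [ini_length] at hn
    rw [ini_getD g hn] at h1
    exact ⟨n, h1⟩

theorem Xof_infinite {g : ℕ → ℕ} (hg : StrictMono (fun n => kk (g n))) : (Xof g).Infinite := by
  rw [Set.infinite_iff_exists_gt]
  intro N
  have h3 : N + 1 ≤ kk (g (N + 1)) := hg.id_le (N + 1)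
  have h4 : kk (g (N + 1)) ≤ J hh (kk (g (N + 1))) := (J_strictMono hh).id_le _
  have h5 := prs_lt (kk (g (N + 1))) (SS (g (N + 1)))
  exact ⟨(prs (kk (g (N + 1))) (SS (g (N + 1)))).1, ⟨N + 1, le_rfl, h5.2.1⟩, by omega⟩

theorem Xof_compl_infinite {g : ℕ → ℕ} (hg : StrictMono (fun n => kk (g n))) : (Xof g)ᶜ.Infinite := by
  rw [Set.infinite_iff_exists_gt]
  intro N
  have h3 : N + 1 ≤ kk (g (N + 1)) := hg.id_le (N + 1)
  have h4 : kk (g (N + 1)) ≤ J hh (kk (g (N + 1))) := (J_strictMono hh).id_le _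
  have h5 := prs_lt (kk (g (N + 1))) (SS (g (N + 1)))
  refine ⟨(prs (kk (g (N + 1))) (SS (g (N + 1)))).2, ?_, by omega⟩
  rintro ⟨m, hm1, hm2⟩
  have h6 := prs_lt (kk (g m)) (SS (g m))
  rcases lt_trichotomy m (N + 1) with h | h | h
  · have h7 : kk (g m) < kk (g (N + 1)) := hg h
    have h8 := (J_strictMono hh).monotone (show kk (g m) + 1 ≤ kk (g (N + 1)) from h7)
    omega
  · subst h
    omega
  · have h7 : kk (g (N + 1)) < kk (g m) := hg h
    have h8 := (J_strictMono hh).monotone (show kk (g (N + 1)) + 1 ≤ kk (g m) from h7)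
    omega

/-- if almost all codes of a convergent series are captured by the letters then the subseries along
`Xof g` converges -/
theorem core_upper {g : ℕ → ℕ} (hg : StrictMono (fun n => kk (g n)))
    (hS : ∀ n, (SS (g n)).card ≤ hh (kk (g n))) {s : ℕ → ℚ} (hs : SeriesConv (fun i => (s i : ℝ)))
    (h : ∀ᶠ n in atTop, cod s (kk (g n)) ∈ SS (g n)) : SubConv (Xof g) s := by
  classical
  obtain ⟨l, hl⟩ := hs
  set A : ℕ → ℝ := fun n => ∑ i ∈ Finset.range n, (s i : ℝ) - l with hA
  have hA0 : Tendsto A atTop (𝓝 0) := by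
    have := hl.sub_const l
    simpa using this
  have hAs : ∀ i, A (i+1) - A i = (s i : ℝ) := by
    intro i; simp only [hA, Finset.sum_range_succ]; ring
  have hIco : ∀ m t, ∑ i ∈ Finset.Ico m (m + t), (s i : ℝ) = A (m + t) - A m := by
    intro m t
    simp only [hA]
    rw [Finset.sum_Ico_eq_sub _ (Nat.le_add_right m t)]
    ring
  -- the set of the block where the letters are
  set T : ℕ → Finset ℕ := fun k => if hk : ∃ n, kk (g n) = k then SS (g hk.choose) else ∅ with hT
  have hTn : ∀ n, T (kk (g n)) = SS (g n) := by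
    intro n
    have hk : ∃ m, kk (g m) = kk (g n) := ⟨n, rfl⟩
    simp only [hT]
    rw [dif_pos hk]
    have : hk.choose = n := hg.injective hk.choose_spec
    rw [this]
  obtain ⟨l', hl'⟩ := conv_aux hh (Set.range fun n => kk (g n)) (fun k => (prs k (T k)).1)
    (fun k => (prs k (T k)).2) (fun k => (prs_lt k (T k)).1) (fun k => (prs_lt k (T k)).2.1)
    (fun k => (prs_lt k (T k)).2.2) (fun i => (s i : ℝ)) A hAs hA0 (by
      have hA1 : ∀ᶠ n in atTop, |A n| ≤ 1 / 2 := by
        have := (tendsto_zero_iff_abs_tendsto_zero _).1 hA0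
        filter_upwards [this.eventually (gt_mem_nhds (show (0:ℝ) < 1 / 2 by norm_num))] with n hn using hn.le
      obtain ⟨N, hN⟩ := eventually_atTop.1 hA1
      obtain ⟨M, hM⟩ := eventually_atTop.1 h
      filter_upwards [eventually_ge_atTop N, eventually_ge_atTop (kk (g M))] with k hkN hkM hks
      obtain ⟨n, rfl⟩ := hks
      have hnM : M ≤ n := hg.le_iff_le.1 hkM
      have hcod := hM n hnM
      simp only
      rw [hTn n]
      obtain ⟨p, q, hpq, hf⟩ := prs_eq (hS n)
      rw [hpq]
      simp only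
      have h1 := hf _ hcod
      rw [hIco, hIco] at h1
      have hJ : kk (g n) ≤ J hh (kk (g n)) := (J_strictMono hh).id_le _
      have b0 := hN (J hh (kk (g n))) (by simp only at hkN; omega)
      have b1 := hN (J hh (kk (g n)) + p) (by simp only at hkN; omega)
      have b2 := hN (J hh (kk (g n)) + q) (by simp only at hkN; omega)
      have c1 : |A (J hh (kk (g n)) + p) - A (J hh (kk (g n)))| ≤ 1 := by
        refine (abs_sub _ _).trans ?_
        linarith
      have c2 : |A (J hh (kk (g n)) + q) - A (J hh (kk (g n)))| ≤ 1 := by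
        refine (abs_sub _ _).trans ?_
        linarith
      have h2 := rnd_close (kk (g n)) c2 c1 h1.symm
      rw [sub_sub_sub_cancel_right] at h2
      exact h2) (Xof g) (by
      intro i
      constructor
      · rintro ⟨n, hn⟩
        exact ⟨kk (g n), ⟨n, rfl⟩, by simpa only [hTn n] using hn⟩
      · rintro ⟨k, ⟨n, rfl⟩, hn⟩
        exact ⟨n, by simpa only [hTn n] using hn⟩)
  have hXinf : (Xof g).Infinite := Xof_infinite hg
  refine ⟨l', ?_⟩
  have hn : Tendsto (Nat.nth (fun i => i ∈ Xof g)) atTop atTop :=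
    (Nat.nth_strictMono (p := fun i => i ∈ Xof g) hXinf).tendsto_atTop
  have h2 := hl'.comp hn
  refine h2.congr (fun n => ?_)
  simp only [Function.comp]
  rw [sum_ind_eq_nth (Xof g) (fun i => (s i : ℝ)), Nat.count_nth_of_infinite (p := fun i => i ∈ Xof g) hXinf]

end Pool.Agent.SSM
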