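import Pool.Agent.SSM.Ne

/-!
# Deciding names, adding promises, extending stems
-/

namespace Pool.Agent.SSM

open Set

section
variable {A : Itd} {I Ω : Type} [LinearOrder Ω] [WellFoundedLT Ω]

/-- a name can be decided at one position without changing the coordinates from `β` on -/
theorem exists_dec {p : Pre A I Ω} (hp : p ∈ PP A I Ω) {β : Ω} {φ : Pro I Ω} (hφ : φ ∈ Nm A I β) (l : ℕ) :
    ∃ q ∈ PP A I Ω, q.LE p ∧ (∀ γ, β ≤ γ → q.σ γ = p.σ γ ∧ q.φ γ = p.φ γ) ∧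
      (∀ δ, β ≤ δ → p.Low δ → q.Low δ) ∧ ∃ u, ∀ z, q.satB β z → φ z l = u := by
  obtain ⟨r, hr, hrl, hrp, hru⟩ := (mem_Nm.1 hφ).2.2 l (res β p) (res_mem hp) (res_low β p)
  obtain ⟨t, ht, htr, htp, -, hts, -, htγ, htres⟩ := exists_am hr hp hrl hrp
  obtain ⟨z0, hz0⟩ := exists_satB ht β
  refine ⟨t, ht, htp, htγ, fun δ hδ hlow γ hγ => ?_, φ z0 l, fun z hz => ?_⟩
  · rcases Finset.mem_union.1 (hts hγ) with h | h
    · exact (hrl γ h).trans_le hδ
    · exact hlow γ h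
  · exact hru z z0 (htr.satB hz) (htr.satB hz0)

/-- finitely many names can be decided at finitely many positions -/
theorem exists_decs {p : Pre A I Ω} (hp : p ∈ PP A I Ω) {β : Ω} {ι : Type} (F : Finset ι) (φ : ι → Pro I Ω)
    (l : ι → ℕ) (hφ : ∀ i ∈ F, φ i ∈ Nm A I β) :
    ∃ q ∈ PP A I Ω, q.LE p ∧ (∀ γ, β ≤ γ → q.σ γ = p.σ γ ∧ q.φ γ = p.φ γ) ∧
      (∀ δ, β ≤ δ → p.Low δ → q.Low δ) ∧ ∀ i ∈ F, ∃ u, ∀ z, q.satB β z → φ i z (l i) = u := by
  classical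
  induction F using Finset.induction_on with
  | empty =>
    exact ⟨p, hp, Pre.LE.refl p, fun _ _ => ⟨rfl, rfl⟩, fun _ _ h => h, fun i hi => by simp at hi⟩
  | insert a F ha ih =>
    obtain ⟨q, hq, hqp, hqγ, hqδ, hqu⟩ := ih fun i hi => hφ i (Finset.mem_insert_of_mem hi)
    obtain ⟨r, hr, hrq, hrγ, hrδ, u, hu⟩ := exists_dec hq (hφ a (Finset.mem_insert_self a F)) (l a)
    refine ⟨r, hr, hrq.trans hqp, fun γ hγ => ⟨(hrγ γ hγ).1.trans (hqγ γ hγ).1,
      (hrγ γ hγ).2.trans (hqγ γ hγ).2⟩, fun δ hδ h => hrδ δ hδ (hqδ δ hδ h), fun i hi => ?_⟩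
    rcases Finset.mem_insert.1 hi with rfl | hi
    · exact ⟨u, hu⟩
    · obtain ⟨v, hv⟩ := hqu i hi
      exact ⟨v, fun z hz => hv z (hrq.satB hz)⟩

theorem Nm_empty (β : Ω) : (fun _ _ => ∅ : Pro I Ω) ∈ Nm A I β :=
  mem_Nm.2 ⟨fun _ _ _ _ => rfl, ⟨0, fun _ l => A.leg_empty 0 l⟩,
    fun _ p hp hl => ⟨p, hp, hl, Pre.LE.refl p, fun _ _ _ _ => rfl⟩⟩

theorem Nm_union {β : Ω} {φ ψ : Pro I Ω} (hφ : φ ∈ Nm A I β) (hψ : ψ ∈ Nm A I β) :
    (fun z l => φ z l ∪ ψ z l : Pro I Ω) ∈ Nm A I β := by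
  obtain ⟨hφ1, ⟨m, hm⟩, hφ3⟩ := mem_Nm.1 hφ
  obtain ⟨hψ1, ⟨m', hm'⟩, hψ3⟩ := mem_Nm.1 hψ
  refine mem_Nm.2 ⟨fun z z' h h' => ?_, ⟨m + m', fun z l => A.leg_union (hm z l) (hm' z l)⟩,
    fun l p hp hl => ?_⟩
  · funext l
    show φ z l ∪ ψ z l = φ z' l ∪ ψ z' l
    rw [hφ1 z z' h h', hψ1 z z' h h']
  · obtain ⟨q, hq, hql, hqp, hqu⟩ := hφ3 l p hp hl
    obtain ⟨r, hr, hrl, hrq, hru⟩ := hψ3 l q hq hql
    refine ⟨r, hr, hrl, hrq.trans hqp, fun z z' hz hz' => ?_⟩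
    show φ z l ∪ ψ z l = φ z' l ∪ ψ z' l
    rw [hqu z z' (hrq.satB hz) (hrq.satB hz'), hru z z' hz hz']

/-- at every coordinate the promise of a condition is a name -/
theorem PP.name {p : Pre A I Ω} (hp : p ∈ PP A I Ω) (β : Ω) : p.φ β ∈ Nm A I β := by
  by_cases h : β ∈ p.s
  · exact hp β h
  · have e : p.φ β = fun _ _ => ∅ := by
      funext z l
      exact (p.out β h).2 z l
    rw [e]
    exact Nm_empty β

/-- a name can be added to the promise -/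
theorem exists_addPro {p : Pre A I Ω} (hp : p ∈ PP A I Ω) {β : Ω} {φ : Pro I Ω} (hφ : φ ∈ Nm A I β) :
    ∃ q ∈ PP A I Ω, q.LE p ∧ (∀ z l, φ z l ⊆ q.φ β z l) ∧ q.c = p.c ∧ (∀ γ, q.σ γ = p.σ γ) ∧
      (∀ γ, γ ≠ β → q.φ γ = p.φ γ) ∧ ∀ δ, β < δ → p.Low δ → q.Low δ := by
  classical
  set ψ : Pro I Ω := fun z l => p.φ β z l ∪ φ z l with hψ
  have hc : (put β (p.σ β) ψ p (p.leg β)).c = p.c := rfl
  have hs : (put β (p.σ β) ψ p (p.leg β)).s = insert β p.s := by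
    unfold put; ext; simp
  have hσ : ∀ γ, (put β (p.σ β) ψ p (p.leg β)).σ γ = p.σ γ := by
    intro γ
    by_cases h : γ = β
    · subst h; simp [put]
    · simp [put]
  have hφβ : (put β (p.σ β) ψ p (p.leg β)).φ β = ψ := by simp [put]
  have hφγ : ∀ γ, γ ≠ β → (put β (p.σ β) ψ p (p.leg β)).φ γ = p.φ γ := by
    intro γ h
    simp [put, Function.update_of_ne h]
  refine ⟨put β (p.σ β) ψ p (p.leg β), ?_, ⟨?_, ?_, ?_, ?_, ?_⟩, ?_, hc, hσ, hφγ, ?_⟩
  · intro γ hγ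
    by_cases h : γ = β
    · subst h
      rw [hφβ]
      exact Nm_union (PP.name hp γ) hφ
    · rw [hφγ γ h]
      exact PP.name hp γ
  · rw [hc]
  · rw [hs]; exact Finset.subset_insert _ _
  · intro γ; rw [hσ γ]
  · intro γ z l
    by_cases h : γ = β
    · subst h
      rw [hφβ]
      exact Finset.subset_union_left
    · rw [hφγ γ h]
  · intro γ z _ n h1 h2
    rw [hσ γ] at h2
    exact absurd h1 (not_le.2 h2)
  · intro z l
    rw [hφβ]
    exact Finset.subset_union_right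
  · intro δ hδ hlow γ hγ
    rw [hs] at hγ
    rcases Finset.mem_insert.1 hγ with rfl | h
    · exact hδ
    · exact hlow γ h

/-- a letter from a target set can be appended to the stem if every legal promise leaves one -/
theorem exists_letter {p : Pre A I Ω} (hp : p ∈ PP A I Ω) (β : Ω) (Q : ℕ → Prop)
    (h : ∀ m, ∃ l, ∀ u, A.Leg m l u → ∃ a, A.pos (p.σ β) a = l ∧ A.Adm (p.σ β) a u ∧ Q a) :
    ∃ q ∈ PP A I Ω, q.LE p ∧ (∃ a, Q a ∧ q.σ β = p.σ β ++ [a]) ∧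
      (∀ γ, β < γ → q.σ γ = p.σ γ ∧ q.φ γ = p.φ γ) ∧ ∀ δ, β < δ → p.Low δ → q.Low δ := by
  have hn := PP.name hp β
  obtain ⟨hD, ⟨m, hm⟩, -⟩ := mem_Nm.1 hn
  obtain ⟨l, hl⟩ := h m
  obtain ⟨p1, hp1, hle, hsame, hlow, u, hu⟩ := exists_dec hp hn l
  obtain ⟨z0, hz0⟩ := exists_satB hp1 β
  obtain ⟨a, ha1, ha2, ha3⟩ := hl u (by rw [← hu z0 hz0]; exact hm z0 l)
  have hσ : p1.σ β = p.σ β := (hsame β le_rfl).1
  have hφ : p1.φ β = p.φ β := (hsame β le_rfl).2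
  have htk : ∀ n, n ≤ (p.σ β).length → (p.σ β ++ [a]).take n = (p.σ β).take n := fun n hn =>
    List.take_append_of_le_length hn
  have hgd : ∀ n, n < (p.σ β).length → (p.σ β ++ [a]).getD n 0 = (p.σ β).getD n 0 := fun n hn =>
    List.getD_append _ _ _ _ hn
  have hgl : (p.σ β ++ [a]).getD (p.σ β).length 0 = a := by
    rw [List.getD_append_right _ _ _ _ le_rfl, Nat.sub_self]
    rfl
  have hτ : ∀ n, n < (p.σ β ++ [a]).length →
      A.Adm ((p.σ β ++ [a]).take n) ((p.σ β ++ [a]).getD n 0) ∅ := by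
    intro n hn
    rw [List.length_append, List.length_singleton] at hn
    rcases Nat.lt_or_ge n (p.σ β).length with h1 | h1
    · rw [htk n h1.le, hgd n h1]
      exact p.leg β n h1
    · obtain rfl : n = (p.σ β).length := by omega
      rw [htk _ le_rfl, hgl, List.take_length]
      exact A.anti ha2 (Finset.empty_subset _)
  have e1 : (put β (p.σ β ++ [a]) (p1.φ β) p1 hτ).σ = Function.update p1.σ β (p.σ β ++ [a]) := rfl
  have e2 : (put β (p.σ β ++ [a]) (p1.φ β) p1 hτ).φ = p1.φ := by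
    change Function.update p1.φ β (p1.φ β) = p1.φ
    exact Function.update_eq_self β p1.φ
  have e3 : ∀ γ, γ ≠ β → (put β (p.σ β ++ [a]) (p1.φ β) p1 hτ).σ γ = p1.σ γ := fun γ hγ => by
    rw [e1, Function.update_of_ne hγ]
  have e4 : (put β (p.σ β ++ [a]) (p1.φ β) p1 hτ).σ β = p.σ β ++ [a] := by
    rw [e1, Function.update_self]
  have e5 : ∀ γ, γ ∈ (put β (p.σ β ++ [a]) (p1.φ β) p1 hτ).s ↔ γ = β ∨ γ ∈ p1.s := fun γ => by
    classical
    change γ ∈ insert β p1.s ↔ _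
    rw [Finset.mem_insert]
  refine ⟨put β (p.σ β ++ [a]) (p1.φ β) p1 hτ, ?_, ?_, ⟨a, ha3, e4⟩, ?_, ?_⟩
  · intro γ hγ
    rw [e2]
    rcases (e5 γ).1 hγ with rfl | hγ
    · rw [hφ]; exact hn
    · exact hp1 γ hγ
  · refine Pre.LE.trans ?_ hle
    refine ⟨fun x hx => hx, fun γ hγ => (e5 γ).2 (Or.inr hγ), ?_, ?_, ?_⟩
    · intro γ
      by_cases hγ : γ = β
      · subst hγ
        rw [e4, hσ]
        exact List.prefix_append _ _
      · rw [e3 γ hγ]
    · intro γ z l'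
      rw [e2]
    · intro γ z hz n hn1 hn2
      by_cases hγ : γ = β
      · subst hγ
        rw [hσ] at hn1
        rw [e4, List.length_append, List.length_singleton] at hn2
        obtain rfl : n = (p.σ γ).length := by omega
        rw [e4, htk _ le_rfl, hgl, List.take_length, ha1, hφ]
        have hz1 : p1.satB γ z := by
          refine ⟨hz.1, fun δ hδ => ?_⟩
          have h3 := hz.2 δ hδ
          unfold Pre.satAt at h3 ⊢
          rw [e3 δ hδ.ne, e2] at h3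
          exact h3
        rw [hu z hz1]
        exact ha2
      · rw [e3 γ hγ] at hn2
        omega
  · intro γ hγ
    rw [e3 γ hγ.ne', e2]
    exact hsame γ hγ.le
  · intro δ hδ hl' γ hγ
    rcases (e5 γ).1 hγ with rfl | hγ
    · exact hδ
    · exact hlow δ hδ.le hl' γ hγ

/-- stems can be made long -/
theorem exists_long {p : Pre A I Ω} (hp : p ∈ PP A I Ω) (β : Ω) (n : ℕ) :
    ∃ q ∈ PP A I Ω, q.LE p ∧ n ≤ (q.σ β).length ∧
      (∀ γ, β < γ → q.σ γ = p.σ γ ∧ q.φ γ = p.φ γ) ∧ ∀ δ, β < δ → p.Low δ → q.Low δ := by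
  induction n with
  | zero => exact ⟨p, hp, Pre.LE.refl p, Nat.zero_le _, fun γ _ => ⟨rfl, rfl⟩, fun δ _ h => h⟩
  | succ n ih =>
    obtain ⟨q, hq, hle, hn, h1, h2⟩ := ih
    obtain ⟨r, hr, hle', ⟨a, -, ha⟩, h3, h4⟩ := exists_letter hq β (fun _ => True) (fun m => by
      obtain ⟨l, hl⟩ := A.ext (q.σ β) m
      exact ⟨l, fun u hu => by
        obtain ⟨a, h5, h6⟩ := hl u hu
        exact ⟨a, h5, h6, trivial⟩⟩)
    refine ⟨r, hr, hle'.trans hle, ?_, fun γ hγ => ?_, fun δ hδ h => h4 δ hδ (h2 δ hδ h)⟩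
    · rw [ha, List.length_append, List.length_singleton]
      omega
    · rw [(h3 γ hγ).1, (h3 γ hγ).2]
      exact h1 γ hγ

private theorem dec_cohen {p : Pre A I Ω} (hp : p ∈ PP A I Ω) (i : I) (τ : List ℕ)
    (h : ∀ n a, (i, n, a) ∈ p.c → n < τ.length ∧ a = τ.getD n 0) :
    ∃ q ∈ PP A I Ω, q.LE p ∧ q.s = p.s ∧
      ∀ n a, (i, n, a) ∈ q.c ↔ n < τ.length ∧ a = τ.getD n 0 := by
  classical
  have hm : ∀ j n a, (j, n, a) ∈ p.c ∪ (Finset.range τ.length).image (fun n => (i, n, τ.getD n 0)) ↔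
      (j, n, a) ∈ p.c ∨ (j = i ∧ n < τ.length ∧ a = τ.getD n 0) := by
    intro j n a
    rw [Finset.mem_union, Finset.mem_image]
    refine or_congr_right ?_
    constructor
    · rintro ⟨x, hx, hx2⟩
      simp only [Prod.mk.injEq] at hx2
      obtain ⟨rfl, rfl, rfl⟩ := hx2
      exact ⟨rfl, Finset.mem_range.1 hx, rfl⟩
    · rintro ⟨rfl, hn, rfl⟩
      exact ⟨n, Finset.mem_range.2 hn, rfl⟩
  refine ⟨{ p with
      c := p.c ∪ (Finset.range τ.length).image (fun n => (i, n, τ.getD n 0))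
      fn := ?_ }, ?_, ?_, rfl, ?_⟩
  · intro j n a b ha hb
    rw [hm] at ha hb
    by_cases hj : j = i
    · subst hj
      have h1 : a = τ.getD n 0 := by
        rcases ha with ha | ha
        · exact (h n a ha).2
        · exact ha.2.2
      have h2 : b = τ.getD n 0 := by
        rcases hb with hb | hb
        · exact (h n b hb).2
        · exact hb.2.2
      rw [h1, h2]
    · rcases ha with ha | ha
      · rcases hb with hb | hb
        · exact p.fn j n a b ha hb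
        · exact absurd hb.1 hj
      · exact absurd ha.1 hj
  · exact hp
  · refine ⟨Finset.subset_union_left, fun _ h => h, fun β => List.prefix_refl _,
      fun β z l => Finset.Subset.refl _, ?_⟩
    intro β z _ n h1 h2
    exact absurd h2 (Nat.not_lt.2 h1)
  · intro n a
    change (i, n, a) ∈ p.c ∪ (Finset.range τ.length).image (fun n => (i, n, τ.getD n 0)) ↔ _
    rw [hm]
    constructor
    · rintro (h1 | h1)
      · exact h n a h1
      · exact h1.2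
    · intro h1
      exact Or.inr ⟨rfl, h1⟩

/-- a Cohen function can be decided on an initial segment -/
theorem exists_cohen {p : Pre A I Ω} (hp : p ∈ PP A I Ω) (i : I) (M : ℕ) :
    ∃ q ∈ PP A I Ω, q.LE p ∧ q.s = p.s ∧ ∃ τ : List ℕ, M ≤ τ.length ∧
      ∀ n a, (i, n, a) ∈ q.c ↔ n < τ.length ∧ a = τ.getD n 0 := by
  classical
  let v : ℕ → ℕ := fun n => if h : ∃ a, (i, n, a) ∈ p.c then h.choose else 0
  have hv : ∀ n a, (i, n, a) ∈ p.c → a = v n := by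
    intro n a ha
    have h : ∃ a, (i, n, a) ∈ p.c := ⟨a, ha⟩
    have h2 : v n = h.choose := dif_pos h
    rw [h2]
    exact p.fn i n _ _ ha h.choose_spec
  let N : ℕ := max M (p.c.sup (fun x => x.2.1) + 1)
  have hN : ∀ n a, (i, n, a) ∈ p.c → n < N := by
    intro n a ha
    have h1 : n ≤ p.c.sup (fun x => x.2.1) := Finset.le_sup (f := fun x : I × ℕ × ℕ => x.2.1) ha
    exact lt_of_lt_of_le (Nat.lt_succ_of_le h1) (le_max_right _ _)
  obtain ⟨q, hq, hle, hs, hc⟩ := dec_cohen hp i (ini v N) (fun n a ha => by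
    rw [ini_length]
    refine ⟨hN n a ha, ?_⟩
    rw [ini_getD v (hN n a ha)]
    exact hv n a ha)
  exact ⟨q, hq, hle, hs, ini v N, by rw [ini_length]; exact le_max_left _ _, hc⟩

/-- a decided Cohen function can be prolonged arbitrarily -/
theorem exists_cohen' {p : Pre A I Ω} (hp : p ∈ PP A I Ω) (i : I) {τ : List ℕ}
    (hτ : ∀ n a, (i, n, a) ∈ p.c ↔ n < τ.length ∧ a = τ.getD n 0) (ρ : List ℕ) :
    ∃ q ∈ PP A I Ω, q.LE p ∧ q.s = p.s ∧
      ∀ n a, (i, n, a) ∈ q.c ↔ n < (τ ++ ρ).length ∧ a = (τ ++ ρ).getD n 0 := by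
  refine dec_cohen hp i (τ ++ ρ) fun n a ha => ?_
  obtain ⟨h1, h2⟩ := (hτ n a).1 ha
  refine ⟨by rw [List.length_append]; omega, ?_⟩
  rw [List.getD_append _ _ _ _ h1]
  exact h2

end

end Pool.Agent.SSM
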