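import Pool.Agent.SSM.Name

/-!
# Limits of sequences of finite families of conditions: definitions
-/

namespace Pool.Agent.SSM

open Set

section
variable {A : Itd} {I Ω : Type} [LinearOrder Ω] [WellFoundedLT Ω] {τ : Type}

/-- `q0` forces that for infinitely many `k` all but a small portion of the conditions `a k t`, `t ∈ T k`,
belong to the generic filter. -/
def Lmt (T : ℕ → Finset τ) (a : ℕ → τ → Pre A I Ω) (η : ℝ) (q0 : Pre A I Ω) : Prop :=
  ∀ q ∈ PP A I Ω, q.LE q0 → ∀ N, ∃ k ≥ N, ∃ q' ∈ PP A I Ω, q'.LE q ∧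
    ∃ B ⊆ T k, (B.card : ℝ) ≤ η * (T k).card ∧ ∀ t ∈ T k, t ∉ B → q'.LE (a k t)

open Classical in
/-- the set of values which occur in many of the sets `v t`, `t ∈ T` -/
noncomputable def hvy (A : Itd) (κ m l : ℕ) (T : Finset τ) (v : τ → Finset ℕ) : Finset ℕ :=
  if h : A.Tok T.card ∧ ∀ t ∈ T, A.Leg m l (if t ∈ T then v t else ∅) then
    (A.heavy κ m l T (fun t => if t ∈ T then v t else ∅) h.1 h.2).choose else ∅

theorem hvy_congr (A : Itd) (κ m l : ℕ) (T : Finset τ) {v v' : τ → Finset ℕ} (h : ∀ t ∈ T, v t = v' t) :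
    hvy A κ m l T v = hvy A κ m l T v' := by
  classical
  have e : (fun t => if t ∈ T then v t else ∅) = fun t => if t ∈ T then v' t else ∅ := by
    funext t
    by_cases ht : t ∈ T
    · rw [if_pos ht, if_pos ht, h t ht]
    · rw [if_neg ht, if_neg ht]
  unfold hvy
  have key : ∀ w w' : τ → Finset ℕ, w = w' →
      (if h : A.Tok T.card ∧ ∀ t ∈ T, A.Leg m l (w t) then (A.heavy κ m l T w h.1 h.2).choose else ∅) =
      if h : A.Tok T.card ∧ ∀ t ∈ T, A.Leg m l (w' t) then (A.heavy κ m l T w' h.1 h.2).choose else ∅ := by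
    rintro w w' rfl
    rfl
  exact key _ _ e

theorem hvy_leg (A : Itd) (κ m l : ℕ) (T : Finset τ) (v : τ → Finset ℕ) :
    A.Leg (m + 1 + κ) l (hvy A κ m l T v) := by
  unfold hvy
  split_ifs with h
  · exact (A.heavy κ m l T _ h.1 h.2).choose_spec.1
  · exact A.leg_empty _ _

theorem hvy_spec {A : Itd} {κ m l : ℕ} {T : Finset τ} {v : τ → Finset ℕ} (h1 : A.Tok T.card)
    (h2 : ∀ t ∈ T, A.Leg m l (v t)) {σ : List ℕ} {a : ℕ} {u : Finset ℕ} (hp : A.pos σ a = l)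
    (hu : ∀ x ∈ hvy A κ m l T v, x < A.nb l a → x ∈ u) (ha : A.Adm σ a u) :
    ∃ B ⊆ T, B.card * 2 ^ (σ.length + κ) ≤ T.card ∧ ∀ t ∈ T, t ∉ B → A.Adm σ a (v t) := by
  classical
  have h : A.Tok T.card ∧ ∀ t ∈ T, A.Leg m l (if t ∈ T then v t else ∅) :=
    ⟨h1, fun t ht => by rw [if_pos ht]; exact h2 t ht⟩
  unfold hvy at hu
  rw [dif_pos h] at hu
  obtain ⟨B, hB, hB1, hB2⟩ := (A.heavy κ m l T _ h.1 h.2).choose_spec.2 σ a u hp hu ha
  refine ⟨B, hB, hB1, fun t ht htB => ?_⟩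
  have := hB2 t ht htB
  rwa [if_pos ht] at this

/-- The condition `q`, below `β`, forces: for all `n` and infinitely many `k`, all but a small portion of
the conditions `a k t` are in the generic filter and below `n` the set of heavy values of the promises
`ψ k t` at each position `l < u.length` is contained in the `l`-th member of `u`. -/
def Acc (β : Ω) (T : ℕ → Finset τ) (a : ℕ → τ → Pre A I Ω) (ψ : ℕ → τ → Pro I Ω) (η : ℝ) (κ m : ℕ)
    (q0 : Pre A I Ω) (q : Pre A I Ω) (u : List (Finset ℕ)) : Prop :=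
  ∀ q' ∈ PP A I Ω, q'.Low β → q'.LE q → q'.LE q0 → ∀ n N : ℕ, ∃ k ≥ N, ∃ q'' ∈ PP A I Ω, q''.Low β ∧ q''.LE q' ∧
    (∃ B ⊆ T k, (B.card : ℝ) ≤ η * (T k).card ∧ ∀ t ∈ T k, t ∉ B → q''.LE (a k t)) ∧
    ∀ l v, u[l]? = some v → ∀ z, q''.satB β z →
      ∀ x ∈ hvy A κ m l (T k) (fun t => ψ k t z l), x < n → x ∈ v

end

end Pool.Agent.SSM
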