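import Pool.Agent.SSM.Lim0

/-!
# Limits: one more value can be found
-/

namespace Pool.Agent.SSM

open Set

section

set_option linter.unusedSectionVars false
variable {A : Itd} {I Ω : Type} [LinearOrder Ω] [WellFoundedLT Ω] {τ : Type}

/-- the portion of the family `a k` which is in the generic filter -/
private def LmOneB (T : ℕ → Finset τ) (a : ℕ → τ → Pre A I Ω) (η : ℝ) (k : ℕ) (q : Pre A I Ω) : Prop :=
  ∃ B ⊆ T k, (B.card : ℝ) ≤ η * (T k).card ∧ ∀ t ∈ T k, t ∉ B → q.LE (a k t)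

/-- below `n` the heavy values are in the members of `u` -/
private def LmOneC (β : Ω) (T : ℕ → Finset τ) (ψ : ℕ → τ → Pro I Ω) (κ m : ℕ) (u : List (Finset ℕ)) (n k : ℕ)
    (q : Pre A I Ω) : Prop :=
  ∀ l v, u[l]? = some v → ∀ z, q.satB β z →
    ∀ x ∈ hvy A κ m l (T k) (fun t => ψ k t z l), x < n → x ∈ v

private theorem LmOneC.mono {β : Ω} {T : ℕ → Finset τ} {ψ : ℕ → τ → Pro I Ω} {κ m : ℕ} {u : List (Finset ℕ)}
    {n n' k : ℕ} {q : Pre A I Ω} (hn : n ≤ n') (h : LmOneC β T ψ κ m u n' k q) : LmOneC β T ψ κ m u n k q :=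
  fun l v hv z hz x hx hxn => h l v hv z hz x hx (hxn.trans_le hn)

private theorem LmOneC.le {β : Ω} {T : ℕ → Finset τ} {ψ : ℕ → τ → Pro I Ω} {κ m : ℕ} {u : List (Finset ℕ)}
    {n k : ℕ} {q r : Pre A I Ω} (hr : r.LE q) (h : LmOneC β T ψ κ m u n k q) : LmOneC β T ψ κ m u n k r :=
  fun l v hv z hz x hx hxn => h l v hv z (hr.satB hz) x hx hxn

private theorem LmOneB.le {T : ℕ → Finset τ} {a : ℕ → τ → Pre A I Ω} {η : ℝ} {k : ℕ} {q r : Pre A I Ω}
    (hr : r.LE q) (h : LmOneB T a η k q) : LmOneB T a η k r := by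
  obtain ⟨B, hB, hB1, hB2⟩ := h
  exact ⟨B, hB, hB1, fun t ht htB => Pre.LE.trans hr (hB2 t ht htB)⟩

theorem Acc.next {β : Ω} {T : ℕ → Finset τ} {a : ℕ → τ → Pre A I Ω} {ψ : ℕ → τ → Pro I Ω} {η : ℝ} {κ m : ℕ}
    {q0 q : Pre A I Ω} {u : List (Finset ℕ)} (hψ : ∀ k, ∀ t ∈ T k, ψ k t ∈ Nm A I β)
    (hq : q ∈ PP A I Ω) (hl : q.Low β) (h : Acc β T a ψ η κ m q0 q u) :
    ∃ q' ∈ PP A I Ω, q'.Low β ∧ q'.LE q ∧ ∃ v, A.Leg (m + 1 + κ) u.length v ∧
      Acc β T a ψ η κ m q0 q' (u ++ [v]) := by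
  classical
  by_contra hcon
  -- the negation, in the form needed
  have hneg : ∀ q' ∈ PP A I Ω, q'.Low β → q'.LE q → ∀ v, A.Leg (m + 1 + κ) u.length v →
      ∃ q1 ∈ PP A I Ω, q1.Low β ∧ q1.LE q' ∧ q1.LE q0 ∧ ∃ n N : ℕ, ∀ k ≥ N, ∀ r ∈ PP A I Ω, r.Low β →
        r.LE q1 → LmOneB T a η k r → ¬ LmOneC β T ψ κ m (u ++ [v]) n k r := by
    intro q' hq' hl' hqq v hv
    by_contra hc
    refine hcon ⟨q', hq', hl', hqq, v, hv, ?_⟩
    intro q1 hq1 hl1 hle1 hle0 n N
    by_contra hc2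
    refine hc ⟨q1, hq1, hl1, hle1, hle0, n, N, ?_⟩
    intro k hk r hr hrl hrq hB hC
    exact hc2 ⟨k, hk, r, hr, hrl, hrq, hB, hC⟩
  -- the main induction
  have key : ∀ i : ℕ, ∃ q1 ∈ PP A I Ω, q1.Low β ∧ q1.LE q ∧ q1.LE q0 ∧ ∃ n N : ℕ, ∀ k ≥ N,
      ∀ r ∈ PP A I Ω, r.Low β → r.LE q1 → LmOneB T a η k r → LmOneC β T ψ κ m u n k r → ∀ H : Finset ℕ,
      (∀ z, r.satB β z → hvy A κ m u.length (T k) (fun t => ψ k t z u.length) = H) →
      i ≤ (H.filter (· < n)).card := by
    intro i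
    induction i with
    | zero =>
      obtain ⟨q1, hq1, hl1, hle1, hle0, -⟩ := hneg q hq hl (Pre.LE.refl q) ∅ (A.leg_empty _ _)
      exact ⟨q1, hq1, hl1, hle1, hle0, 0, 0, fun _ _ _ _ _ _ _ _ _ _ => Nat.zero_le _⟩
    | succ i ih =>
      obtain ⟨q1, hq1, hl1, hle1, hle0, n, N, hN⟩ := ih
      -- strengthen finitely many times
      have step : ∀ F : Finset (Finset ℕ), (∀ v ∈ F, A.Leg (m + 1 + κ) u.length v) →
          ∃ q2 ∈ PP A I Ω, q2.Low β ∧ q2.LE q1 ∧ ∃ n' ≥ n, ∃ N' ≥ N, ∀ v ∈ F, ∀ k ≥ N',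
            ∀ r ∈ PP A I Ω, r.Low β → r.LE q2 → LmOneB T a η k r → ¬ LmOneC β T ψ κ m (u ++ [v]) n' k r := by
        intro F
        induction F using Finset.induction_on with
        | empty =>
          intro _
          exact ⟨q1, hq1, hl1, Pre.LE.refl q1, n, le_refl n, N, le_refl N, fun v hv => absurd hv (by simp)⟩
        | insert v F _ ihF =>
          intro hF
          obtain ⟨q2, hq2, hl2, hle2, n', hn', N', hN', h2⟩ :=
            ihF (fun w hw => hF w (Finset.mem_insert_of_mem hw))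
          obtain ⟨q3, hq3, hl3, hle3, -, n3, N3, h3⟩ := hneg q2 hq2 hl2 (Pre.LE.trans hle2 hle1) v
            (hF v (Finset.mem_insert_self v F))
          refine ⟨q3, hq3, hl3, Pre.LE.trans hle3 hle2, max n' n3, hn'.trans (le_max_left _ _),
            max N' N3, hN'.trans (le_max_left _ _), ?_⟩
          intro w hw k hk r hr hrl hrq hB hC
          rcases Finset.mem_insert.1 hw with rfl | hw
          · exact h3 k ((le_max_right _ _).trans hk) r hr hrl hrq hB (hC.mono (le_max_right _ _))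
          · exact h2 w hw k ((le_max_left _ _).trans hk) r hr hrl (Pre.LE.trans hrq hle3) hB
              (hC.mono (le_max_left _ _))
      obtain ⟨q2, hq2, hl2, hle2, n', hn', N', hN', h2⟩ :=
        step ((Finset.range n).powerset.filter (fun v => A.Leg (m + 1 + κ) u.length v))
          (fun v hv => (Finset.mem_filter.1 hv).2)
      refine ⟨q2, hq2, hl2, Pre.LE.trans hle2 hle1, Pre.LE.trans hle2 hle0, n', N', ?_⟩
      intro k hk r hr hrl hrq hB hC H hH
      have h4 := hN k (hN'.trans hk) r hr hrl (Pre.LE.trans hrq hle2) hB (hC.mono hn') H hH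
      have hsub : H.filter (· < n) ⊆ H.filter (· < n') := by
        intro x hx
        rw [Finset.mem_filter] at hx ⊢
        exact ⟨hx.1, hx.2.trans_le hn'⟩
      by_contra hlt
      have hle : (H.filter (· < n')).card ≤ (H.filter (· < n)).card := by omega
      have heq : H.filter (· < n) = H.filter (· < n') := Finset.eq_of_subset_of_card_le hsub hle
      obtain ⟨z0, hz0⟩ := exists_satB hr β
      have hHleg : A.Leg (m + 1 + κ) u.length H := by
        rw [← hH z0 hz0]
        exact hvy_leg A κ m u.length (T k) _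
      have hvleg : A.Leg (m + 1 + κ) u.length (H.filter (· < n)) :=
        A.leg_sub hHleg (Finset.filter_subset _ _)
      have hvmem : H.filter (· < n) ∈
          (Finset.range n).powerset.filter (fun v => A.Leg (m + 1 + κ) u.length v) := by
        rw [Finset.mem_filter, Finset.mem_powerset]
        refine ⟨?_, hvleg⟩
        intro x hx
        rw [Finset.mem_range]
        exact (Finset.mem_filter.1 hx).2
      refine h2 _ hvmem k hk r hr hrl hrq hB ?_
      intro l v hv z hz x hx hxn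
      rcases lt_trichotomy l u.length with hl' | hl' | hl'
      · rw [List.getElem?_append_left hl'] at hv
        exact hC l v hv z hz x hx hxn
      · subst hl'
        rw [List.getElem?_append_right (le_refl _)] at hv
        simp only [Nat.sub_self, List.getElem?_cons_zero, Option.some.injEq] at hv
        rw [← hv, heq, Finset.mem_filter]
        rw [hH z hz] at hx
        exact ⟨hx, hxn⟩
      · rw [List.getElem?_append_right hl'.le] at hv
        have hlen : 1 ≤ l - u.length := by omega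
        rw [List.getElem?_eq_none (by simpa using hlen)] at hv
        exact absurd hv (by simp)
  obtain ⟨q1, hq1, hl1, hle1, hle0, n, N, hN⟩ := key (A.cb (m + 1 + κ) u.length + 1)
  obtain ⟨k, hk, q2, hq2, hl2, hle2, hB, hC⟩ := h q1 hq1 hl1 hle1 hle0 n N
  obtain ⟨r, hr, hrq, -, hrl, hrd⟩ := exists_decs (β := β) hq2 (T k) (fun t => ψ k t)
    (fun _ => u.length) (hψ k)
  choose! w hw using hrd
  have hH : ∀ z, r.satB β z → hvy A κ m u.length (T k) (fun t => ψ k t z u.length) =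
      hvy A κ m u.length (T k) w := fun z hz => hvy_congr A κ m u.length (T k) (fun t ht => hw t ht z hz)
  have h5 := hN k hk r hr (hrl β le_rfl hl2) (Pre.LE.trans hrq hle2) (LmOneB.le hrq hB)
    (LmOneC.le hrq hC) _ hH
  have h6 := (Finset.card_filter_le (hvy A κ m u.length (T k) w) (· < n)).trans
    (A.leg_card (hvy_leg A κ m u.length (T k) w))
  omega

end

end Pool.Agent.SSM
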