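import Pool.Agent.SSM.Lim1

/-!
# Limits: the step at one coordinate
-/

namespace Pool.Agent.SSM

open Set

section
variable {A : Itd} {I Ω : Type} [LinearOrder Ω] [WellFoundedLT Ω] {τ : Type}

/-- the name of the limit promise -/
theorem exists_limName {β : Ω} {T : ℕ → Finset τ} {a : ℕ → τ → Pre A I Ω} {ψ : ℕ → τ → Pro I Ω} {η : ℝ}
    {κ m : ℕ} {q0 : Pre A I Ω} (hψ : ∀ k, ∀ t ∈ T k, ψ k t ∈ Nm A I β)
    (ha : ∀ k, ∀ t ∈ T k, a k t ∈ PP A I Ω ∧ (a k t).Low β) (hL : Lmt T a η q0) :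
    ∃ φ ∈ Nm A I β, ∀ q ∈ PP A I Ω, q.Low β → ∀ L, ∃ q' ∈ PP A I Ω, q'.Low β ∧ q'.LE q ∧
      ∃ u, u.length = L ∧ Acc β T a ψ η κ m q0 q' u ∧
        ∀ z, q'.satB β z → ∀ l < L, φ z l = u.getD l ∅ := by
  obtain ⟨φ, hφ, -, h⟩ := exists_name (A := A) (I := I) (β := β)
    (S := {x : Pre A I Ω × List (Finset ℕ) | (∀ l v, x.2[l]? = some v → A.Leg (m + 1 + κ) l v) ∧
      Acc β T a ψ η κ m q0 x.1 x.2}) (M := m + 1 + κ)
    (by
      intro q hq hql
      refine ⟨fun l v h => by simp at h, ?_⟩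
      intro q' hq' hq'l hq'q hq'q0 n N
      obtain ⟨k, hk, q'', hq'', hle, B, hB, hBc, hBt⟩ := hL q' hq' hq'q0 N
      refine ⟨k, hk, res β q'', res_mem hq'', res_low β q'', res_le hle hq'l, ⟨B, hB, hBc, ?_⟩, ?_⟩
      · intro t ht htB
        exact res_le (hBt t ht htB) (ha k t ht).2
      · intro l v h
        simp at h)
    (by
      rintro q u ⟨h1, h2⟩ q' hq' hq'l hq'q
      refine ⟨h1, ?_⟩
      intro r hr hrl hrq' hrq0 n N
      exact h2 r hr hrl (hrq'.trans hq'q) hrq0 n N)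
    (by
      rintro q u hq hql ⟨h1, h2⟩
      obtain ⟨q', hq', hq'l, hq'q, v, hv, hA⟩ := Acc.next hψ hq hql h2
      refine ⟨q', hq', hq'l, hq'q, v, ?_, hA⟩
      intro l w hw
      rcases lt_trichotomy l u.length with hl | hl | hl
      · rw [List.getElem?_append_left hl] at hw
        exact h1 l w hw
      · subst hl
        simp only [List.getElem?_concat_length, Option.some.injEq] at hw
        rw [← hw]
        exact hv
      · rw [List.getElem?_append_right hl.le, List.getElem?_eq_none (by simp; omega)] at hw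
        simp at hw)
    (by
      rintro q u ⟨h1, h2⟩ l v hv
      exact h1 l v hv)
  refine ⟨φ, hφ, ?_⟩
  intro q hq hql L
  obtain ⟨q', hq', hq'l, hq'q, u, hu, ⟨-, hA⟩, hz⟩ := h q hq hql L
  exact ⟨q', hq', hq'l, hq'q, u, hu, hA, hz⟩

omit [WellFoundedLT Ω] in
theorem res_put {β : Ω} {τ0 : List ℕ} {φ : Pro I Ω} {p : Pre A I Ω}
    (hτ : ∀ n, n < τ0.length → A.Adm (τ0.take n) (τ0.getD n 0) ∅) (hl : p.Low β) :
    res β (put β τ0 φ p hτ) = p := by
  classical
  apply Pre.ext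
  · rfl
  · ext γ
    simp only [res, put, Finset.mem_filter, Finset.mem_insert]
    constructor
    · rintro ⟨h | h, h'⟩
      · exact absurd h' (by rw [h]; exact lt_irrefl _)
      · exact h
    · intro h
      exact ⟨Or.inr h, hl γ h⟩
  · funext γ
    by_cases h : γ < β
    · rw [res_σ h]
      exact Function.update_of_ne h.ne _ _
    · have : (res β (put β τ0 φ p hτ)).σ γ = [] := if_neg h
      rw [this]
      exact (p.out γ (fun h' => h (hl γ h'))).1.symm
  · funext γ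
    by_cases h : γ < β
    · rw [res_φ h]
      exact Function.update_of_ne h.ne _ _
    · have : (res β (put β τ0 φ p hτ)).φ γ = fun _ _ => ∅ := if_neg h
      rw [this]
      funext z l
      exact ((p.out γ (fun h' => h (hl γ h'))).2 z l).symm

omit [WellFoundedLT Ω] in
theorem put_σ_self {β : Ω} {τ0 : List ℕ} {φ : Pro I Ω} {p : Pre A I Ω}
    (hτ : ∀ n, n < τ0.length → A.Adm (τ0.take n) (τ0.getD n 0) ∅) :
    (put β τ0 φ p hτ).σ β = τ0 := by
  classical
  exact Function.update_self _ _ _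

omit [WellFoundedLT Ω] in
theorem put_φ_self {β : Ω} {τ0 : List ℕ} {φ : Pro I Ω} {p : Pre A I Ω}
    (hτ : ∀ n, n < τ0.length → A.Adm (τ0.take n) (τ0.getD n 0) ∅) :
    (put β τ0 φ p hτ).φ β = φ := by
  classical
  exact Function.update_self _ _ _

omit [WellFoundedLT Ω] in
theorem put_σ_ne {β γ : Ω} {τ0 : List ℕ} {φ : Pro I Ω} {p : Pre A I Ω}
    (hτ : ∀ n, n < τ0.length → A.Adm (τ0.take n) (τ0.getD n 0) ∅) (h : γ ≠ β) :
    (put β τ0 φ p hτ).σ γ = p.σ γ := by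
  classical
  exact Function.update_of_ne h _ _

omit [WellFoundedLT Ω] in
theorem put_φ_ne {β γ : Ω} {τ0 : List ℕ} {φ : Pro I Ω} {p : Pre A I Ω}
    (hτ : ∀ n, n < τ0.length → A.Adm (τ0.take n) (τ0.getD n 0) ∅) (h : γ ≠ β) :
    (put β τ0 φ p hτ).φ γ = p.φ γ := by
  classical
  exact Function.update_of_ne h _ _

/-- finitely many names can be added to the promise -/
theorem exists_addPros {p : Pre A I Ω} (hp : p ∈ PP A I Ω) {β : Ω} {ι : Type} (F : Finset ι)
    (φ : ι → Pro I Ω) (hφ : ∀ i ∈ F, φ i ∈ Nm A I β) :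
    ∃ q ∈ PP A I Ω, q.LE p ∧ (∀ i ∈ F, ∀ z l, φ i z l ⊆ q.φ β z l) ∧ ∀ γ, q.σ γ = p.σ γ := by
  classical
  induction F using Finset.induction_on with
  | empty => exact ⟨p, hp, Pre.LE.refl p, by simp, fun _ => rfl⟩
  | insert i F hi ih =>
    obtain ⟨q, hq, hqp, hqφ, hqσ⟩ := ih (fun j hj => hφ j (Finset.mem_insert_of_mem hj))
    obtain ⟨r, hr, hrq, hrφ, -, hrσ, -, -⟩ := exists_addPro hq (hφ i (Finset.mem_insert_self i F))
    refine ⟨r, hr, hrq.trans hqp, ?_, fun γ => (hrσ γ).trans (hqσ γ)⟩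
    intro j hj z l
    rcases Finset.mem_insert.1 hj with rfl | hj
    · exact hrφ z l
    · exact (hqφ j hj z l).trans (hrq.φ β z l)

theorem sum_geo (κ a b : ℕ) : ∑ n ∈ Finset.Ico a b, (1 / 2 : ℝ) ^ (n + κ) ≤ 2 * (1 / 2) ^ κ := by
  have h1 : ∑ n ∈ Finset.Ico a b, (1 / 2 : ℝ) ^ (n + κ) ≤ ∑ n ∈ Finset.range b, (1 / 2 : ℝ) ^ (n + κ) := by
    apply Finset.sum_le_sum_of_subset_of_nonneg
    · intro x hx
      rw [Finset.mem_Ico] at hx
      exact Finset.mem_range.2 hx.2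
    · intro i _ _
      positivity
  have h2 : ∑ n ∈ Finset.range b, (1 / 2 : ℝ) ^ (n + κ) = (2 - 2 * (1 / 2) ^ b) * (1 / 2) ^ κ := by
    induction b with
    | zero => simp
    | succ b ih =>
      rw [Finset.sum_range_succ]
      have := ih (by
        apply Finset.sum_le_sum_of_subset_of_nonneg
        · intro x hx
          rw [Finset.mem_Ico] at hx
          exact Finset.mem_range.2 hx.2
        · intro i _ _
          positivity)
      rw [this, pow_add, pow_succ]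
      ring
  rw [h2] at h1
  refine h1.trans ?_
  have h3 : (0 : ℝ) ≤ (1 / 2) ^ b := by positivity
  have h4 : (0 : ℝ) ≤ (1 / 2) ^ κ := by positivity
  nlinarith

theorem lim_step {β : Ω} {T : ℕ → Finset τ} {a : ℕ → τ → Pre A I Ω} {ψ : ℕ → τ → Pro I Ω} {η : ℝ}
    {m : ℕ} (κ : ℕ) {q0 : Pre A I Ω} (hT : ∀ k, A.Tok (T k).card)
    (ha : ∀ k, ∀ t ∈ T k, a k t ∈ PP A I Ω ∧ (a k t).Low β)
    (hψ : ∀ k, ∀ t ∈ T k, ψ k t ∈ Nm A I β) (hm : ∀ k, ∀ t ∈ T k, ∀ z l, A.Leg m l (ψ k t z l))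
    (hq0 : q0 ∈ PP A I Ω) (hl : q0.Low β) (hL : Lmt T a η q0) (τ0 : List ℕ)
    (hτ : ∀ n, n < τ0.length → A.Adm (τ0.take n) (τ0.getD n 0) ∅) :
    ∃ φ ∈ Nm A I β, Lmt T (fun k t => put β τ0 (ψ k t) (a k t) hτ) (η + 2 * (1 / 2) ^ κ)
      (put β τ0 φ q0 hτ) := by
  classical
  obtain ⟨φ, hφ, hφd⟩ := exists_limName (κ := κ) (m := m) hψ ha hL
  refine ⟨φ, hφ, ?_⟩
  intro q hq hqle N
  -- the restriction of `q` is stronger than `q0`
  have hrq : (res β q).LE q0 := by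
    have := res_mono (β := β) hqle
    rwa [res_put hτ hl] at this
  -- letters
  set σ := q.σ β with hσ
  set E := Finset.Ico τ0.length σ.length with hE
  set pl : ℕ → ℕ := fun n => A.pos (σ.take n) (σ.getD n 0) with hpl
  set L := E.sup pl + 1 with hLdef
  set n' := E.sup (fun n => A.nb (pl n) (σ.getD n 0)) with hn'
  have hplL : ∀ n ∈ E, pl n < L := fun n hn => Nat.lt_succ_of_le (Finset.le_sup (f := pl) hn)
  have hnb : ∀ n ∈ E, A.nb (pl n) (σ.getD n 0) ≤ n' := fun n hn =>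
    Finset.le_sup (f := fun n => A.nb (pl n) (σ.getD n 0)) hn
  obtain ⟨q2, hq2, hq2l, hq2q, u, hu, hAcc, hφu⟩ := hφd (res β q) (res_mem hq) (res_low β q) L
  obtain ⟨k, hk, q3, hq3, hq3l, hq3q2, ⟨B0, hB0, hB0c, hB0t⟩, hhv⟩ :=
    hAcc q2 hq2 hq2l (Pre.LE.refl q2) (hq2q.trans hrq) n' N
  obtain ⟨q4, hq4, hq4q3, -, hq4l, hdec⟩ := exists_decs hq3 (β := β) (T k ×ˢ E)
    (fun i => ψ k i.1) (fun i => pl i.2) (by
      intro i hi
      rw [Finset.mem_product] at hi
      exact hψ k i.1 hi.1)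
  have hq4l' : q4.Low β := hq4l β le_rfl hq3l
  obtain ⟨z4, hz4⟩ := exists_satB hq4 β
  have hval : ∀ t ∈ T k, ∀ n ∈ E, ∀ z, q4.satB β z → ψ k t z (pl n) = ψ k t z4 (pl n) := by
    intro t ht n hn z hz
    obtain ⟨w, hw⟩ := hdec (t, n) (Finset.mem_product.2 ⟨ht, hn⟩)
    exact (hw z hz).trans (hw z4 hz4).symm
  have hz3 : q3.satB β z4 := hq4q3.satB hz4
  have hz2 : q2.satB β z4 := hq3q2.satB hz3
  have hzq : q.satB β z4 := res_satB.1 (hq2q.satB hz2)
  -- the letters are admissible for the limit promise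
  have hadm : ∀ n ∈ E, A.Adm (σ.take n) (σ.getD n 0) (u.getD (pl n) ∅) := by
    intro n hn
    have hn1 := Finset.mem_Ico.1 hn
    have h := hqle.new β z4 hzq n (by rw [put_σ_self]; exact hn1.1) hn1.2
    rw [put_φ_self] at h
    rw [← hφu z4 hz2 (pl n) (hplL n hn)]
    exact h
  -- the exceptional sets
  have hexB : ∀ n ∈ E, ∃ B ⊆ T k, B.card * 2 ^ (n + κ) ≤ (T k).card ∧
      ∀ t ∈ T k, t ∉ B → A.Adm (σ.take n) (σ.getD n 0) (ψ k t z4 (pl n)) := by
    intro n hn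
    have hn1 := Finset.mem_Ico.1 hn
    have hlt : pl n < u.length := by rw [hu]; exact hplL n hn
    obtain ⟨B, hB, hBc, hBt⟩ := hvy_spec (κ := κ) (m := m) (l := pl n) (T := T k)
      (v := fun t => ψ k t z4 (pl n)) (hT k) (fun t ht => hm k t ht z4 (pl n))
      (σ := σ.take n) (a := σ.getD n 0) (u := u.getD (pl n) ∅) rfl
      (by
        intro x hx hxn
        refine hhv (pl n) (u.getD (pl n) ∅) ?_ z4 hz3 x hx (hxn.trans_le (hnb n hn))
        rw [List.getElem?_eq_getElem hlt, List.getD_eq_getElem _ _ hlt]) (hadm n hn)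
    refine ⟨B, hB, ?_, hBt⟩
    rwa [List.length_take, min_eq_left hn1.2.le] at hBc
  choose! Bn hBn hBnc hBnt using hexB
  set B := B0 ∪ E.biUnion Bn with hBdef
  have hBsub : B ⊆ T k := by
    apply Finset.union_subset hB0
    intro t ht
    obtain ⟨n, hn, ht⟩ := Finset.mem_biUnion.1 ht
    exact hBn n hn ht
  have hBcard : (B.card : ℝ) ≤ (η + 2 * (1 / 2) ^ κ) * (T k).card := by
    have h1 : (B.card : ℝ) ≤ B0.card + ∑ n ∈ E, ((Bn n).card : ℝ) := by
      have h := (Finset.card_union_le B0 (E.biUnion Bn)).trans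
        (Nat.add_le_add_left Finset.card_biUnion_le _)
      exact_mod_cast h
    have h2 : ∀ n ∈ E, ((Bn n).card : ℝ) ≤ (T k).card * (1 / 2 : ℝ) ^ (n + κ) := by
      intro n hn
      have h := hBnc n hn
      have h' : ((Bn n).card : ℝ) * 2 ^ (n + κ) ≤ (T k).card := by exact_mod_cast h
      have h3 : (0 : ℝ) < 2 ^ (n + κ) := by positivity
      rw [one_div, inv_pow, ← div_eq_mul_inv, le_div_iff₀ h3]
      exact h'
    have h3 : ∑ n ∈ E, ((Bn n).card : ℝ) ≤ (T k).card * (2 * (1 / 2) ^ κ) := by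
      refine (Finset.sum_le_sum h2).trans ?_
      rw [← Finset.mul_sum]
      exact mul_le_mul_of_nonneg_left (sum_geo κ _ _) (by positivity)
    calc (B.card : ℝ) ≤ B0.card + ∑ n ∈ E, ((Bn n).card : ℝ) := h1
      _ ≤ η * (T k).card + (T k).card * (2 * (1 / 2) ^ κ) := add_le_add hB0c h3
      _ = _ := by ring
  -- amalgamation
  have h4q : q4.LE (res β q) := hq4q3.trans (hq3q2.trans hq2q)
  obtain ⟨q5, hq5, hq5q4, hq5q, -, -, -, hq5ge, -⟩ := exists_am hq4 hq hq4l' h4q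
  obtain ⟨q6, hq6, hq6q5, hq6φ, hq6σ⟩ := exists_addPros hq5 (β := β) (T k) (fun t => ψ k t) (hψ k)
  have hσ6 : q6.σ β = σ := (hq6σ β).trans (hq5ge β le_rfl).1
  refine ⟨k, hk, q6, hq6, hq6q5.trans hq5q, B, hBsub, hBcard, ?_⟩
  intro t ht htB
  have htB0 : t ∉ B0 := fun h => htB (Finset.mem_union_left _ h)
  have hle : q6.LE (a k t) := hq6q5.trans (hq5q4.trans (hq4q3.trans (hB0t t ht htB0)))
  have hleput : q6.LE (put β τ0 φ q0 hτ) := (hq6q5.trans hq5q).trans hqle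
  refine ⟨hle.c, ?_, ?_, ?_, ?_⟩
  · intro γ hγ
    rcases Finset.mem_insert.1 hγ with rfl | hγ
    · exact hleput.s (Finset.mem_insert_self _ _)
    · exact hle.s hγ
  · intro γ
    by_cases h : γ = β
    · subst h
      rw [put_σ_self]
      have := hleput.σ γ
      rwa [put_σ_self] at this
    · rw [put_σ_ne hτ h]
      exact hle.σ γ
  · intro γ z l
    by_cases h : γ = β
    · subst h
      rw [put_φ_self]
      exact hq6φ t ht z l
    · rw [put_φ_ne hτ h]
      exact hle.φ γ z l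
  · intro γ z hz n hn1 hn2
    by_cases h : γ = β
    · subst h
      rw [put_σ_self] at hn1
      rw [put_φ_self, hσ6]
      rw [hσ6] at hn2
      have hn : n ∈ E := Finset.mem_Ico.2 ⟨hn1, hn2⟩
      have hz' : q4.satB γ z := hq5q4.satB (hq6q5.satB hz)
      have htn : t ∉ Bn n := fun h => htB (Finset.mem_union_right _ (Finset.mem_biUnion.2 ⟨n, hn, h⟩))
      have h1 := hBnt n hn t ht htn
      have h2 := hval t ht n hn z hz'
      rw [← h2] at h1
      exact h1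
    · rw [put_σ_ne hτ h] at hn1
      rw [put_φ_ne hτ h]
      exact hle.new γ z hz n hn1 hn2

end

end Pool.Agent.SSM
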