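import Pool.Agent.SSM.Lim2

/-!
# Limits: all coordinates
-/

namespace Pool.Agent.SSM

open Set

/-- finite partial functions -/
def Fnl {I : Type} (C : Finset (I × ℕ × ℕ)) : Prop := ∀ i n a b, (i, n, a) ∈ C → (i, n, b) ∈ C → a = b

section
variable {A : Itd} {I Ω : Type} [LinearOrder Ω] [WellFoundedLT Ω] {τ : Type}

/-- the condition which only consists of a Cohen part -/
private def lim3Base (r : Finset (I × ℕ × ℕ)) (hr : Fnl r) : Pre A I Ω where
  c := r
  s := ∅
  σ := fun _ => []
  φ := fun _ _ _ => ∅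
  fn := hr
  out := fun _ _ => ⟨rfl, fun _ _ => rfl⟩
  leg := by
    intro β n hn
    simp at hn

/-- the condition with the Cohen part replaced -/
private def lim3Set (p : Pre A I Ω) (C : Finset (I × ℕ × ℕ)) (hC : Fnl C) : Pre A I Ω where
  c := C
  s := p.s
  σ := p.σ
  φ := p.φ
  fn := hC
  out := p.out
  leg := p.leg

omit [WellFoundedLT Ω] in
open Classical in
private theorem lim3_put {β : Ω} {s' : Finset Ω} {p : Pre A I Ω} (hlt : ∀ x ∈ s', x < β)
    (hs : p.s = insert β s') {τ0 : List ℕ} (hσ : p.σ β = τ0)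
    (hτ : ∀ n, n < τ0.length → A.Adm (τ0.take n) (τ0.getD n 0) ∅) :
    put β τ0 (p.φ β) (res β p) hτ = p := by
  have hout : ∀ γ, β < γ → γ ∉ p.s := by
    intro γ hγ hmem
    rw [hs, Finset.mem_insert] at hmem
    rcases hmem with h | h
    · exact absurd (h ▸ hγ) (lt_irrefl _)
    · exact absurd (hγ.trans (hlt γ h)) (lt_irrefl _)
  have e1 : (put β τ0 (p.φ β) (res β p) hτ).s = p.s := by
    change insert β (res β p).s = p.s
    ext γ
    rw [Finset.mem_insert]
    change (γ = β ∨ γ ∈ p.s.filter (· < β)) ↔ γ ∈ p.s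
    rw [Finset.mem_filter, hs, Finset.mem_insert]
    constructor
    · rintro (h | h)
      · exact Or.inl h
      · exact h.1
    · rintro (h | h)
      · exact Or.inl h
      · exact Or.inr ⟨Or.inr h, hlt γ h⟩
  have e2 : (put β τ0 (p.φ β) (res β p) hτ).σ = p.σ := by
    change Function.update (res β p).σ β τ0 = p.σ
    funext γ
    by_cases h : γ = β
    · subst h
      rw [Function.update_self]
      exact hσ.symm
    · rw [Function.update_of_ne h]
      rcases lt_or_gt_of_ne h with h1 | h1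
      · exact res_σ h1 p
      · change (if γ < β then p.σ γ else []) = p.σ γ
        rw [if_neg (not_lt.2 h1.le)]
        exact (p.out γ (hout γ h1)).1.symm
  have e3 : (put β τ0 (p.φ β) (res β p) hτ).φ = p.φ := by
    change Function.update (res β p).φ β (p.φ β) = p.φ
    funext γ
    by_cases h : γ = β
    · subst h
      rw [Function.update_self]
    · rw [Function.update_of_ne h]
      rcases lt_or_gt_of_ne h with h1 | h1
      · exact res_φ h1 p
      · change (if γ < β then p.φ γ else fun _ _ => ∅) = p.φ γ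
        rw [if_neg (not_lt.2 h1.le)]
        funext z l
        exact ((p.out γ (hout γ h1)).2 z l).symm
  exact Pre.ext rfl e1 e2 e3

open Classical in
private theorem lim3_aux {T : ℕ → Finset τ} (hT : ∀ k, A.Tok (T k).card) {m : ℕ}
    {r : Finset (I × ℕ × ℕ)} (hr : Fnl r) {σ0 : Ω → List ℕ} (κ : ℕ) (s : Finset Ω) :
    ∀ p : ℕ → τ → Pre A I Ω,
      (∀ k, ∀ t ∈ T k, p k t ∈ PP A I Ω) → (∀ k, ∀ t ∈ T k, (p k t).s = s) →
      (∀ k, ∀ t ∈ T k, ∀ β ∈ s, (p k t).σ β = σ0 β) →
      (∀ β ∈ s, ∀ n, n < (σ0 β).length → A.Adm ((σ0 β).take n) ((σ0 β).getD n 0) ∅) →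
      (∀ k, ∀ t ∈ T k, ∀ β z l, A.Leg m l ((p k t).φ β z l)) →
      (∀ C, r ⊆ C → Fnl C → ∀ N, ∃ k ≥ N, Fnl (C ∪ (T k).biUnion (fun t => (p k t).c))) →
      ∃ q ∈ PP A I Ω, q.s ⊆ s ∧ Lmt T p (s.card * (2 * (1 / 2) ^ κ)) q := by
  induction s using Finset.induction_on_max with
  | empty =>
    intro p hp hs _ _ _ hC
    refine ⟨lim3Base r hr, ?_, ?_, ?_⟩
    · intro γ hγ
      exact absurd hγ (Finset.notMem_empty γ)
    · exact Finset.Subset.refl _
    · intro q' hq' hle N
      obtain ⟨k, hk, hF⟩ := hC q'.c hle.c q'.fn N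
      refine ⟨k, hk, lim3Set q' _ hF, fun γ hγ => hq' γ hγ, ?_, ∅, Finset.empty_subset _, ?_, ?_⟩
      · exact
          { c := Finset.subset_union_left
            s := Finset.Subset.refl _
            σ := fun β => List.prefix_rfl
            φ := fun β z l => Finset.Subset.refl _
            new := fun β z _ n h1 h2 => absurd h2 (not_lt.2 h1) }
      · simp
      · intro t ht _
        have ho : ∀ γ, (p k t).σ γ = [] ∧ ∀ z l, (p k t).φ γ z l = ∅ := fun γ =>
          (p k t).out γ (by rw [hs k t ht]; exact Finset.notMem_empty γ)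
        exact
          { c := by
              intro x hx
              exact Finset.mem_union_right _ (Finset.mem_biUnion.2 ⟨t, ht, hx⟩)
            s := by rw [hs k t ht]; exact Finset.empty_subset _
            σ := fun β => by rw [(ho β).1]; exact List.nil_prefix
            φ := fun β z l => by rw [(ho β).2]; exact Finset.empty_subset _
            new := fun β z _ n _ h2 => by
              rw [(ho β).2]
              exact (lim3Set q' _ hF).leg β n h2 }
  | insert β s' hlt ih =>
    intro p hp hs hσ hleg hm hC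
    have hβ : β ∉ s' := fun h => absurd (hlt β h) (lt_irrefl β)
    have hmem : β ∈ insert β s' := Finset.mem_insert_self _ _
    obtain ⟨q0, hq0, hq0s, hL⟩ := ih (fun k t => res β (p k t))
      (fun k t ht => res_mem (hp k t ht))
      (fun k t ht => by
        change (p k t).s.filter (· < β) = s'
        rw [hs k t ht]
        ext γ
        rw [Finset.mem_filter, Finset.mem_insert]
        constructor
        · rintro ⟨h | h, h1⟩
          · exact absurd (h ▸ h1) (lt_irrefl _)
          · exact h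
        · intro h
          exact ⟨Or.inr h, hlt γ h⟩)
      (fun k t ht γ hγ => by
        rw [res_σ (hlt γ hγ)]
        exact hσ k t ht γ (Finset.mem_insert_of_mem hγ))
      (fun γ hγ => hleg γ (Finset.mem_insert_of_mem hγ))
      (fun k t ht γ z l => by
        change A.Leg m l ((if γ < β then (p k t).φ γ else fun _ _ => ∅) z l)
        by_cases h : γ < β
        · rw [if_pos h]
          exact hm k t ht γ z l
        · rw [if_neg h]
          exact A.leg_empty m l)
      hC
    obtain ⟨φ, hφ, hL'⟩ := lim_step (β := β) (ψ := fun k t => (p k t).φ β) (m := m) κ hT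
      (fun k t ht => ⟨res_mem (hp k t ht), res_low β (p k t)⟩)
      (fun k t ht => hp k t ht β (by rw [hs k t ht]; exact hmem))
      (fun k t ht z l => hm k t ht β z l)
      hq0 (fun γ hγ => hlt γ (hq0s hγ)) hL (σ0 β) (hleg β hmem)
    refine ⟨put β (σ0 β) φ q0 (hleg β hmem), ?_, ?_, ?_⟩
    · intro γ hγ
      change Function.update q0.φ β φ γ ∈ Nm A I γ
      by_cases h : γ = β
      · subst h
        rw [Function.update_self]
        exact hφ
      · rw [Function.update_of_ne h]
        have hγ' : γ ∈ insert β q0.s := hγ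
        rw [Finset.mem_insert] at hγ'
        exact hq0 γ (hγ'.resolve_left h)
    · intro γ hγ
      have hγ' : γ ∈ insert β q0.s := hγ
      rw [Finset.mem_insert] at hγ' ⊢
      exact hγ'.imp id (fun h => hq0s h)
    · intro q' hq' hle N
      obtain ⟨k, hk, q'', hq'', hle'', B, hB, hBc, hBt⟩ := hL' q' hq' hle N
      refine ⟨k, hk, q'', hq'', hle'', B, hB, ?_, ?_⟩
      · have e : (((insert β s').card : ℕ) : ℝ) * (2 * (1 / 2) ^ κ) =
            (s'.card : ℝ) * (2 * (1 / 2) ^ κ) + 2 * (1 / 2) ^ κ := by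
          rw [Finset.card_insert_of_notMem hβ]
          push_cast
          ring
        rw [e]
        exact hBc
      · intro t ht htB
        have h : q''.LE (put β (σ0 β) ((p k t).φ β) (res β (p k t)) (hleg β hmem)) := hBt t ht htB
        rwa [lim3_put hlt (hs k t ht) (hσ k t ht β hmem) (hleg β hmem)] at h

open Classical in
theorem exists_limit {T : ℕ → Finset τ} (hT : ∀ k, A.Tok (T k).card) {p : ℕ → τ → Pre A I Ω}
    {s : Finset Ω} {σ0 : Ω → List ℕ} {m : ℕ} {r : Finset (I × ℕ × ℕ)}
    (hp : ∀ k, ∀ t ∈ T k, p k t ∈ PP A I Ω) (hs : ∀ k, ∀ t ∈ T k, (p k t).s = s)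
    (hσ : ∀ k, ∀ t ∈ T k, ∀ β ∈ s, (p k t).σ β = σ0 β)
    (hleg : ∀ β ∈ s, ∀ n, n < (σ0 β).length → A.Adm ((σ0 β).take n) ((σ0 β).getD n 0) ∅)
    (hm : ∀ k, ∀ t ∈ T k, ∀ β z l, A.Leg m l ((p k t).φ β z l)) (hr : Fnl r)
    (hC : ∀ C, r ⊆ C → Fnl C → ∀ N, ∃ k ≥ N, Fnl (C ∪ (T k).biUnion (fun t => (p k t).c))) (κ : ℕ) :
    ∃ q ∈ PP A I Ω, Lmt T p (s.card * (2 * (1 / 2) ^ κ)) q := by
  obtain ⟨q, hq, _, hL⟩ := lim3_aux hT hr κ s p hp hs hσ hleg hm hC
  exact ⟨q, hq, hL⟩

end

end Pool.Agent.SSM
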