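import Pool.Agent.SSM.Ccc

/-!
# Names from trees of decisions
-/

namespace Pool.Agent.SSM

open Set

section

set_option linter.unusedSectionVars false

variable {A : Itd} {I Ω : Type} [LinearOrder Ω] [WellFoundedLT Ω]

/-- the trivial condition -/
private def nameTriv : Pre A I Ω where
  c := ∅
  s := ∅
  σ := fun _ => []
  φ := fun _ _ _ => ∅
  fn := fun _ _ _ _ h => absurd h (by simp)
  out := fun _ _ => ⟨rfl, fun _ _ => rfl⟩
  leg := fun _ n hn => absurd hn (by simp)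

private theorem nameTriv_mem : (nameTriv : Pre A I Ω) ∈ PP A I Ω := fun γ hγ => absurd hγ (by simp [nameTriv])

private theorem nameTriv_low (β : Ω) : (nameTriv : Pre A I Ω).Low β := fun γ hγ =>
  absurd hγ (by simp [nameTriv])

private theorem le_nameTriv (p : Pre A I Ω) : p.LE nameTriv where
  c := Finset.empty_subset _
  s := Finset.empty_subset _
  σ := fun _ => List.nil_prefix
  φ := fun _ _ _ => Finset.empty_subset _
  new := fun β _ _ n _ hn => p.leg β n hn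

/-- the tree of antichains -/
private theorem nameTree {W : Set (Pre A I Ω)} (hW : W ⊆ PP A I Ω) (ht : nameTriv ∈ W)
    (hres : ∀ p ∈ W, ∀ q ∈ W, ∀ r ∈ PP A I Ω, r.LE p → r.LE q → ∃ r' ∈ W, r'.LE p ∧ r'.LE q)
    {S : Set (Pre A I Ω × List (Finset ℕ))} (h0 : ∀ q ∈ W, (q, []) ∈ S)
    (hd : ∀ q u, (q, u) ∈ S → ∀ q' ∈ W, q'.LE q → (q', u) ∈ S)
    (he : ∀ q u, q ∈ W → (q, u) ∈ S → ∃ q' ∈ W, q'.LE q ∧ ∃ v, (q', u ++ [v]) ∈ S) :
    ∃ E : ℕ → ℕ → Pre A I Ω × List (Finset ℕ),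
      (∀ l i, (E l i).1 ∈ W ∧ E l i ∈ S ∧ (E l i).2.length = l) ∧
      (∀ l i j, E l i ≠ E l j → ¬ ∃ r ∈ W, r.LE (E l i).1 ∧ r.LE (E l j).1) ∧
      (∀ l, ∀ p ∈ W, ∃ i, ∃ r ∈ W, r.LE p ∧ r.LE (E l i).1) ∧
      ∀ l i, ∃ j v, (E (l + 1) i).1.LE (E l j).1 ∧ (E (l + 1) i).2 = (E l j).2 ++ [v] := by
  classical
  let G : ℕ → (ℕ → Pre A I Ω × List (Finset ℕ)) → Prop := fun l f =>
    (∀ i, (f i).1 ∈ W ∧ f i ∈ S ∧ (f i).2.length = l) ∧
    (∀ i j, f i ≠ f j → ¬ ∃ r ∈ W, r.LE (f i).1 ∧ r.LE (f j).1) ∧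
    ∀ p ∈ W, ∃ i, ∃ r ∈ W, r.LE p ∧ r.LE (f i).1
  have base : G 0 (fun _ => (nameTriv, [])) :=
    ⟨fun _ => ⟨ht, h0 _ ht, rfl⟩, fun _ _ h => absurd rfl h,
      fun p hp => ⟨0, p, hp, Pre.LE.refl p, le_nameTriv p⟩⟩
  have step : ∀ l (f : {f // G l f}), ∃ f' : {f // G (l + 1) f}, ∀ i, ∃ j v,
      (f'.1 i).1.LE (f.1 j).1 ∧ (f'.1 i).2 = (f.1 j).2 ++ [v] := by
    rintro l ⟨f, hf1, hf2, hf3⟩
    let D : Set (Pre A I Ω) := {a | a ∈ W ∧ ∃ j v, a.LE (f j).1 ∧ (a, (f j).2 ++ [v]) ∈ S}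
    have hDW : D ⊆ W := fun a ha => ha.1
    have hD : ∀ p ∈ W, ∃ q ∈ D, q.LE p := by
      intro p hp
      obtain ⟨i, r, hr, hrp, hri⟩ := hf3 p hp
      obtain ⟨r', hr', hle, v, hv⟩ := he r (f i).2 hr (hd (f i).1 (f i).2 (hf1 i).2.1 r hr hri)
      exact ⟨r', ⟨hr', i, v, Pre.LE.trans hle hri, hv⟩, Pre.LE.trans hle hrp⟩
    obtain ⟨E, hED, hEc, hEa, hEm⟩ := exists_antichain hW hDW hres hD
    have hEne : E.Nonempty := by
      obtain ⟨a, ha, -⟩ := hEm _ ht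
      exact ⟨a, ha⟩
    obtain ⟨g, hg⟩ := hEc.exists_eq_range hEne
    have hgE : ∀ i, g i ∈ E := fun i => by rw [hg]; exact mem_range_self i
    have hgD : ∀ i, g i ∈ D := fun i => hED (hgE i)
    have hch : ∀ a : Pre A I Ω, ∃ w : ℕ × Finset ℕ, a ∈ D → a.LE (f w.1).1 ∧ (a, (f w.1).2 ++ [w.2]) ∈ S := by
      intro a
      by_cases ha : a ∈ D
      · obtain ⟨-, j, v, h1, h2⟩ := ha
        exact ⟨(j, v), fun _ => ⟨h1, h2⟩⟩
      · exact ⟨(0, ∅), fun h => absurd h ha⟩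
    choose w hw using hch
    refine ⟨⟨fun i => (g i, (f (w (g i)).1).2 ++ [(w (g i)).2]), ?_, ?_, ?_⟩, ?_⟩
    · intro i
      refine ⟨(hgD i).1, (hw _ (hgD i)).2, ?_⟩
      simp [(hf1 (w (g i)).1).2.2]
    · intro i j hij
      refine hEa (g i) (hgE i) (g j) (hgE j) ?_
      intro h
      apply hij
      simp only [h]
    · intro p hp
      obtain ⟨a, ha, r, hr, h1, h2⟩ := hEm p hp
      rw [hg] at ha
      obtain ⟨i, rfl⟩ := ha
      exact ⟨i, r, hr, h1, h2⟩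
    · intro i
      exact ⟨(w (g i)).1, (w (g i)).2, (hw _ (hgD i)).1, rfl⟩
  choose nx hnx using step
  let F : (l : ℕ) → {f // G l f} := fun l =>
    Nat.rec (motive := fun l => {f // G l f}) ⟨_, base⟩ (fun l f => nx l f) l
  refine ⟨fun l => (F l).1, fun l i => (F l).2.1 i, fun l i j => (F l).2.2.1 i j,
    fun l => (F l).2.2.2, fun l i => ?_⟩
  exact hnx l (F l) i

/-- ancestors in the tree -/
private theorem nameAnc {E : ℕ → ℕ → Pre A I Ω × List (Finset ℕ)}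
    (hlen : ∀ l i, (E l i).2.length = l)
    (hE : ∀ l i, ∃ j v, (E (l + 1) i).1.LE (E l j).1 ∧ (E (l + 1) i).2 = (E l j).2 ++ [v]) :
    ∀ L i l, l ≤ L → ∃ j, (E L i).1.LE (E l j).1 ∧ (E l j).2 = (E L i).2.take l := by
  intro L
  induction L with
  | zero =>
    intro i l hl
    obtain rfl : l = 0 := Nat.le_zero.1 hl
    refine ⟨i, Pre.LE.refl _, ?_⟩
    rw [List.take_zero]
    exact List.length_eq_zero_iff.1 (hlen 0 i)
  | succ L ih =>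
    intro i l hl
    rcases Nat.lt_or_ge L l with h | h
    · obtain rfl : l = L + 1 := by omega
      refine ⟨i, Pre.LE.refl _, ?_⟩
      rw [List.take_of_length_le (hlen _ _).le]
    · obtain ⟨j, v, h1, h2⟩ := hE L i
      obtain ⟨j', h3, h4⟩ := ih j l h
      refine ⟨j', Pre.LE.trans h1 h3, ?_⟩
      rw [h4, h2, List.take_append_of_le_length (by rw [hlen]; exact h)]

open Classical in
/-- the value at the first index with a property -/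
private noncomputable def nameFst (P : ℕ → Prop) (w : ℕ → Finset ℕ) : Finset ℕ :=
  if ∃ i, P i then w (sInf {i | P i}) else ∅

private theorem nameFst_eq {P : ℕ → Prop} (w : ℕ → Finset ℕ) (h : ∃ i, P i) :
    nameFst P w = w (sInf {i | P i}) := if_pos h

/-- satisfaction below `β` depends only on the point below `β` -/
private theorem name_satB {p : Pre A I Ω} (hp : p ∈ PP A I Ω) {β : Ω} {z z' : Pnt I Ω} (h1 : z.1 = z'.1)
    (h2 : ∀ γ < β, z.2 γ = z'.2 γ) (h : p.satB β z) : p.satB β z' := by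
  refine ⟨fun i n a ha => by rw [← h1]; exact h.1 i n a ha, fun γ hγ => ?_⟩
  have hdep : p.φ γ z = p.φ γ z' :=
    (mem_Nm.1 (PP.name hp γ)).1 z z' h1 (fun δ hδ => h2 δ (hδ.trans hγ))
  have h3 := h.2 γ hγ
  unfold Pre.satAt at h3 ⊢
  rw [h2 γ hγ, hdep] at h3
  exact h3

/-- the common core of the two theorems -/
private theorem nameCore {β : Ω} {W : Set (Pre A I Ω)} {S : Set (Pre A I Ω × List (Finset ℕ))} {M : ℕ}
    (hW : W ⊆ PP A I Ω) (hd : ∀ q u, (q, u) ∈ S → ∀ q' ∈ W, q'.LE q → (q', u) ∈ S)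
    (hM : ∀ q u, (q, u) ∈ S → ∀ l v, u[l]? = some v → A.Leg M l v)
    {E : ℕ → ℕ → Pre A I Ω × List (Finset ℕ)}
    (hE1 : ∀ l i, (E l i).1 ∈ W ∧ E l i ∈ S ∧ (E l i).2.length = l)
    (hE2 : ∀ l i j, E l i ≠ E l j → ¬ ∃ r ∈ W, r.LE (E l i).1 ∧ r.LE (E l j).1)
    (hE3 : ∀ l, ∀ p ∈ W, ∃ i, ∃ r ∈ W, r.LE p ∧ r.LE (E l i).1)
    (hE4 : ∀ l i, ∃ j v, (E (l + 1) i).1.LE (E l j).1 ∧ (E (l + 1) i).2 = (E l j).2 ++ [v])
    (hsep : ∀ r ∈ W, ∀ l i, (¬ ∃ r' ∈ W, r'.LE r ∧ r'.LE (E l i).1) →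
      ∃ t ∈ W, t.LE r ∧ ∀ z, t.satB β z → ¬ (E l i).1.satB β z)
    (hlow : ∀ r ∈ W, ∀ p ∈ PP A I Ω, p.Low β → r.LE p → ∃ t ∈ PP A I Ω, t.Low β ∧ t.LE p ∧
      ∀ z, t.satB β z → r.satB β z)
    (hin : ∀ p ∈ PP A I Ω, p.Low β → p ∈ W) :
    ∃ φ ∈ Nm A I β, (∀ z l, A.Leg M l (φ z l)) ∧ ∀ q ∈ W, ∀ L,
      ∃ q' ∈ W, q'.LE q ∧ ∃ u, u.length = L ∧ (q', u) ∈ S ∧
        ∀ z, q'.satB β z → ∀ l < L, φ z l = u.getD l ∅ := by
  classical
  let φ : Pro I Ω := fun z l =>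
    nameFst (fun i => (E (l + 1) i).1.satB β z) (fun i => (E (l + 1) i).2.getD l ∅)
  have hdep : Dep φ β := by
    intro z z' h1 h2
    funext l
    have : (fun i => (E (l + 1) i).1.satB β z) = fun i => (E (l + 1) i).1.satB β z' := by
      funext i
      exact propext ⟨name_satB (hW (hE1 _ _).1) h1 h2,
        name_satB (hW (hE1 _ _).1) h1.symm (fun γ hγ => (h2 γ hγ).symm)⟩
    show nameFst _ _ = nameFst _ _
    rw [this]
  have hleg : ∀ z l, A.Leg M l (φ z l) := by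
    intro z l
    show A.Leg M l (nameFst _ _)
    unfold nameFst
    split_ifs with h
    · obtain ⟨-, h1, h2⟩ := hE1 (l + 1) (sInf {i | (E (l + 1) i).1.satB β z})
      refine hM _ _ h1 l _ ?_
      show (E (l + 1) (sInf {i | (E (l + 1) i).1.satB β z})).2[l]? =
        some ((E (l + 1) (sInf {i | (E (l + 1) i).1.satB β z})).2.getD l ∅)
      rw [List.getD_eq_getElem?_getD, List.getElem?_eq_getElem (by rw [h2]; exact Nat.lt_succ_self l)]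
      rfl
    · exact A.leg_empty _ _
  -- finitely many separations
  have hseps : ∀ (F : Finset (ℕ × ℕ)) (r : Pre A I Ω), r ∈ W →
      (∀ x ∈ F, ¬ ∃ r' ∈ W, r'.LE r ∧ r'.LE (E x.1 x.2).1) →
      ∃ t ∈ W, t.LE r ∧ ∀ x ∈ F, ∀ z, t.satB β z → ¬ (E x.1 x.2).1.satB β z := by
    intro F r hr
    induction F using Finset.induction_on with
    | empty => exact fun _ => ⟨r, hr, Pre.LE.refl r, fun x hx => absurd hx (by simp)⟩
    | insert x F _ ih =>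
      intro hF
      obtain ⟨t, ht, htr, h1⟩ := ih (fun y hy => hF y (Finset.mem_insert_of_mem hy))
      obtain ⟨t', ht', htt, h2⟩ := hsep t ht x.1 x.2 (by
        rintro ⟨r', hr', h3, h4⟩
        exact hF x (Finset.mem_insert_self x F) ⟨r', hr', Pre.LE.trans h3 htr, h4⟩)
      refine ⟨t', ht', Pre.LE.trans htt htr, ?_⟩
      intro y hy z hz
      rcases Finset.mem_insert.1 hy with rfl | hy
      · exact h2 z hz
      · exact h1 y hy z (htt.satB hz)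
  have hmain : ∀ q ∈ W, ∀ L, ∃ q' ∈ W, q'.LE q ∧ ∃ u, u.length = L ∧ (q', u) ∈ S ∧
        ∀ z, q'.satB β z → ∀ l < L, φ z l = u.getD l ∅ := by
    intro q hq L
    obtain ⟨i, r, hr, hrq, hri⟩ := hE3 L q hq
    have hanc : ∀ l, ∃ j, l < L → (E L i).1.LE (E (l + 1) j).1 ∧ (E (l + 1) j).2 = (E L i).2.take (l + 1) := by
      intro l
      by_cases hl : l < L
      · obtain ⟨j, h1, h2⟩ := nameAnc (fun l i => (hE1 l i).2.2) hE4 L i (l + 1) hl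
        exact ⟨j, fun _ => ⟨h1, h2⟩⟩
      · exact ⟨0, fun h => absurd h hl⟩
    choose j hj using hanc
    let F : Finset (ℕ × ℕ) := (Finset.range L).biUnion (fun l =>
      ((Finset.range (j l)).filter (fun i' => E (l + 1) i' ≠ E (l + 1) (j l))).image (fun i' => (l + 1, i')))
    have hF : ∀ x, x ∈ F ↔ ∃ l < L, ∃ i' < j l, E (l + 1) i' ≠ E (l + 1) (j l) ∧ (l + 1, i') = x := by
      intro x
      simp only [F, Finset.mem_biUnion, Finset.mem_image, Finset.mem_filter, Finset.mem_range, and_assoc]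
    obtain ⟨t, ht, htr, h1⟩ := hseps F r hr (by
      intro x hx
      obtain ⟨l, hl, i', hi', hne, rfl⟩ := (hF x).1 hx
      rintro ⟨r', hr', h3, h4⟩
      exact hE2 (l + 1) i' (j l) hne ⟨r', hr', h4, Pre.LE.trans h3 (Pre.LE.trans hri (hj l hl).1)⟩)
    refine ⟨t, ht, Pre.LE.trans htr hrq, (E L i).2, (hE1 L i).2.2,
      hd _ _ (hE1 L i).2.1 t ht (Pre.LE.trans htr hri), ?_⟩
    intro z hz l hl
    have hsatj : (E (l + 1) (j l)).1.satB β z :=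
      (Pre.LE.trans htr (Pre.LE.trans hri (hj l hl).1)).satB hz
    have hex : ∃ i', (E (l + 1) i').1.satB β z := ⟨j l, hsatj⟩
    show nameFst _ _ = _
    rw [nameFst_eq _ hex]
    have hsat0 : (E (l + 1) (sInf {i' | (E (l + 1) i').1.satB β z})).1.satB β z := Nat.sInf_mem hex
    have hle0 : sInf {i' | (E (l + 1) i').1.satB β z} ≤ j l := Nat.sInf_le hsatj
    have heq : E (l + 1) (sInf {i' | (E (l + 1) i').1.satB β z}) = E (l + 1) (j l) := by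
      by_contra hne
      have hlt : sInf {i' | (E (l + 1) i').1.satB β z} < j l := by
        refine lt_of_le_of_ne hle0 ?_
        intro h
        exact hne (by rw [h])
      exact h1 _ ((hF _).2 ⟨l, hl, _, hlt, hne, rfl⟩) z hz hsat0
    rw [heq, (hj l hl).2]
    rw [List.getD_eq_getElem?_getD, List.getD_eq_getElem?_getD, List.getElem?_take_of_lt (Nat.lt_succ_self l)]
  refine ⟨φ, ?_, hleg, hmain⟩
  rw [mem_Nm]
  refine ⟨hdep, ⟨M, hleg⟩, ?_⟩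
  intro l p hp hl
  obtain ⟨q', hq', hqp, u, -, -, h1⟩ := hmain p (hin p hp hl) (l + 1)
  obtain ⟨t, ht, htl, htp, h2⟩ := hlow q' hq' p hp hl hqp
  refine ⟨t, ht, htl, htp, ?_⟩
  intro z z' hz hz'
  rw [h1 z (h2 z hz) l (Nat.lt_succ_self l), h1 z' (h2 z' hz') l (Nat.lt_succ_self l)]

/-- A tree of decisions below `β` gives a name at `β`. The members of `S` are pairs of a condition and a
list of values which it allows. -/
theorem exists_name {β : Ω} {S : Set (Pre A I Ω × List (Finset ℕ))} {M : ℕ}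
    (h0 : ∀ q ∈ PP A I Ω, q.Low β → (q, []) ∈ S)
    (hd : ∀ q u, (q, u) ∈ S → ∀ q' ∈ PP A I Ω, q'.Low β → q'.LE q → (q', u) ∈ S)
    (he : ∀ q u, q ∈ PP A I Ω → q.Low β → (q, u) ∈ S →
      ∃ q' ∈ PP A I Ω, q'.Low β ∧ q'.LE q ∧ ∃ v, (q', u ++ [v]) ∈ S)
    (hM : ∀ q u, (q, u) ∈ S → ∀ l v, u[l]? = some v → A.Leg M l v) :
    ∃ φ ∈ Nm A I β, (∀ z l, A.Leg M l (φ z l)) ∧ ∀ q ∈ PP A I Ω, q.Low β → ∀ L,
      ∃ q' ∈ PP A I Ω, q'.Low β ∧ q'.LE q ∧ ∃ u, u.length = L ∧ (q', u) ∈ S ∧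
        ∀ z, q'.satB β z → ∀ l < L, φ z l = u.getD l ∅ := by
  let W : Set (Pre A I Ω) := {p | p ∈ PP A I Ω ∧ p.Low β}
  have hW : W ⊆ PP A I Ω := fun p hp => hp.1
  have hd' : ∀ q u, (q, u) ∈ S → ∀ q' ∈ W, q'.LE q → (q', u) ∈ S :=
    fun q u h q' hq' hle => hd q u h q' hq'.1 hq'.2 hle
  obtain ⟨E, hE1, hE2, hE3, hE4⟩ := nameTree (W := W) (S := S) hW ⟨nameTriv_mem, nameTriv_low β⟩
    (fun p hp q hq r hr h1 h2 => ⟨res β r, ⟨res_mem hr, res_low β r⟩, res_le h1 hp.2, res_le h2 hq.2⟩)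
    (fun q hq => h0 q hq.1 hq.2) hd'
    (fun q u hq hS => by
      obtain ⟨q', h1, h2, h3, v, h4⟩ := he q u hq.1 hq.2 hS
      exact ⟨q', ⟨h1, h2⟩, h3, v, h4⟩)
  obtain ⟨φ, hφ, h1, h2⟩ := nameCore (β := β) (W := W) (S := S) (M := M) hW hd' hM hE1 hE2 hE3 hE4
    (by
      intro r hr l i hinc
      obtain ⟨t, ht, htl, htr, h⟩ := exists_sep hr.1 (hE1 l i).1.1 hr.2 (hE1 l i).1.2
      rcases h with h | h
      · exact absurd ⟨t, ⟨ht, htl⟩, htr, h⟩ hinc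
      · exact ⟨t, ⟨ht, htl⟩, htr, h⟩)
    (fun r hr p _ _ hrp => ⟨r, hr.1, hr.2, hrp, fun _ h => h⟩)
    (fun p hp hl => ⟨hp, hl⟩)
  refine ⟨φ, hφ, h1, ?_⟩
  intro q hq hl L
  obtain ⟨q', hq', h3, u, h4, h5, h6⟩ := h2 q ⟨hq, hl⟩ L
  exact ⟨q', hq'.1, hq'.2, h3, u, h4, h5, h6⟩

/-- A tree of decisions gives a name at some coordinate. -/
theorem exists_name_glob (hΩ : ∀ C : Set Ω, C.Countable → ∃ β, ∀ γ ∈ C, γ < β)
    {S : Set (Pre A I Ω × List (Finset ℕ))} {M : ℕ}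
    (h0 : ∀ q ∈ PP A I Ω, (q, []) ∈ S)
    (hd : ∀ q u, (q, u) ∈ S → ∀ q' ∈ PP A I Ω, q'.LE q → (q', u) ∈ S)
    (he : ∀ q u, q ∈ PP A I Ω → (q, u) ∈ S → ∃ q' ∈ PP A I Ω, q'.LE q ∧ ∃ v, (q', u ++ [v]) ∈ S)
    (hM : ∀ q u, (q, u) ∈ S → ∀ l v, u[l]? = some v → A.Leg M l v) :
    ∃ β, ∃ φ ∈ Nm A I β, (∀ z l, A.Leg M l (φ z l)) ∧ ∀ q ∈ PP A I Ω, ∀ L,
      ∃ q' ∈ PP A I Ω, q'.LE q ∧ ∃ u, u.length = L ∧ (q', u) ∈ S ∧
        ∀ z, q'.satB β z → ∀ l < L, φ z l = u.getD l ∅ := by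
  obtain ⟨E, hE1, hE2, hE3, hE4⟩ := nameTree (W := PP A I Ω) (S := S) Subset.rfl nameTriv_mem
    (fun p _ q _ r hr h1 h2 => ⟨r, hr, h1, h2⟩) h0 hd he
  obtain ⟨β, hβ⟩ := hΩ (⋃ l : ℕ, ⋃ i : ℕ, ((E l i).1.s : Set Ω))
    (countable_iUnion fun l => countable_iUnion fun i => (E l i).1.s.countable_toSet)
  have hlowE : ∀ l i, (E l i).1.Low β := fun l i γ hγ => hβ γ (mem_iUnion.2 ⟨l, mem_iUnion.2 ⟨i, hγ⟩⟩)
  refine ⟨β, ?_⟩
  exact nameCore (β := β) (W := PP A I Ω) (S := S) (M := M) Subset.rfl hd hM hE1 hE2 hE3 hE4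
    (by
      intro r hr l i hinc
      obtain ⟨r', hr', hrl', hrr', h⟩ := exists_sep (res_mem hr) (hE1 l i).1 (res_low β r) (hlowE l i)
      obtain ⟨t, ht, h1, h2, -⟩ := exists_am hr' hr hrl' hrr'
      rcases h with h | h
      · exact absurd ⟨t, ht, h2, Pre.LE.trans h1 h⟩ hinc
      · exact ⟨t, ht, h2, fun z hz => h z (h1.satB hz)⟩)
    (fun r hr p _ hl hrp => ⟨res β r, res_mem hr, res_low β r, res_le hrp hl, fun _ h => res_satB.1 h⟩)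
    (fun p hp _ => hp)

end

end Pool.Agent.SSM
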