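import Pool.Agent.SSM.Res

/-!
# Every condition is satisfied by a point
-/

namespace Pool.Agent.SSM

open Set

section
variable {A : Itd} {I Ω : Type} [LinearOrder Ω] [WellFoundedLT Ω]

/-- promises of a condition are legal for one index -/
theorem exists_leg_index {p : Pre A I Ω} (hp : p ∈ PP A I Ω) (γ : Ω) :
    ∃ m, ∀ z l, A.Leg m l (p.φ γ z l) := by
  by_cases h : γ ∈ p.s
  · exact (mem_Nm.1 (hp γ h)).2.1
  · refine ⟨0, fun z l => ?_⟩
    rw [(p.out γ h).2 z l]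
    exact A.leg_empty 0 l

/-- promises of a condition depend only on the point below the coordinate -/
theorem promise_dep {p : Pre A I Ω} (hp : p ∈ PP A I Ω) (γ : Ω) : Dep (p.φ γ) γ := by
  by_cases h : γ ∈ p.s
  · exact (mem_Nm.1 (hp γ h)).1
  · intro z z' _ _
    funext l
    rw [(p.out γ h).2 z l, (p.out γ h).2 z' l]

/-- there is always an admissible next letter -/
theorem exists_next {p : Pre A I Ω} (hp : p ∈ PP A I Ω) (γ : Ω) (z : Pnt I Ω) (τ : List ℕ) :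
    ∃ a, A.Adm τ a (p.φ γ z (A.pos τ a)) := by
  obtain ⟨m, hm⟩ := exists_leg_index hp γ
  obtain ⟨l, hl⟩ := A.ext τ m
  obtain ⟨a, ha, ha'⟩ := hl (p.φ γ z l) (hm z l)
  exact ⟨a, by rw [ha]; exact ha'⟩

/-- a sequence satisfying the condition at one coordinate -/
theorem exists_coord {p : Pre A I Ω} (hp : p ∈ PP A I Ω) (γ : Ω) (z : Pnt I Ω) :
    ∃ g : ℕ → ℕ, ini g (p.σ γ).length = p.σ γ ∧ ∀ n, (p.σ γ).length ≤ n →
      A.Adm (ini g n) (g n) (p.φ γ z (A.pos (ini g n) (g n))) := by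
  choose f hf using exists_next hp γ z
  obtain ⟨g, hg1, hg2⟩ := exists_seq (p.σ γ) f
  refine ⟨g, hg1, fun n hn => ?_⟩
  rw [hg2 n hn]
  exact hf (ini g n)

/-- a point which satisfies a condition below `β` can be changed above `β` to satisfy it -/
theorem exists_sat_ext {p : Pre A I Ω} (hp : p ∈ PP A I Ω) {β : Ω} {z0 : Pnt I Ω} (h0 : p.satB β z0) :
    ∃ z : Pnt I Ω, p.sat z ∧ z.1 = z0.1 ∧ ∀ γ < β, z.2 γ = z0.2 γ := by
  classical
  choose C hC1 hC2 using fun (γ : Ω) (z : Pnt I Ω) => exists_coord hp γ z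
  let F : ∀ γ : Ω, (∀ δ, δ < γ → (ℕ → ℕ)) → (ℕ → ℕ) := fun γ prev =>
    if γ < β then z0.2 γ else C γ (z0.1, fun δ => if h : δ < γ then prev δ h else fun _ => 0)
  let G : Ω → ℕ → ℕ := (wellFounded_lt (α := Ω)).fix (C := fun _ => ℕ → ℕ) F
  have hG : ∀ γ, G γ = F γ (fun δ _ => G δ) := fun γ => WellFounded.fix_eq _ _ _
  have hlow : ∀ γ, γ < β → G γ = z0.2 γ := by
    intro γ hγ
    rw [hG γ]
    exact if_pos hγ
  have hhigh : ∀ γ, ¬ γ < β →
      G γ = C γ (z0.1, fun δ => if δ < γ then G δ else fun _ => 0) := by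
    intro γ hγ
    conv_lhs => rw [hG γ]
    simp only [F, if_neg hγ, dite_eq_ite]
  refine ⟨(z0.1, G), ⟨fun i n a h => h0.1 i n a h, fun γ => ?_⟩, rfl, fun γ hγ => hlow γ hγ⟩
  by_cases hγ : γ < β
  · have h1 := h0.2 γ hγ
    have h2 : p.φ γ (z0.1, G) = p.φ γ z0 :=
      promise_dep hp γ (z0.1, G) z0 rfl (fun δ hδ => hlow δ (hδ.trans hγ))
    unfold Pre.satAt at h1 ⊢
    simp only [hlow γ hγ, h2]
    exact h1
  · have h2 : p.φ γ (z0.1, fun δ => if δ < γ then G δ else fun _ => 0) = p.φ γ (z0.1, G) :=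
      promise_dep hp γ _ _ rfl (fun δ hδ => if_pos hδ)
    have h3 := hC1 γ (z0.1, fun δ => if δ < γ then G δ else fun _ => 0)
    have h4 := hC2 γ (z0.1, fun δ => if δ < γ then G δ else fun _ => 0)
    rw [← hhigh γ hγ] at h3 h4
    rw [h2] at h4
    exact ⟨h3, h4⟩

theorem exists_sat {p : Pre A I Ω} (hp : p ∈ PP A I Ω) : ∃ z : Pnt I Ω, p.sat z := by
  classical
  let x : I → ℕ → ℕ := fun i n => if h : ∃ a, (i, n, a) ∈ p.c then h.choose else 0
  have hx : ∀ i n a, (i, n, a) ∈ p.c → x i n = a := by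
    intro i n a h
    have he : ∃ a, (i, n, a) ∈ p.c := ⟨a, h⟩
    have : x i n = he.choose := dif_pos he
    rw [this]
    exact p.fn i n _ _ he.choose_spec h
  by_cases hne : Nonempty Ω
  · have hmin : ∀ γ : Ω, ¬ γ < (wellFounded_lt (α := Ω)).min Set.univ Set.univ_nonempty :=
      fun γ => (wellFounded_lt (α := Ω)).not_lt_min Set.univ (Set.mem_univ γ)
    obtain ⟨z, hz, -⟩ := exists_sat_ext hp
      (β := (wellFounded_lt (α := Ω)).min Set.univ Set.univ_nonempty)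
      (z0 := (x, fun _ _ => 0)) ⟨hx, fun γ hγ => absurd hγ (hmin γ)⟩
    exact ⟨z, hz⟩
  · exact ⟨(x, fun _ _ => 0), hx, fun γ => absurd ⟨γ⟩ hne⟩

theorem exists_satB {p : Pre A I Ω} (hp : p ∈ PP A I Ω) (β : Ω) : ∃ z : Pnt I Ω, p.satB β z := by
  obtain ⟨z, hz⟩ := exists_sat hp
  exact ⟨z, hz.1, fun γ _ => hz.2 γ⟩

end

end Pool.Agent.SSM
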