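import Pool.Agent.SSM.Ord

/-!
# Restriction and amalgamation
-/

namespace Pool.Agent.SSM

open Set

section
variable {A : Itd} {I Ω : Type} [LinearOrder Ω]

open Classical in
/-- the part of the condition below `β` -/
noncomputable def res (β : Ω) (p : Pre A I Ω) : Pre A I Ω where
  c := p.c
  s := p.s.filter (· < β)
  σ γ := if γ < β then p.σ γ else []
  φ γ := if γ < β then p.φ γ else fun _ _ => ∅
  fn := p.fn
  out := by
    intro γ hγ
    by_cases h : γ < β
    · rw [if_pos h, if_pos h]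
      exact p.out γ (fun h' => hγ (Finset.mem_filter.2 ⟨h', h⟩))
    · rw [if_neg h, if_neg h]
      exact ⟨rfl, fun _ _ => rfl⟩
  leg := by
    intro γ n hn
    by_cases h : γ < β
    · rw [if_pos h] at hn ⊢
      exact p.leg γ n hn
    · rw [if_neg h] at hn
      simp at hn

theorem res_σ {β γ : Ω} (h : γ < β) (p : Pre A I Ω) : (res β p).σ γ = p.σ γ := if_pos h

theorem res_φ {β γ : Ω} (h : γ < β) (p : Pre A I Ω) : (res β p).φ γ = p.φ γ := if_pos h

theorem res_low (β : Ω) (p : Pre A I Ω) : (res β p).Low β := fun _ h => (Finset.mem_filter.1 h).2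

private theorem res_σ_neg {β γ : Ω} (h : ¬ γ < β) (p : Pre A I Ω) : (res β p).σ γ = [] :=
  if_neg h

private theorem res_φ_neg {β γ : Ω} (h : ¬ γ < β) (p : Pre A I Ω) :
    (res β p).φ γ = fun _ _ => ∅ := if_neg h

private theorem res_satAt {β γ : Ω} (h : γ < β) {p : Pre A I Ω} {z : Pnt I Ω} :
    (res β p).satAt γ z ↔ p.satAt γ z := by
  unfold Pre.satAt
  rw [res_σ h, res_φ h]

private theorem res_satB_le {β γ : Ω} (h : γ ≤ β) {p : Pre A I Ω} {z : Pnt I Ω} :
    (res β p).satB γ z ↔ p.satB γ z := by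
  unfold Pre.satB
  exact and_congr Iff.rfl (forall_congr' fun δ => imp_congr_right fun hδ =>
    res_satAt (lt_of_lt_of_le hδ h))

theorem le_res (β : Ω) (p : Pre A I Ω) : p.LE (res β p) := by
  classical
  refine ⟨fun _ h => h, Finset.filter_subset _ _, ?_, ?_, ?_⟩
  · intro γ
    by_cases h : γ < β
    · rw [res_σ h]
    · rw [res_σ_neg h]
      exact List.nil_prefix
  · intro γ z l
    by_cases h : γ < β
    · rw [res_φ h]
    · rw [res_φ_neg h]
      exact Finset.empty_subset _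
  · intro γ z _ n h1 h2
    by_cases h : γ < β
    · rw [res_σ h] at h1
      exact absurd h1 (not_le.2 h2)
    · rw [res_φ_neg h]
      exact p.leg γ n h2

theorem res_mono {β : Ω} {p q : Pre A I Ω} (h : q.LE p) : (res β q).LE (res β p) := by
  classical
  refine ⟨h.c, Finset.filter_subset_filter _ h.s, ?_, ?_, ?_⟩
  · intro γ
    by_cases hγ : γ < β
    · rw [res_σ hγ, res_σ hγ]
      exact h.σ γ
    · rw [res_σ_neg hγ]
      exact List.nil_prefix
  · intro γ z l
    by_cases hγ : γ < β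
    · rw [res_φ hγ, res_φ hγ]
      exact h.φ γ z l
    · rw [res_φ_neg hγ]
      exact Finset.empty_subset _
  · intro γ z hz n h1 h2
    by_cases hγ : γ < β
    · rw [res_σ hγ] at h1 h2
      rw [res_σ hγ, res_φ hγ]
      exact h.new γ z ((res_satB_le hγ.le).1 hz) n h1 h2
    · rw [res_σ_neg hγ] at h2
      exact absurd h2 (Nat.not_lt_zero _)

theorem res_eq {β : Ω} {p : Pre A I Ω} (hl : p.Low β) : res β p = p := by
  classical
  refine Pre.ext rfl ?_ ?_ ?_
  · exact Finset.filter_true_of_mem fun γ hγ => hl γ hγ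
  · funext γ
    by_cases h : γ < β
    · exact res_σ h p
    · rw [res_σ_neg h]
      exact (p.out γ (fun h' => h (hl γ h'))).1.symm
  · funext γ
    by_cases h : γ < β
    · exact res_φ h p
    · rw [res_φ_neg h]
      funext z l
      exact ((p.out γ (fun h' => h (hl γ h'))).2 z l).symm

theorem res_le {β : Ω} {p q : Pre A I Ω} (h : q.LE p) (hl : p.Low β) : (res β q).LE p := by
  have h1 : (res β q).LE (res β p) := res_mono h
  rwa [res_eq hl] at h1

theorem res_satB {β : Ω} {p : Pre A I Ω} {z : Pnt I Ω} : (res β p).satB β z ↔ p.satB β z :=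
  res_satB_le (le_refl β)

/-- the condition `p` with the coordinate `β` replaced -/
noncomputable def put (β : Ω) (τ : List ℕ) (ψ : Pro I Ω) (p : Pre A I Ω)
    (hτ : ∀ n, n < τ.length → A.Adm (τ.take n) (τ.getD n 0) ∅) : Pre A I Ω := by
  classical
  exact
  { c := p.c
    s := insert β p.s
    σ := Function.update p.σ β τ
    φ := Function.update p.φ β ψ
    fn := p.fn
    out := by
      intro γ hγ
      rw [Finset.mem_insert, not_or] at hγ
      rw [Function.update_of_ne hγ.1, Function.update_of_ne hγ.1]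
      exact p.out γ hγ.2
    leg := by
      intro γ n hn
      by_cases h : γ = β
      · subst h
        rw [Function.update_self] at hn ⊢
        exact hτ n hn
      · rw [Function.update_of_ne h] at hn ⊢
        exact p.leg γ n hn }

variable [WellFoundedLT Ω]

theorem res_mem {β : Ω} {p : Pre A I Ω} (h : p ∈ PP A I Ω) : res β p ∈ PP A I Ω := by
  classical
  intro γ hγ
  have h1 := Finset.mem_filter.1 hγ
  rw [res_φ h1.2]
  exact h γ h1.1

open Classical in
/-- the amalgam -/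
private noncomputable def resAmal (β : Ω) (r p : Pre A I Ω) : Pre A I Ω where
  c := r.c
  s := r.s ∪ p.s
  σ γ := if γ < β then r.σ γ else p.σ γ
  φ γ := if γ < β then r.φ γ else p.φ γ
  fn := r.fn
  out := by
    intro γ hγ
    rw [Finset.mem_union, not_or] at hγ
    by_cases h : γ < β
    · rw [if_pos h, if_pos h]
      exact r.out γ hγ.1
    · rw [if_neg h, if_neg h]
      exact p.out γ hγ.2
  leg := by
    intro γ n hn
    by_cases h : γ < β
    · rw [if_pos h] at hn ⊢
      exact r.leg γ n hn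
    · rw [if_neg h] at hn ⊢
      exact p.leg γ n hn

/-- amalgamation: a condition below `res β p` and `p` -/
theorem exists_am {β : Ω} {r p : Pre A I Ω} (hr : r ∈ PP A I Ω) (hp : p ∈ PP A I Ω) (hl : r.Low β)
    (h : r.LE (res β p)) : ∃ t ∈ PP A I Ω, t.LE r ∧ t.LE p ∧ t.c = r.c ∧ t.s ⊆ r.s ∪ p.s ∧
      (∀ γ < β, t.σ γ = r.σ γ ∧ t.φ γ = r.φ γ) ∧ (∀ γ, β ≤ γ → t.σ γ = p.σ γ ∧ t.φ γ = p.φ γ) ∧
      res β t = r := by
  classical
  have hs : ∀ γ ∈ p.s, γ < β → γ ∈ r.s := fun γ h1 h2 => h.s (Finset.mem_filter.2 ⟨h1, h2⟩)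
  have hσ : ∀ γ, γ < β → (resAmal β r p).σ γ = r.σ γ := fun γ hγ => if_pos hγ
  have hφ : ∀ γ, γ < β → (resAmal β r p).φ γ = r.φ γ := fun γ hγ => if_pos hγ
  have hσ' : ∀ γ, ¬ γ < β → (resAmal β r p).σ γ = p.σ γ := fun γ hγ => if_neg hγ
  have hφ' : ∀ γ, ¬ γ < β → (resAmal β r p).φ γ = p.φ γ := fun γ hγ => if_neg hγ
  have ho : ∀ γ, ¬ γ < β → r.σ γ = [] ∧ ∀ z l, r.φ γ z l = ∅ :=
    fun γ hγ => r.out γ (fun h' => hγ (hl γ h'))
  refine ⟨resAmal β r p, ?_, ?_, ?_, rfl, fun _ h => h, ?_, ?_, ?_⟩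
  · intro γ hγ
    have h1 : γ ∈ r.s ∨ γ ∈ p.s := Finset.mem_union.1 hγ
    by_cases hγβ : γ < β
    · rw [hφ γ hγβ]
      exact hr γ (h1.elim id fun h2 => hs γ h2 hγβ)
    · rw [hφ' γ hγβ]
      exact hp γ (h1.elim (fun h2 => absurd (hl γ h2) hγβ) id)
  · refine ⟨fun _ h => h, Finset.subset_union_left, ?_, ?_, ?_⟩
    · intro γ
      by_cases hγ : γ < β
      · rw [hσ γ hγ]
      · rw [(ho γ hγ).1]
        exact List.nil_prefix
    · intro γ z l
      by_cases hγ : γ < β
      · rw [hφ γ hγ]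
      · rw [(ho γ hγ).2]
        exact Finset.empty_subset _
    · intro γ z _ n h1 h2
      by_cases hγ : γ < β
      · rw [hσ γ hγ] at h2
        exact absurd h1 (not_le.2 h2)
      · rw [(ho γ hγ).2, hσ' γ hγ]
        rw [hσ' γ hγ] at h2
        exact p.leg γ n h2
  · refine ⟨h.c, Finset.subset_union_right, ?_, ?_, ?_⟩
    · intro γ
      by_cases hγ : γ < β
      · rw [hσ γ hγ]
        have h1 := h.σ γ
        rwa [res_σ hγ] at h1
      · rw [hσ' γ hγ]
    · intro γ z l
      by_cases hγ : γ < β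
      · rw [hφ γ hγ]
        have h1 := h.φ γ z l
        rwa [res_φ hγ] at h1
      · rw [hφ' γ hγ]
    · intro γ z hz n h1 h2
      by_cases hγ : γ < β
      · rw [hσ γ hγ] at h2 ⊢
        have h3 : r.satB γ z := by
          refine ⟨hz.1, fun δ hδ => ?_⟩
          have h4 := hz.2 δ hδ
          unfold Pre.satAt at h4 ⊢
          rwa [hσ δ (hδ.trans hγ), hφ δ (hδ.trans hγ)] at h4
        have h5 := h.new γ z h3 n (by rw [res_σ hγ]; exact h1) h2
        rwa [res_φ hγ] at h5
      · rw [hσ' γ hγ] at h2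
        exact absurd h1 (not_le.2 h2)
  · exact fun γ hγ => ⟨hσ γ hγ, hφ γ hγ⟩
  · exact fun γ hγ => ⟨hσ' γ (not_lt.2 hγ), hφ' γ (not_lt.2 hγ)⟩
  · refine Pre.ext rfl ?_ ?_ ?_
    · refine Finset.Subset.antisymm ?_ ?_
      · intro γ hγ
        have h1 := Finset.mem_filter.1 hγ
        exact (Finset.mem_union.1 h1.1).elim id fun h2 => hs γ h2 h1.2
      · intro γ hγ
        exact Finset.mem_filter.2 ⟨Finset.mem_union.2 (Or.inl hγ), hl γ hγ⟩
    · funext γ
      by_cases hγ : γ < β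
      · rw [res_σ hγ, hσ γ hγ]
      · rw [res_σ_neg hγ, (ho γ hγ).1]
    · funext γ
      by_cases hγ : γ < β
      · rw [res_φ hγ, hφ γ hγ]
      · rw [res_φ_neg hγ]
        funext z l
        rw [(ho γ hγ).2]

end

end Pool.Agent.SSM
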