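import Pool.Agent.SSM.Lim3

/-!
# Selection of copies
-/

namespace Pool.Agent.SSM

open Set Cardinal

section
variable {A : Itd} {I Ω : Type} [LinearOrder Ω] [WellFoundedLT Ω]

open Classical in
/-- enlarge the Cohen part -/
private noncomputable def selAdd (p : Pre A I Ω) (C : Finset (I × ℕ × ℕ)) : Pre A I Ω :=
  if h : ∀ i n a b, (i, n, a) ∈ p.c ∪ C → (i, n, b) ∈ p.c ∪ C → a = b then
    { p with c := p.c ∪ C, fn := h } else p

open Classical in
private lemma selAdd_c {p : Pre A I Ω} {C : Finset (I × ℕ × ℕ)}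
    (h : ∀ i n a b, (i, n, a) ∈ p.c ∪ C → (i, n, b) ∈ p.c ∪ C → a = b) :
    (selAdd p C).c = p.c ∪ C := by
  unfold selAdd
  rw [dif_pos h]

private lemma selAdd_s {p : Pre A I Ω} {C : Finset (I × ℕ × ℕ)} : (selAdd p C).s = p.s := by
  unfold selAdd
  split_ifs <;> rfl

private lemma selAdd_σ {p : Pre A I Ω} {C : Finset (I × ℕ × ℕ)} : (selAdd p C).σ = p.σ := by
  unfold selAdd
  split_ifs <;> rfl

private lemma selAdd_φ {p : Pre A I Ω} {C : Finset (I × ℕ × ℕ)} : (selAdd p C).φ = p.φ := by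
  unfold selAdd
  split_ifs <;> rfl

private lemma selAdd_PP {p : Pre A I Ω} (hp : p ∈ PP A I Ω) {C : Finset (I × ℕ × ℕ)} :
    selAdd p C ∈ PP A I Ω := by
  intro γ hγ
  rw [selAdd_s] at hγ
  rw [selAdd_φ]
  exact hp γ hγ

private lemma selAdd_sub {p : Pre A I Ω} {C : Finset (I × ℕ × ℕ)} : p.c ⊆ (selAdd p C).c := by
  classical
  unfold selAdd
  split_ifs with h
  · exact Finset.subset_union_left
  · exact subset_rfl

private lemma selAdd_LE {p : Pre A I Ω} {C : Finset (I × ℕ × ℕ)} : (selAdd p C).LE p := by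
  refine ⟨selAdd_sub, ?_, ?_, ?_, ?_⟩
  · rw [selAdd_s]
  · intro β; rw [selAdd_σ]
  · intro β z l; rw [selAdd_φ]
  · intro β z _ n h1 h2
    rw [selAdd_σ] at h2
    omega

/-- a common legality index -/
private lemma sel_index {p : Pre A I Ω} (hp : p ∈ PP A I Ω) :
    ∃ m, ∀ β z l, A.Leg m l (p.φ β z l) := by
  have h : ∀ β ∈ p.s, ∃ m, ∀ z l, A.Leg m l (p.φ β z l) := fun β hβ => (mem_Nm.1 (hp β hβ)).2.1
  choose! f hf using h
  refine ⟨p.s.sup f, fun β z l => ?_⟩
  by_cases hβ : β ∈ p.s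
  · exact A.leg_mono (Finset.le_sup hβ) (hf β hβ z l)
  · rw [(p.out β hβ).2 z l]
    exact A.leg_empty _ _

open Classical in
/-- a pattern with an uncountable fibre -/
private lemma sel_pattern {X : Type} {I' : Set I} (hI' : ¬ #I' ≤ ℵ₁) (hX : #X ≤ ℵ₁) (f : I → X) :
    ∃ x, ¬ {i ∈ I' | f i = x}.Countable := by
  by_contra hcon
  push Not at hcon
  apply hI'
  have h1 : I' = ⋃ x, {i ∈ I' | f i = x} := by
    ext i
    simp
  rw [h1]
  refine (Cardinal.mk_iUnion_le_sum_mk).trans ?_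
  refine (Cardinal.sum_le_sum _ (fun _ => ℵ₀) (fun x => ?_)).trans ?_
  · exact (hcon x).le_aleph0
  · rw [Cardinal.sum_const]
    simp only [lift_id]
    calc #X * ℵ₀ ≤ ℵ₁ * ℵ₁ := mul_le_mul' hX (aleph0_le_aleph 1)
      _ = ℵ₁ := mul_eq_self (aleph0_le_aleph 1)

private lemma sel_card (hΩ : #Ω ≤ ℵ₁) : #(Finset (Ω × List ℕ) × ℕ × List ℕ) ≤ ℵ₁ := by
  have h1 : #(Ω × List ℕ) ≤ ℵ₁ := by
    rw [mk_prod]
    simp only [lift_id]
    calc #Ω * #(List ℕ) ≤ ℵ₁ * ℵ₁ :=
          mul_le_mul' hΩ ((mk_le_aleph0_iff.2 inferInstance).trans (aleph0_le_aleph 1))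
      _ = ℵ₁ := mul_eq_self (aleph0_le_aleph 1)
  have h2 : #(Finset (Ω × List ℕ)) ≤ ℵ₁ := by
    rcases finite_or_infinite (Ω × List ℕ) with h | h
    · exact (mk_le_aleph0_iff.2 inferInstance).trans (aleph0_le_aleph 1)
    · rw [mk_finset_of_infinite]; exact h1
  rw [mk_prod]
  simp only [lift_id]
  calc #(Finset (Ω × List ℕ)) * #(ℕ × List ℕ) ≤ ℵ₁ * ℵ₁ :=
        mul_le_mul' h2 ((mk_le_aleph0_iff.2 inferInstance).trans (aleph0_le_aleph 1))
    _ = ℵ₁ := mul_eq_self (aleph0_le_aleph 1)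

private lemma sel_kappa (c : ℕ) {ε : ℝ} (hε : 0 < ε) : ∃ κ : ℕ, (c : ℝ) * (2 * (1 / 2) ^ κ) ≤ ε := by
  obtain ⟨κ, hκ⟩ := exists_pow_lt_of_lt_one (show (0 : ℝ) < ε / (2 * (c + 1)) by positivity)
    (show (1 / 2 : ℝ) < 1 by norm_num)
  refine ⟨κ, ?_⟩
  rw [lt_div_iff₀ (by positivity)] at hκ
  have h1 : (0 : ℝ) < (1 / 2) ^ κ := by positivity
  nlinarith

/-- pigeonhole for countably many patterns -/
private lemma sel_pigeon {ι X : Type*} [Countable X] {S : Set ι} (hS : ¬ S.Countable) (f : ι → X) :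
    ∃ x, ¬ {i ∈ S | f i = x}.Countable := by
  by_contra hcon
  push Not at hcon
  apply hS
  refine (countable_iUnion hcon).mono ?_
  intro i hi
  rw [mem_iUnion]
  exact ⟨f i, hi, rfl⟩

open Classical in
/-- Given more than `ℵ₁` many conditions `P i` (`i ∈ I'`), each deciding exactly an initial segment `st i`
of the `i`-th Cohen function, there is a list `τ0` such that whatever finite families of continuations
of `τ0` we choose, there are indices `ι k t` with `st (ι k t) = τ0` and a condition forcing that for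
infinitely many `k` nearly all of the conditions `P (ι k t)`, prolonged by the `t`-th continuation of the
`ι k t`-th Cohen function, are in the generic filter. -/
theorem exists_copies (hΩ : #Ω ≤ ℵ₁) {I' : Set I} (hI' : ¬ #I' ≤ ℵ₁) (P : I → Pre A I Ω)
    (hP : ∀ i ∈ I', P i ∈ PP A I Ω) (st : I → List ℕ)
    (hst : ∀ i ∈ I', ∀ n a, (i, n, a) ∈ (P i).c ↔ n < (st i).length ∧ a = (st i).getD n 0) :
    ∃ τ0 : List ℕ, (∃ i ∈ I', st i = τ0) ∧
      ∀ {τ : Type} [Countable τ] (T : ℕ → Finset τ), (∀ k, A.Tok (T k).card) →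
      ∀ (w : ℕ → τ → List ℕ) (ε : ℝ), 0 < ε → ∃ ι : ℕ → τ → I, (∀ k t, ι k t ∈ I' ∧ st (ι k t) = τ0) ∧
        ∃ q ∈ PP A I Ω, ∀ q' ∈ PP A I Ω, q'.LE q → ∀ N, ∃ k ≥ N, ∃ q'' ∈ PP A I Ω, q''.LE q' ∧
          ∃ B ⊆ T k, (B.card : ℝ) ≤ ε * (T k).card ∧ ∀ t ∈ T k, t ∉ B → q''.LE (P (ι k t)) ∧
            ∀ j < (w k t).length, (ι k t, τ0.length + j, (w k t).getD j 0) ∈ q''.c := by
  -- legality indices
  have hidx : ∀ i ∈ I', ∃ m, ∀ β z l, A.Leg m l ((P i).φ β z l) := fun i hi => sel_index (hP i hi)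
  choose! mi hmi using hidx
  -- patterns
  obtain ⟨⟨pt, m, τ0⟩, hS1⟩ := sel_pattern hI' (sel_card hΩ)
    (fun i => ((P i).s.image (fun β => (β, (P i).σ β)), mi i, st i))
  set S1 : Set I := {i ∈ I' | ((P i).s.image (fun β => (β, (P i).σ β)), mi i, st i) = (pt, m, τ0)}
    with hS1def
  -- Delta system
  obtain ⟨S2, hS2, hS2c, R, hR⟩ := exists_dsys hS1 (fun i => insert i ((P i).c.image Prod.fst))
  have hS3c : ¬ (S2 \ (R : Set I)).Countable := by
    intro h
    apply hS2c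
    refine (h.union (R.countable_toSet)).mono ?_
    intro i hi
    by_cases hiR : i ∈ (R : Set I)
    · exact Or.inr hiR
    · exact Or.inl ⟨hi, hiR⟩
  -- the same restriction to the root
  set e : {x : I // x ∈ R} × ℕ × ℕ → I × ℕ × ℕ := fun x => (x.1.1, x.2) with he
  have heinj : Function.Injective e := by
    rintro ⟨⟨a, ha⟩, b⟩ ⟨⟨a', ha'⟩, b'⟩ h
    obtain ⟨h1, h2⟩ := Prod.mk.inj h
    simp only at h1 h2
    subst h1 h2
    rfl
  obtain ⟨r', hS4c⟩ := sel_pigeon hS3c (fun i => (P i).c.preimage e heinj.injOn)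
  set S4 : Set I := {i ∈ S2 \ (R : Set I) | (P i).c.preimage e heinj.injOn = r'} with hS4def
  have hS4inf : S4.Infinite := fun h => hS4c h.countable
  have hS4I : ∀ i ∈ S4, i ∈ I' := fun i hi => (hS2 hi.1.1).1
  have hS4st : ∀ i ∈ S4, st i = τ0 := fun i hi => by
    have := (hS2 hi.1.1).2
    exact (Prod.mk.inj (Prod.mk.inj this).2).2
  have hS4m : ∀ i ∈ S4, mi i = m := fun i hi => by
    have := (hS2 hi.1.1).2
    exact (Prod.mk.inj (Prod.mk.inj this).2).1
  have hS4pt : ∀ i ∈ S4, (P i).s.image (fun β => (β, (P i).σ β)) = pt := fun i hi => by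
    have := (hS2 hi.1.1).2
    exact (Prod.mk.inj this).1
  have hS4R : ∀ i ∈ S4, i ∉ R := fun i hi => hi.1.2
  have hmem : ∀ i ∈ S4, ∀ x : I × ℕ × ℕ, ∀ hx : x.1 ∈ R,
      (x ∈ (P i).c ↔ ((⟨x.1, hx⟩, x.2) : {x : I // x ∈ R} × ℕ × ℕ) ∈ r') := by
    intro i hi x hx
    rw [← hi.2, Finset.mem_preimage]
  obtain ⟨i0, hi0⟩ := hS4inf.nonempty
  set s : Finset Ω := (P i0).s with hs
  set σ0 : Ω → List ℕ := (P i0).σ with hσ0
  have hsS : ∀ i ∈ S4, (P i).s = s := by
    intro i hi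
    have h1 := (hS4pt i hi).trans (hS4pt i0 hi0).symm
    have h2 := congrArg (Finset.image Prod.fst) h1
    rw [Finset.image_image, Finset.image_image] at h2
    have h3 : ∀ p : Pre A I Ω, p.s.image (Prod.fst ∘ fun β => (β, p.σ β)) = p.s := by
      intro p
      have : (Prod.fst ∘ fun β => (β, p.σ β)) = id := rfl
      rw [this, Finset.image_id]
    rw [h3, h3] at h2
    exact h2
  have hσS : ∀ i ∈ S4, ∀ β ∈ s, (P i).σ β = σ0 β := by
    intro i hi β hβ
    have h1 := (hS4pt i hi).trans (hS4pt i0 hi0).symm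
    have h2 : (β, (P i).σ β) ∈ (P i).s.image (fun β => (β, (P i).σ β)) :=
      Finset.mem_image_of_mem _ (by rw [hsS i hi]; exact hβ)
    rw [h1, Finset.mem_image] at h2
    obtain ⟨γ, _, hγ⟩ := h2
    obtain ⟨h3, h4⟩ := Prod.mk.inj hγ
    subst h3
    exact h4.symm
  set r : Finset (I × ℕ × ℕ) := (P i0).c.filter (fun x => x.1 ∈ R) with hr
  have hrS : ∀ i ∈ S4, ∀ x : I × ℕ × ℕ, x.1 ∈ R → (x ∈ (P i).c ↔ x ∈ r) := by
    intro i hi x hx
    rw [hmem i hi x hx, hr, Finset.mem_filter, hmem i0 hi0 x hx]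
    exact ⟨fun h => ⟨h, hx⟩, fun h => h.1⟩
  have hRS : ∀ i ∈ S4, ∀ j ∈ S4, i ≠ j → ∀ x, x ∈ insert i ((P i).c.image Prod.fst) →
      x ∈ insert j ((P j).c.image Prod.fst) → x ∈ R := by
    intro i hi j hj hij x hx hy
    rw [← hR i hi.1.1 j hj.1.1 hij, Finset.mem_inter]
    exact ⟨hx, hy⟩
  refine ⟨τ0, ⟨i0, hS4I i0 hi0, hS4st i0 hi0⟩, ?_⟩
  intro τ _ T hT w ε hε
  -- injection
  obtain ⟨g, hg⟩ : ∃ g : ℕ × τ → S4, Function.Injective g := by
    have : Infinite S4 := hS4inf.to_subtype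
    obtain ⟨e, he⟩ := exists_injective_nat (ℕ × τ)
    exact ⟨(Infinite.natEmbedding S4) ∘ e, (Infinite.natEmbedding S4).injective.comp he⟩
  set ι : ℕ → τ → I := fun k t => (g (k, t)).1 with hι
  have hιS : ∀ k t, ι k t ∈ S4 := fun k t => (g (k, t)).2
  have hιinj : ∀ k t k' t', ι k t = ι k' t' → k = k' ∧ t = t' := by
    intro k t k' t' h
    exact Prod.mk.inj (hg (Subtype.ext h))
  refine ⟨ι, fun k t => ⟨hS4I _ (hιS k t), hS4st _ (hιS k t)⟩, ?_⟩
  -- the prolonged conditions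
  set new : ℕ → τ → Finset (I × ℕ × ℕ) := fun k t =>
    (Finset.range (w k t).length).image (fun j => (ι k t, τ0.length + j, (w k t).getD j 0))
    with hnew
  have hnew1 : ∀ k t x, x ∈ new k t → x.1 = ι k t ∧ ∃ j < (w k t).length,
      x.2 = (τ0.length + j, (w k t).getD j 0) := by
    intro k t x hx
    obtain ⟨j, hj, rfl⟩ := Finset.mem_image.1 hx
    exact ⟨rfl, j, Finset.mem_range.1 hj, rfl⟩
  have hfn : ∀ k t, ∀ i n a b, (i, n, a) ∈ (P (ι k t)).c ∪ new k t →
      (i, n, b) ∈ (P (ι k t)).c ∪ new k t → a = b := by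
    intro k t i n a b ha hb
    rw [Finset.mem_union] at ha hb
    have hst' := hst _ (hS4I _ (hιS k t))
    rw [hS4st _ (hιS k t)] at hst'
    rcases ha with ha | ha <;> rcases hb with hb | hb
    · exact (P (ι k t)).fn i n a b ha hb
    · obtain ⟨h1, j, _, h2⟩ := hnew1 k t _ hb
      simp only [Prod.mk.injEq] at h1 h2
      subst h1
      have := ((hst' n a).1 ha).1
      omega
    · obtain ⟨h1, j, _, h2⟩ := hnew1 k t _ ha
      simp only [Prod.mk.injEq] at h1 h2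
      subst h1
      have := ((hst' n b).1 hb).1
      omega
    · obtain ⟨_, j, _, h2⟩ := hnew1 k t _ ha
      obtain ⟨_, j', _, h2'⟩ := hnew1 k t _ hb
      simp only [Prod.mk.injEq] at h2 h2'
      have : j = j' := by omega
      subst this
      rw [h2.2, h2'.2]
  set p : ℕ → τ → Pre A I Ω := fun k t => selAdd (P (ι k t)) (new k t) with hp
  have hpc : ∀ k t, (p k t).c = (P (ι k t)).c ∪ new k t := fun k t => selAdd_c (hfn k t)
  have hps : ∀ k t, (p k t).s = (P (ι k t)).s := fun k t => selAdd_s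
  have hpσ : ∀ k t, (p k t).σ = (P (ι k t)).σ := fun k t => selAdd_σ
  have hpφ : ∀ k t, (p k t).φ = (P (ι k t)).φ := fun k t => selAdd_φ
  have hpPP : ∀ k t, p k t ∈ PP A I Ω := fun k t => selAdd_PP (hP _ (hS4I _ (hιS k t)))
  have hpLE : ∀ k t, (p k t).LE (P (ι k t)) := fun k t => selAdd_LE
  clear_value p new
  have hpD : ∀ k t x, x ∈ (p k t).c → x.1 ∈ insert (ι k t) ((P (ι k t)).c.image Prod.fst) := by
    intro k t x hx
    rw [hpc, Finset.mem_union] at hx
    rcases hx with hx | hx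
    · exact Finset.mem_insert_of_mem (Finset.mem_image_of_mem _ hx)
    · rw [(hnew1 k t x hx).1]
      exact Finset.mem_insert_self _ _
  have hpR : ∀ k t x, x ∈ (p k t).c → x.1 ∈ R → x ∈ r := by
    intro k t x hx hxR
    rw [hpc, Finset.mem_union] at hx
    rcases hx with hx | hx
    · exact (hrS _ (hιS k t) x hxR).1 hx
    · rw [(hnew1 k t x hx).1] at hxR
      exact absurd hxR (hS4R _ (hιS k t))
  obtain ⟨κ, hκ⟩ := sel_kappa s.card hε
  obtain ⟨q, hq, hqL⟩ := exists_limit (A := A) (I := I) (Ω := Ω) hT (p := p) (s := s) (σ0 := σ0)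
    (m := m) (r := r)
    (fun k t _ => hpPP k t)
    (fun k t _ => (hps k t).trans (hsS _ (hιS k t)))
    (fun k t _ β hβ => (congrFun (hpσ k t) β).trans (hσS _ (hιS k t) β hβ))
    (fun β _ n hn => (P i0).leg β n hn)
    (fun k t _ β z l => by
      have := hmi _ (hS4I _ (hιS k t)) β z l
      rw [hS4m _ (hιS k t)] at this
      rw [hpφ k t]
      exact this)
    (fun i n a b ha hb => (P i0).fn i n a b (Finset.mem_filter.1 ha).1 (Finset.mem_filter.1 hb).1)
    (by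
      intro C hrC hC N
      -- the bad pairs
      have hfin : ({x : ℕ × τ | ∃ y ∈ C.image Prod.fst, y ∉ R ∧
          y ∈ insert (ι x.1 x.2) ((P (ι x.1 x.2)).c.image Prod.fst)}).Finite := by
        have : {x : ℕ × τ | ∃ y ∈ C.image Prod.fst, y ∉ R ∧
            y ∈ insert (ι x.1 x.2) ((P (ι x.1 x.2)).c.image Prod.fst)} ⊆
            ⋃ y ∈ (C.image Prod.fst : Finset I), {x : ℕ × τ | y ∉ R ∧
            y ∈ insert (ι x.1 x.2) ((P (ι x.1 x.2)).c.image Prod.fst)} := by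
          rintro x ⟨y, hy, h1, h2⟩
          rw [mem_iUnion₂]
          exact ⟨y, hy, h1, h2⟩
        refine Set.Finite.subset (Set.Finite.biUnion (Finset.finite_toSet _) ?_) this
        intro y _
        apply Set.Subsingleton.finite
        rintro ⟨k, t⟩ ⟨h1, h2⟩ ⟨k', t'⟩ ⟨_, h2'⟩
        by_contra hne
        have hne' : ι k t ≠ ι k' t' := fun h => hne (Prod.ext_iff.2 (hιinj _ _ _ _ h))
        exact h1 (hRS _ (hιS k t) _ (hιS k' t') hne' y h2 h2')
      obtain ⟨K, hK⟩ := (hfin.image Prod.fst).bddAbove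
      refine ⟨max N (K + 1), le_max_left _ _, ?_⟩
      set k := max N (K + 1) with hk
      have hgood : ∀ t, ∀ y ∈ C.image Prod.fst, y ∈ insert (ι k t) ((P (ι k t)).c.image Prod.fst) →
          y ∈ R := by
        intro t y hy hy'
        by_contra hyR
        have h1 : k ∈ Prod.fst '' {x : ℕ × τ | ∃ y ∈ C.image Prod.fst, y ∉ R ∧
          y ∈ insert (ι x.1 x.2) ((P (ι x.1 x.2)).c.image Prod.fst)} :=
          ⟨(k, t), ⟨y, hy, hyR, hy'⟩, rfl⟩
        have h2 := hK h1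
        have h3 : K + 1 ≤ k := le_max_right _ _
        omega
      -- membership in the union
      have hred : ∀ i n a, (i, n, a) ∈ C ∪ (T k).biUnion (fun t => (p k t).c) →
          ((i, n, a) ∈ C) ∨ (∃ t ∈ T k, (i, n, a) ∈ (p k t).c) := by
        intro i n a h
        rw [Finset.mem_union, Finset.mem_biUnion] at h
        exact h
      intro i n a b ha hb
      rcases hred _ _ _ ha with ha | ⟨t, _, ha⟩ <;> rcases hred _ _ _ hb with hb | ⟨t', _, hb⟩
      · exact hC i n a b ha hb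
      · have h1 : i ∈ R := hgood t' i (Finset.mem_image_of_mem Prod.fst ha) (hpD k t' _ hb)
        exact hC i n a b ha (hrC (hpR k t' _ hb h1))
      · have h1 : i ∈ R := hgood t i (Finset.mem_image_of_mem Prod.fst hb) (hpD k t _ ha)
        exact hC i n a b (hrC (hpR k t _ ha h1)) hb
      · by_cases htt : t = t'
        · subst htt
          exact (p k t).fn i n a b ha hb
        · have hne : ι k t ≠ ι k t' := fun h => htt (hιinj _ _ _ _ h).2
          have h1 : i ∈ R := hRS _ (hιS k t) _ (hιS k t') hne i (hpD k t _ ha) (hpD k t' _ hb)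
          exact hC i n a b (hrC (hpR k t _ ha h1)) (hrC (hpR k t' _ hb h1))) κ
  refine ⟨q, hq, ?_⟩
  intro q' hq' hle N
  obtain ⟨k, hk, q'', hq'', hle'', B, hB, hB1, hB2⟩ := hqL q' hq' hle N
  refine ⟨k, hk, q'', hq'', hle'', B, hB, ?_, ?_⟩
  · refine hB1.trans ?_
    have : (0 : ℝ) ≤ ((T k).card : ℝ) := Nat.cast_nonneg _
    nlinarith
  · intro t ht htB
    have h1 := hB2 t ht htB
    refine ⟨h1.trans (hpLE k t), ?_⟩
    intro j hj
    apply h1.c
    rw [hpc, Finset.mem_union]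
    right
    rw [hnew]
    exact Finset.mem_image.2 ⟨j, Finset.mem_range.2 hj, rfl⟩

end

end Pool.Agent.SSM
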