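import Pool.Agent.SSM.Dec

/-!
# Separation of incompatible conditions
-/

namespace Pool.Agent.SSM

open Set

section
variable {A : Itd} {I Ω : Type} [LinearOrder Ω] [WellFoundedLT Ω]

/-- the stem at `γ` of a condition satisfied by the point determines the initial letters -/
theorem satAt_take {p : Pre A I Ω} {γ : Ω} {z : Pnt I Ω} (h : p.satAt γ z) {n : ℕ}
    (hn : n ≤ (p.σ γ).length) : ini (z.2 γ) n = (p.σ γ).take n := by
  rw [← ini_take (z.2 γ) hn, h.1]

theorem satAt_getD {p : Pre A I Ω} {γ : Ω} {z : Pnt I Ω} (h : p.satAt γ z) {n : ℕ}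
    (hn : n < (p.σ γ).length) : z.2 γ n = (p.σ γ).getD n 0 := by
  rw [← ini_getD (z.2 γ) hn, h.1]

theorem satB_mono {p : Pre A I Ω} {γ β : Ω} {z : Pnt I Ω} (h : p.satB β z) (hγ : γ ≤ β) :
    p.satB γ z := ⟨h.1, fun δ hδ => h.2 δ (lt_of_lt_of_le hδ hγ)⟩

/-- Given conditions `p`, `q` below `β`, some condition below `p` is below `q` or semantically disjoint
from `q`. -/
theorem exists_sep {β : Ω} {p q : Pre A I Ω} (hp : p ∈ PP A I Ω) (hq : q ∈ PP A I Ω) (hpl : p.Low β)
    (hql : q.Low β) : ∃ r ∈ PP A I Ω, r.Low β ∧ r.LE p ∧ (r.LE q ∨ ∀ z, r.satB β z → ¬ q.satB β z) := by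
  classical
  induction β using WellFoundedLT.induction generalizing p q with
  | ind β ih =>
  by_cases hs : q.s = ∅
  · have hout : ∀ γ, q.σ γ = [] ∧ ∀ z l, q.φ γ z l = ∅ := fun γ => q.out γ (by rw [hs]; simp)
    by_cases hc : ∃ i n a b, (i, n, a) ∈ p.c ∧ (i, n, b) ∈ q.c ∧ a ≠ b
    · obtain ⟨i, n, a, b, h1, h2, h3⟩ := hc
      refine ⟨p, hp, hpl, Pre.LE.refl p, Or.inr fun z hz hz' => h3 ?_⟩
      rw [← hz.1 i n a h1, hz'.1 i n b h2]
    · push Not at hc
      let r : Pre A I Ω :=
        { c := p.c ∪ q.c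
          s := p.s
          σ := p.σ
          φ := p.φ
          fn := by
            intro i n a b ha hb
            rcases Finset.mem_union.1 ha with ha | ha <;> rcases Finset.mem_union.1 hb with hb | hb
            · exact p.fn i n a b ha hb
            · exact hc i n a b ha hb
            · exact (hc i n b a hb ha).symm
            · exact q.fn i n a b ha hb
          out := p.out
          leg := p.leg }
      refine ⟨r, hp, hpl, ?_, Or.inl ?_⟩
      · exact
        { c := Finset.subset_union_left
          s := fun _ h => h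
          σ := fun _ => List.prefix_rfl
          φ := fun _ _ _ => fun _ h => h
          new := fun γ z _ n h1 h2 => absurd (lt_of_le_of_lt h1 h2) (lt_irrefl _) }
      · exact
        { c := Finset.subset_union_right
          s := by rw [hs]; exact Finset.empty_subset _
          σ := fun γ => by rw [(hout γ).1]; exact List.nil_prefix
          φ := fun γ z l => by rw [(hout γ).2 z l]; exact Finset.empty_subset _
          new := fun γ z _ n _ h2 => by
            rw [(hout γ).2 z _]
            exact p.leg γ n h2 }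
  · have hne : q.s.Nonempty := Finset.nonempty_iff_ne_empty.2 hs
    obtain ⟨γ, hγ, hmax⟩ : ∃ γ ∈ q.s, ∀ δ ∈ q.s, δ ≤ γ :=
      ⟨q.s.max' hne, q.s.max'_mem hne, fun δ hδ => q.s.le_max' δ hδ⟩
    have hγβ : γ < β := hql γ hγ
    have hup : ∀ δ, γ < δ → q.σ δ = [] ∧ ∀ z l, q.φ δ z l = ∅ := fun δ hδ =>
      q.out δ (fun h => absurd (hmax δ h) (not_le.2 hδ))
    obtain ⟨p1, hp1, hp1p, hlen, hab1, hlow1⟩ := exists_long hp γ (q.σ γ).length
    have hl1 : p1.Low β := hlow1 β hγβ hpl
    by_cases hpre : q.σ γ <+: p1.σ γ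
    swap
    · refine ⟨p1, hp1, hl1, hp1p, Or.inr fun z hz hz' => hpre ?_⟩
      have e1 := satAt_take (hz.2 γ hγβ) hlen
      have e2 := (hz'.2 γ hγβ).1
      rw [← e2, e1]
      exact List.take_prefix _ _
    have hname : q.φ γ ∈ Nm A I γ := hq γ hγ
    obtain ⟨p2, hp2, hp21, hab2, hlow2, hdec⟩ := exists_decs hp1 (β := γ)
      (Finset.Ico (q.σ γ).length (p1.σ γ).length) (fun _ => q.φ γ)
      (fun n => A.pos ((p1.σ γ).take n) ((p1.σ γ).getD n 0)) (fun _ _ => hname)
    have hl2 : p2.Low β := hlow2 β hγβ.le hl1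
    have hσ2 : p2.σ γ = p1.σ γ := (hab2 γ le_rfl).1
    by_cases hall : ∀ n ∈ Finset.Ico (q.σ γ).length (p1.σ γ).length, ∀ z, p2.satB γ z →
        A.Adm ((p1.σ γ).take n) ((p1.σ γ).getD n 0)
          (q.φ γ z (A.pos ((p1.σ γ).take n) ((p1.σ γ).getD n 0)))
    swap
    · push Not at hall
      obtain ⟨n, hn, z0, hz0, hbad⟩ := hall
      refine ⟨p2, hp2, hl2, hp21.trans hp1p, Or.inr fun z hz hz' => hbad ?_⟩
      obtain ⟨u, hu⟩ := hdec n hn
      have hzγ : p2.satB γ z := satB_mono hz hγβ.le
      have h1 := hu z hzγ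
      have h2 := hu z0 hz0
      rw [h2, ← h1]
      rw [Finset.mem_Ico] at hn
      have hat := hz.2 γ hγβ
      have h3 := (hz'.2 γ hγβ).2 n hn.1
      rw [satAt_take hat (by rw [hσ2]; exact hn.2.le), satAt_getD hat (by rw [hσ2]; exact hn.2),
        hσ2] at h3
      exact h3
    obtain ⟨p3, hp3, hp32, hφ3, hc3, hσ3, hφ3', hlow3⟩ := exists_addPro hp2 hname
    have hl3 : p3.Low β := hlow3 β hγβ hl2
    -- put `γ` into the support
    let p4 : Pre A I Ω :=
      { c := p3.c
        s := insert γ p3.s
        σ := p3.σ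
        φ := p3.φ
        fn := p3.fn
        out := fun δ hδ => p3.out δ (fun h => hδ (Finset.mem_insert_of_mem h))
        leg := p3.leg }
    have hp4 : p4 ∈ PP A I Ω := by
      intro δ hδ
      exact PP.name hp3 δ
    have hp43 : p4.LE p3 :=
      { c := fun _ h => h
        s := Finset.subset_insert _ _
        σ := fun _ => List.prefix_rfl
        φ := fun _ _ _ => fun _ h => h
        new := fun γ z _ n h1 h2 => absurd (lt_of_le_of_lt h1 h2) (lt_irrefl _) }
    have hl4 : p4.Low β := by
      intro δ hδ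
      rcases Finset.mem_insert.1 hδ with h | h
      · rw [h]; exact hγβ
      · exact hl3 δ h
    obtain ⟨r', hr', hrl, hrp, hrq⟩ := ih γ hγβ (res_mem (β := γ) hp4) (res_mem (β := γ) hq)
      (res_low γ p4) (res_low γ q)
    obtain ⟨t, ht, htr, htp, htc, hts, htlo, hthi, htres⟩ := exists_am hr' hp4 hrl hrp
    have htl : t.Low β := by
      intro δ hδ
      rcases Finset.mem_union.1 (hts hδ) with h | h
      · exact lt_trans (hrl δ h) hγβ
      · exact hl4 δ h
    have htp' : t.LE p := ((htp.trans hp43).trans hp32).trans (hp21.trans hp1p)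
    refine ⟨t, ht, htl, htp', ?_⟩
    rcases hrq with hrq | hrq
    · left
      have hσγ : t.σ γ = p1.σ γ := by
        rw [(hthi γ le_rfl).1]
        show p3.σ γ = _
        rw [hσ3 γ, hσ2]
      refine
        { c := by rw [htc]; exact hrq.c
          s := ?_
          σ := ?_
          φ := ?_
          new := ?_ }
      · intro δ hδ
        rcases lt_or_eq_of_le (hmax δ hδ) with h | h
        · exact htr.s (hrq.s (Finset.mem_filter.2 ⟨hδ, h⟩))
        · rw [h]
          exact htp.s (Finset.mem_insert_self _ _)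
      · intro δ
        rcases lt_trichotomy δ γ with h | h | h
        · rw [(htlo δ h).1]
          have := hrq.σ δ
          rwa [res_σ h] at this
        · subst h
          rw [hσγ]
          exact hpre
        · rw [(hup δ h).1]
          exact List.nil_prefix
      · intro δ z l
        rcases lt_trichotomy δ γ with h | h | h
        · rw [(htlo δ h).2]
          have := hrq.φ δ z l
          rwa [res_φ h] at this
        · subst h
          rw [(hthi δ le_rfl).2]
          exact hφ3 z l
        · rw [(hup δ h).2]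
          exact Finset.empty_subset _
      · intro δ z hz n h1 h2
        rcases lt_trichotomy δ γ with h | h | h
        · have h3 := htr.satB hz
          rw [(htlo δ h).1] at h2 ⊢
          have := hrq.new δ z h3 n (by rw [res_σ h]; exact h1) h2
          rwa [res_φ h] at this
        · subst h
          rw [hσγ] at h2 ⊢
          exact hall n (Finset.mem_Ico.2 ⟨h1, h2⟩) z (((htp.trans hp43).trans hp32).satB hz)
        · rw [(hup δ h).2]
          exact t.leg δ n h2
    · right
      intro z hz hz'
      exact hrq z (htr.satB (satB_mono hz hγβ.le)) (res_satB.2 (satB_mono hz' hγβ.le))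

end

end Pool.Agent.SSM
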